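import Pool.Agent.Helper6.HC.Key

set_option autoImplicit false

open Finset

namespace Pool.Agent.Helper6.HC

open Polynomial in
theorem root_count (c0 c1 c2 c3 c4 c5 : ℤ) (h0 : c0 ≠ 0) (B : Finset ℤ) :
    (B.filter fun t => c0 + c1 * t + c2 * t ^ 2 + c3 * t ^ 3 + c4 * t ^ 4 + c5 * t ^ 5 = 0).card ≤ 5 := by
  classical
  set P : ℤ[X] := C c0 + C c1 * X + C c2 * X ^ 2 + C c3 * X ^ 3 + C c4 * X ^ 4 + C c5 * X ^ 5 with hP
  have hev : ∀ t, P.eval t = c0 + c1 * t + c2 * t ^ 2 + c3 * t ^ 3 + c4 * t ^ 4 + c5 * t ^ 5 := by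
    intro t
    simp [hP]
  have hP0 : P ≠ 0 := by
    intro h
    apply h0
    have := hev 0
    rw [h] at this
    simpa using this.symm
  have hdeg : P.natDegree ≤ 5 := by
    rw [hP]
    compute_degree
  calc (B.filter fun t => c0 + c1 * t + c2 * t ^ 2 + c3 * t ^ 3 + c4 * t ^ 4 + c5 * t ^ 5 = 0).card
      ≤ P.roots.toFinset.card := by
        apply card_le_card
        intro t ht
        rw [mem_filter] at ht
        rw [Multiset.mem_toFinset, mem_roots hP0, IsRoot.def, hev]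
        exact ht.2
    _ ≤ P.roots.card := Multiset.toFinset_card_le _
    _ ≤ P.natDegree := P.card_roots'
    _ ≤ 5 := hdeg

theorem curve_count (D a0 a1 a2 a3 a4 a5 : ℤ) (hD : D ≠ 0) (B : Finset ℤ) :
    ((B ×ˢ B).filter fun t => D + a0 * t.1 ^ 5 + a1 * t.1 ^ 4 * t.2 + a2 * t.1 ^ 3 * t.2 ^ 2 +
      a3 * t.1 ^ 2 * t.2 ^ 3 + a4 * t.1 * t.2 ^ 4 + a5 * t.2 ^ 5 = 0).card ≤ 6 * B.card := by
  classical
  set W := B.filter fun x => D + a0 * x ^ 5 = 0 with hW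
  have hW1 : W.card ≤ 1 := by
    rw [card_le_one]
    intro x hx y hy
    rw [hW, mem_filter] at hx hy
    have h1 : a0 * (x ^ 5 - y ^ 5) = 0 := by linear_combination hx.2 - hy.2
    rcases mul_eq_zero.mp h1 with h | h
    · exfalso
      have := hx.2
      rw [h] at this
      apply hD
      simpa using this
    · have h2 : x ^ 5 = y ^ 5 := by linarith
      exact (Odd.strictMono_pow (by decide : Odd 5)).injective h2
  set f : ℤ → Finset (ℤ × ℤ) := fun x => (B.filter fun t => (D + a0 * x ^ 5) + (a1 * x ^ 4) * t +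
    (a2 * x ^ 3) * t ^ 2 + (a3 * x ^ 2) * t ^ 3 + (a4 * x) * t ^ 4 + a5 * t ^ 5 = 0).image
      (fun t => (x, t)) with hf
  have hsub : ((B ×ˢ B).filter fun t => D + a0 * t.1 ^ 5 + a1 * t.1 ^ 4 * t.2 + a2 * t.1 ^ 3 * t.2 ^ 2 +
      a3 * t.1 ^ 2 * t.2 ^ 3 + a4 * t.1 * t.2 ^ 4 + a5 * t.2 ^ 5 = 0) ⊆
      ((B \ W).biUnion f) ∪ (W.biUnion f) := by
    intro t ht
    rw [mem_filter, mem_product] at ht
    obtain ⟨⟨t1, t2⟩, t3⟩ := ht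
    have hmem : t ∈ f t.1 := by
      simp only [hf]
      rw [mem_image]
      exact ⟨t.2, mem_filter.mpr ⟨t2, by linear_combination t3⟩, rfl⟩
    rw [mem_union, mem_biUnion, mem_biUnion]
    by_cases hw : t.1 ∈ W
    · right; exact ⟨t.1, hw, hmem⟩
    · left; exact ⟨t.1, mem_sdiff.mpr ⟨t1, hw⟩, hmem⟩
  have h1 : ((B \ W).biUnion f).card ≤ (B \ W).card * 5 := by
    apply card_biUnion_le_card_mul
    intro x hx
    rw [mem_sdiff] at hx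
    have hne : D + a0 * x ^ 5 ≠ 0 := by
      intro h
      exact hx.2 (mem_filter.mpr ⟨hx.1, h⟩)
    exact card_image_le.trans (root_count _ _ _ _ _ _ hne B)
  have h2 : (W.biUnion f).card ≤ W.card * B.card := by
    apply card_biUnion_le_card_mul
    intro x hx
    exact card_image_le.trans (card_filter_le _ _)
  have h3 : (B \ W).card ≤ B.card := card_le_card sdiff_subset
  calc _ ≤ (((B \ W).biUnion f) ∪ (W.biUnion f)).card := card_le_card hsub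
    _ ≤ ((B \ W).biUnion f).card + (W.biUnion f).card := card_union_le _ _
    _ ≤ (B \ W).card * 5 + W.card * B.card := by omega
    _ ≤ B.card * 5 + 1 * B.card := by gcongr
    _ = 6 * B.card := by ring

/-- the bad second rows with given vectors lie on a curve -/
theorem bad_curve (R : Fin 4 → Fin 4 → ℤ) : ∃ a0 a1 a2 a3 a4 a5 : ℤ, ∀ (q q' : ℤ) (φ : Fin 4 → ℤ),
    (∀ i, 12 * (R i 0 * φ 0 + R i 1 * φ 1 + R i 2 * φ 2 + R i 3 * φ 3) +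
      Hs (R i 0) (R i 1) (R i 2) (R i 3) q q' = 0) →
    q ^ 3 * φ 0 + 3 * q ^ 2 * q' * φ 1 + 3 * q * q' ^ 2 * φ 2 + q' ^ 3 * φ 3 = 1 →
    12 * D4 (R 0) (R 1) (R 2) (R 3) + a0 * q ^ 5 + a1 * q ^ 4 * q' + a2 * q ^ 3 * q' ^ 2 +
      a3 * q ^ 2 * q' ^ 3 + a4 * q * q' ^ 4 + a5 * q' ^ 5 = 0 := by
  set e : Fin 4 → Fin 4 → ℤ := fun i k => if k = i then 1 else 0 with he
  set f0 : Fin 4 → ℤ := fun i => D4 (e i) (R 1) (R 2) (R 3) with hf0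
  set f1 : Fin 4 → ℤ := fun i => D4 (R 0) (e i) (R 2) (R 3) with hf1
  set f2 : Fin 4 → ℤ := fun i => D4 (R 0) (R 1) (e i) (R 3) with hf2
  set f3 : Fin 4 → ℤ := fun i => D4 (R 0) (R 1) (R 2) (e i) with hf3
  set h0 : Fin 4 → ℤ := fun i => R i 2 ^ 2 - 3 * R i 1 * R i 3 with hh0
  set h1 : Fin 4 → ℤ := fun i => 9 * R i 0 * R i 3 - R i 1 * R i 2 with hh1
  set h2 : Fin 4 → ℤ := fun i => R i 1 ^ 2 - 3 * R i 0 * R i 2 with hh2
  refine ⟨f0 0 * h0 0 + f1 0 * h0 1 + f2 0 * h0 2 + f3 0 * h0 3,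
    (f0 0 * h1 0 + f1 0 * h1 1 + f2 0 * h1 2 + f3 0 * h1 3) +
      3 * (f0 1 * h0 0 + f1 1 * h0 1 + f2 1 * h0 2 + f3 1 * h0 3),
    (f0 0 * h2 0 + f1 0 * h2 1 + f2 0 * h2 2 + f3 0 * h2 3) +
      3 * (f0 1 * h1 0 + f1 1 * h1 1 + f2 1 * h1 2 + f3 1 * h1 3) +
      3 * (f0 2 * h0 0 + f1 2 * h0 1 + f2 2 * h0 2 + f3 2 * h0 3),
    3 * (f0 1 * h2 0 + f1 1 * h2 1 + f2 1 * h2 2 + f3 1 * h2 3) +
      3 * (f0 2 * h1 0 + f1 2 * h1 1 + f2 2 * h1 2 + f3 2 * h1 3) +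
      (f0 3 * h0 0 + f1 3 * h0 1 + f2 3 * h0 2 + f3 3 * h0 3),
    3 * (f0 2 * h2 0 + f1 2 * h2 1 + f2 2 * h2 2 + f3 2 * h2 3) +
      (f0 3 * h1 0 + f1 3 * h1 1 + f2 3 * h1 2 + f3 3 * h1 3),
    (f0 3 * h2 0 + f1 3 * h2 1 + f2 3 * h2 2 + f3 3 * h2 3), ?_⟩
  intro q q' φ hφ hw
  have cramer : D4 (R 0) (R 1) (R 2) (R 3) *
      (q ^ 3 * φ 0 + 3 * q ^ 2 * q' * φ 1 + 3 * q * q' ^ 2 * φ 2 + q' ^ 3 * φ 3) =
      (q ^ 3 * f0 0 + 3 * q ^ 2 * q' * f0 1 + 3 * q * q' ^ 2 * f0 2 + q' ^ 3 * f0 3) *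
        (R 0 0 * φ 0 + R 0 1 * φ 1 + R 0 2 * φ 2 + R 0 3 * φ 3) +
      (q ^ 3 * f1 0 + 3 * q ^ 2 * q' * f1 1 + 3 * q * q' ^ 2 * f1 2 + q' ^ 3 * f1 3) *
        (R 1 0 * φ 0 + R 1 1 * φ 1 + R 1 2 * φ 2 + R 1 3 * φ 3) +
      (q ^ 3 * f2 0 + 3 * q ^ 2 * q' * f2 1 + 3 * q * q' ^ 2 * f2 2 + q' ^ 3 * f2 3) *
        (R 2 0 * φ 0 + R 2 1 * φ 1 + R 2 2 * φ 2 + R 2 3 * φ 3) +
      (q ^ 3 * f3 0 + 3 * q ^ 2 * q' * f3 1 + 3 * q * q' ^ 2 * f3 2 + q' ^ 3 * f3 3) *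
        (R 3 0 * φ 0 + R 3 1 * φ 1 + R 3 2 * φ 2 + R 3 3 * φ 3) := by
    simp only [hf0, hf1, hf2, hf3, D4, he]
    simp
    ring
  rw [hw] at cramer
  have k0 := hφ 0
  have k1 := hφ 1
  have k2 := hφ 2
  have k3 := hφ 3
  simp only [Hs] at k0 k1 k2 k3
  simp only [hh0, hh1, hh2]
  linear_combination 12 * cramer +
    (q ^ 3 * f0 0 + 3 * q ^ 2 * q' * f0 1 + 3 * q * q' ^ 2 * f0 2 + q' ^ 3 * f0 3) * k0 +
    (q ^ 3 * f1 0 + 3 * q ^ 2 * q' * f1 1 + 3 * q * q' ^ 2 * f1 2 + q' ^ 3 * f1 3) * k1 +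
    (q ^ 3 * f2 0 + 3 * q ^ 2 * q' * f2 1 + 3 * q * q' ^ 2 * f2 2 + q' ^ 3 * f2 3) * k2 +
    (q ^ 3 * f3 0 + 3 * q ^ 2 * q' * f3 1 + 3 * q * q' ^ 2 * f3 2 + q' ^ 3 * f3 3) * k3

theorem bad_count (b : ℝ) (hb : 0 ≤ b) (B : Finset ℤ) (Z : Finset (ℤ × ℤ)) (hZ : Z ⊆ B ×ˢ B)
    (hbad : ∀ t ∈ Z, Bad b t.1 t.2) : (Z.card : ℝ) ≤ (2 * b + 1) ^ 16 * (6 * B.card) := by
  classical
  choose a0 a1 a2 a3 a4 a5 ha using bad_curve
  set I := Icc (-⌊b⌋) ⌊b⌋ with hI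
  set RR : Finset (Fin 4 → Fin 4 → ℤ) := (Fintype.piFinset fun _ : Fin 4 =>
    Fintype.piFinset fun _ : Fin 4 => I) with hRR
  set G : (Fin 4 → Fin 4 → ℤ) → Finset (ℤ × ℤ) := fun R => (B ×ˢ B).filter fun t =>
    12 * D4 (R 0) (R 1) (R 2) (R 3) + a0 R * t.1 ^ 5 + a1 R * t.1 ^ 4 * t.2 +
      a2 R * t.1 ^ 3 * t.2 ^ 2 + a3 R * t.1 ^ 2 * t.2 ^ 3 + a4 R * t.1 * t.2 ^ 4 + a5 R * t.2 ^ 5 = 0
    with hG
  have hsub : Z ⊆ (RR.filter fun R => D4 (R 0) (R 1) (R 2) (R 3) ≠ 0).biUnion G := by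
    intro t ht
    obtain ⟨R, φ, h1, h2, h3, h4⟩ := hbad t ht
    rw [mem_biUnion]
    refine ⟨R, mem_filter.mpr ⟨?_, h2⟩, ?_⟩
    · rw [hRR, Fintype.mem_piFinset]
      intro i
      rw [Fintype.mem_piFinset]
      intro k
      exact mem_box (h1 i k)
    · simp only [hG]
      exact mem_filter.mpr ⟨hZ ht, ha R t.1 t.2 φ h3 h4⟩
  have hcard : Z.card ≤ (RR.filter fun R => D4 (R 0) (R 1) (R 2) (R 3) ≠ 0).card * (6 * B.card) := by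
    refine (card_le_card hsub).trans ?_
    apply card_biUnion_le_card_mul
    intro R hR
    have hD : 12 * D4 (R 0) (R 1) (R 2) (R 3) ≠ 0 := by
      have := (mem_filter.mp hR).2
      exact mul_ne_zero (by norm_num) this
    exact curve_count _ _ _ _ _ _ _ hD B
  have hRc : RR.card = I.card ^ 16 := by
    rw [hRR, Fintype.card_piFinset_const, Fintype.card_piFinset_const]
    rw [← pow_mul]
  have hIc : (I.card : ℝ) ≤ 2 * b + 1 := card_box b hb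
  calc (Z.card : ℝ) ≤ (((RR.filter fun R => D4 (R 0) (R 1) (R 2) (R 3) ≠ 0).card * (6 * B.card) : ℕ) : ℝ) := by
        exact_mod_cast hcard
    _ ≤ ((RR.card * (6 * B.card) : ℕ) : ℝ) := by
        have := card_filter_le RR (fun R => D4 (R 0) (R 1) (R 2) (R 3) ≠ 0)
        exact_mod_cast Nat.mul_le_mul_right _ this
    _ = (I.card : ℝ) ^ 16 * (6 * B.card) := by rw [hRc]; push_cast; ring
    _ ≤ (2 * b + 1) ^ 16 * (6 * B.card) := by gcongr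

end Pool.Agent.Helper6.HC
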