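import Pool.Agent.Helper6.HC.Forms

set_option autoImplicit false

namespace Pool.Agent.Helper6.HC

/-- the region -/
structure Reg (H Q : ℝ) (x y : ℤ) : Prop where
  s1 : H * Q ^ 2 ≤ √(x : ℝ)
  s2 : √(x : ℝ) ≤ 2 * H * Q ^ 2
  y0 : 0 < y
  ne : x ^ 3 ≠ y ^ 2
  k : |(x : ℝ) ^ 3 - (y : ℝ) ^ 2| ≤ H ^ 3

/-- parameters -/
structure Par (C H Q : ℝ) : Prop where
  hC : 1 ≤ C
  hH : 1 ≤ H
  hHQ : H ≤ C * Q
  hQ2 : 2 ≤ Q
  hQ : 4 * C < Q ^ 3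

theorem G0_pol (s k p q : ℝ) : G0 (s ^ 2) (s ^ 3 + k) p q =
    pol s k (p - q * s) q (p - q * s) q (p - q * s) q (p - q * s) q := by
  unfold G0 pol; ring

theorem G1_pol (s k p q p' q' : ℝ) : G1 (s ^ 2) (s ^ 3 + k) p q p' q' =
    pol s k (p - q * s) q (p - q * s) q (p - q * s) q (p' - q' * s) q' := by
  unfold G1 pol; ring

theorem G2_pol (s k p q p' q' : ℝ) : G2 (s ^ 2) (s ^ 3 + k) p q p' q' =
    pol s k (p - q * s) q (p - q * s) q (p' - q' * s) q' (p' - q' * s) q' := by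
  unfold G2 pol; ring

theorem G0_cast (x y p q : ℤ) : ((G0 x y p q : ℤ) : ℝ) = G0 (x : ℝ) y p q := by
  simp [G0]

theorem G1_cast (x y p q p' q' : ℤ) : ((G1 x y p q p' q' : ℤ) : ℝ) = G1 (x : ℝ) y p q p' q' := by
  simp [G1]

theorem G2_cast (x y p q p' q' : ℤ) : ((G2 x y p q p' q' : ℤ) : ℝ) = G2 (x : ℝ) y p q p' q' := by
  simp [G2]

section
variable {C H Q : ℝ} {x y : ℤ}

theorem Reg.spos (hp : Par C H Q) (hr : Reg H Q x y) : 0 < √(x : ℝ) := by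
  have := hr.s1
  have := hp.hH
  have := hp.hQ2
  have : 0 < H * Q ^ 2 := by positivity
  linarith

theorem Reg.xpos (hp : Par C H Q) (hr : Reg H Q x y) : (0 : ℝ) < x := by
  have := hr.spos hp
  exact Real.sqrt_pos.mp this

theorem Reg.ssq (hp : Par C H Q) (hr : Reg H Q x y) : √(x : ℝ) ^ 2 = x :=
  Real.sq_sqrt (hr.xpos hp).le

theorem Reg.kap (hp : Par C H Q) (hr : Reg H Q x y) :
    |(y : ℝ) - √(x : ℝ) ^ 3| ≤ 1 / Q ^ 6 := by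
  have hs := hr.spos hp
  have hss := hr.ssq hp
  set s := √(x : ℝ) with hsdef
  have hH := hp.hH
  have hQ := hp.hQ2
  have hy : (0 : ℝ) < y := by exact_mod_cast hr.y0
  have h1 : |(y : ℝ) - s ^ 3| * (y + s ^ 3) ≤ H ^ 3 := by
    have : (x : ℝ) ^ 3 - (y : ℝ) ^ 2 = -(((y : ℝ) - s ^ 3) * (y + s ^ 3)) := by
      rw [← hss]; ring
    have h := hr.k
    rw [this, abs_neg, abs_mul, abs_of_pos (by positivity : (0:ℝ) < y + s ^ 3)] at h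
    exact h
  have h2 : (H * Q ^ 2) ^ 3 ≤ s ^ 3 := by
    have := hr.s1
    gcongr
  have h3 : |(y : ℝ) - s ^ 3| * (H * Q ^ 2) ^ 3 ≤ H ^ 3 := by
    refine le_trans ?_ h1
    gcongr
    linarith
  rw [le_div_iff₀ (by positivity)]
  have h4 : |(y : ℝ) - s ^ 3| * Q ^ 6 * H ^ 3 ≤ 1 * H ^ 3 := by
    calc |(y : ℝ) - s ^ 3| * Q ^ 6 * H ^ 3 = |(y : ℝ) - s ^ 3| * (H * Q ^ 2) ^ 3 := by ring
      _ ≤ H ^ 3 := h3
      _ = 1 * H ^ 3 := by ring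
  exact le_of_mul_le_mul_right h4 (by positivity)

variable {l : ℝ} {p q p' q' : ℤ}

theorem Red.b1 (hd : Red (√(x : ℝ)) Q l p q p' q') (hl : 0 < l) (hQ : 2 ≤ Q) :
    |(p : ℝ) - q * √(x : ℝ)| ≤ (1 / l) / Q := by
  refine hd.h1.trans (le_of_eq ?_)
  have : Q ≠ 0 := by positivity
  field_simp

theorem Red.c1 (hd : Red (√(x : ℝ)) Q l p q p' q') : |(q : ℝ)| ≤ (1 / l) * Q := by
  refine hd.h2.trans (le_of_eq ?_)
  ring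

theorem Red.b2 (hd : Red (√(x : ℝ)) Q l p q p' q') :
    |(p' : ℝ) - q' * √(x : ℝ)| ≤ (2 * l) / Q := hd.h3

theorem Red.c2 (hd : Red (√(x : ℝ)) Q l p q p' q') : |(q' : ℝ)| ≤ (2 * l) * Q := hd.h4

theorem bound_aux (hp : Par C H Q) (hr : Reg H Q x y) (a1 a2 a3 a4 : ℝ) (u1 R1 u2 R2 u3 R3 u4 R4 : ℝ)
    (b1 : |u1| ≤ a1 / Q) (c1 : |R1| ≤ a1 * Q) (b2 : |u2| ≤ a2 / Q) (c2 : |R2| ≤ a2 * Q)
    (b3 : |u3| ≤ a3 / Q) (c3 : |R3| ≤ a3 * Q) (b4 : |u4| ≤ a4 / Q) (c4 : |R4| ≤ a4 * Q) :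
    |pol (√(x:ℝ)) (y - √(x:ℝ) ^ 3) u1 R1 u2 R2 u3 R3 u4 R4| ≤ 33 * H * (a1 * a2 * a3 * a4) :=
  pol_bound H Q _ _ u1 R1 u2 R2 u3 R3 u4 R4 a1 a2 a3 a4 hp.hH (by linarith [hp.hQ2]) (hr.spos hp)
    hr.s2 (hr.kap hp) b1 c1 b2 c2 b3 c3 b4 c4

theorem xy_eq (hp : Par C H Q) (hr : Reg H Q x y) :
    (x : ℝ) = √(x:ℝ) ^ 2 ∧ (y : ℝ) = √(x:ℝ) ^ 3 + (y - √(x:ℝ) ^ 3) :=
  ⟨(hr.ssq hp).symm, by ring⟩

theorem G0_bound (hp : Par C H Q) (hr : Reg H Q x y) (hl : 0 < l)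
    (hd : Red (√(x : ℝ)) Q l p q p' q') : |((G0 x y p q : ℤ) : ℝ)| ≤ 33 * H / l ^ 4 := by
  rw [G0_cast, (xy_eq hp hr).2]
  have e : G0 (x : ℝ) (√(x:ℝ) ^ 3 + (y - √(x:ℝ) ^ 3)) (p : ℝ) q =
    G0 (√(x:ℝ) ^ 2) (√(x:ℝ) ^ 3 + (y - √(x:ℝ) ^ 3)) (p : ℝ) q := by rw [← (xy_eq hp hr).1]
  rw [e, G0_pol]
  have B1 := hd.b1 hl hp.hQ2
  have D1 := hd.c1
  refine (bound_aux hp hr _ _ _ _ _ _ _ _ _ _ _ _ B1 D1 B1 D1 B1 D1 B1 D1).trans (le_of_eq ?_)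
  field_simp

theorem G1_bound (hp : Par C H Q) (hr : Reg H Q x y) (hl : 0 < l)
    (hd : Red (√(x : ℝ)) Q l p q p' q') :
    |((G1 x y p q p' q' : ℤ) : ℝ)| ≤ 66 * H / l ^ 2 := by
  rw [G1_cast, (xy_eq hp hr).2]
  have e : G1 (x : ℝ) (√(x:ℝ) ^ 3 + (y - √(x:ℝ) ^ 3)) (p : ℝ) q p' q' =
    G1 (√(x:ℝ) ^ 2) (√(x:ℝ) ^ 3 + (y - √(x:ℝ) ^ 3)) (p : ℝ) q p' q' := by
      rw [← (xy_eq hp hr).1]
  rw [e, G1_pol]
  have B1 := hd.b1 hl hp.hQ2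
  have D1 := hd.c1
  have B2 := hd.b2
  have D2 := hd.c2
  refine (bound_aux hp hr _ _ _ _ _ _ _ _ _ _ _ _ B1 D1 B1 D1 B1 D1 B2 D2).trans (le_of_eq ?_)
  field_simp; ring

theorem G2_bound (hp : Par C H Q) (hr : Reg H Q x y) (hl : 0 < l)
    (hd : Red (√(x : ℝ)) Q l p q p' q') :
    |((G2 x y p q p' q' : ℤ) : ℝ)| ≤ 132 * H := by
  rw [G2_cast, (xy_eq hp hr).2]
  have e : G2 (x : ℝ) (√(x:ℝ) ^ 3 + (y - √(x:ℝ) ^ 3)) (p : ℝ) q p' q' =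
    G2 (√(x:ℝ) ^ 2) (√(x:ℝ) ^ 3 + (y - √(x:ℝ) ^ 3)) (p : ℝ) q p' q' := by
      rw [← (xy_eq hp hr).1]
  rw [e, G2_pol]
  have B1 := hd.b1 hl hp.hQ2
  have D1 := hd.c1
  have B2 := hd.b2
  have D2 := hd.c2
  refine (bound_aux hp hr _ _ _ _ _ _ _ _ _ _ _ _ B1 D1 B1 D1 B2 D2 B2 D2).trans (le_of_eq ?_)
  field_simp; ring

theorem G3_bound (hp : Par C H Q) (hr : Reg H Q x y) (hl : 0 < l)
    (hd : Red (√(x : ℝ)) Q l p q p' q') :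
    |((G1 x y p' q' p q : ℤ) : ℝ)| ≤ 264 * H * l ^ 2 := by
  rw [G1_cast, (xy_eq hp hr).2]
  have e : G1 (x : ℝ) (√(x:ℝ) ^ 3 + (y - √(x:ℝ) ^ 3)) (p' : ℝ) q' p q =
    G1 (√(x:ℝ) ^ 2) (√(x:ℝ) ^ 3 + (y - √(x:ℝ) ^ 3)) (p' : ℝ) q' p q := by
      rw [← (xy_eq hp hr).1]
  rw [e, G1_pol]
  have B1 := hd.b1 hl hp.hQ2
  have D1 := hd.c1
  have B2 := hd.b2
  have D2 := hd.c2
  refine (bound_aux hp hr _ _ _ _ _ _ _ _ _ _ _ _ B2 D2 B2 D2 B2 D2 B1 D1).trans (le_of_eq ?_)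
  field_simp; ring

theorem G4_bound (hp : Par C H Q) (hr : Reg H Q x y)
    (hd : Red (√(x : ℝ)) Q l p q p' q') :
    |((G0 x y p' q' : ℤ) : ℝ)| ≤ 528 * H * l ^ 4 := by
  rw [G0_cast, (xy_eq hp hr).2]
  have e : G0 (x : ℝ) (√(x:ℝ) ^ 3 + (y - √(x:ℝ) ^ 3)) (p' : ℝ) q' =
    G0 (√(x:ℝ) ^ 2) (√(x:ℝ) ^ 3 + (y - √(x:ℝ) ^ 3)) (p' : ℝ) q' := by rw [← (xy_eq hp hr).1]
  rw [e, G0_pol]
  have B2 := hd.b2
  have D2 := hd.c2
  refine (bound_aux hp hr _ _ _ _ _ _ _ _ _ _ _ _ B2 D2 B2 D2 B2 D2 B2 D2).trans (le_of_eq ?_)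
  ring

theorem inv_l {l : ℝ} (hl : 0 < l) (hl2 : 1 / 2 ≤ l ^ 2) : 1 / l ≤ 3 / 2 := by
  rw [div_le_iff₀ hl]
  nlinarith

theorem q_ne (hp : Par C H Q) (hl : 0 < l) (hl2 : 1 / 2 ≤ l ^ 2)
    (hd : Red (√(x : ℝ)) Q l p q p' q') : q ≠ 0 := by
  intro h
  have h1 := hd.h1
  have hdet := hd.det
  rw [h] at h1 hdet
  simp only [Int.cast_zero, zero_mul, sub_zero, mul_zero] at h1 hdet
  have h2 : 1 / (l * Q) < 1 := by
    rw [div_lt_one (by have := hp.hQ2; positivity)]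
    have := hp.hQ2
    nlinarith
  have h3 : |(p : ℝ)| < 1 := lt_of_le_of_lt h1 h2
  have h4 : |p| < 1 := by exact_mod_cast h3
  have h5 : p = 0 := Int.abs_lt_one_iff.mp h4
  rw [h5] at hdet
  simp at hdet

theorem f_ne (hp : Par C H Q) (hr : Reg H Q x y) (hl : 0 < l) (hl2 : 1 / 2 ≤ l ^ 2) (hq0 : 0 ≤ q)
    (hd : Red (√(x : ℝ)) Q l p q p' q') : p ^ 3 - 3 * x * p * q ^ 2 + 2 * y * q ^ 3 ≠ 0 := by
  intro hf
  have hqne := q_ne hp hl hl2 hd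
  have hcop : IsCoprime p q := ⟨q', -p', by linear_combination hd.det⟩
  have hq1 : q = 1 := by
    have : q ∣ p ^ 3 := ⟨3 * x * p * q - 2 * y * q ^ 2, by linear_combination hf⟩
    have h1 : q ∣ 1 := (hcop.symm.pow_right (n := 3)).dvd_of_dvd_mul_left (by simpa using this)
    have := Int.le_of_dvd one_pos h1
    omega
  subst hq1
  have h4k : 4 * (x ^ 3 - y ^ 2) = (x - p ^ 2) ^ 2 * (4 * x - p ^ 2) := by
    linear_combination (-2 * y + p ^ 3 - 3 * x * p) * hf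
  have hne : x - p ^ 2 ≠ 0 := by
    intro h0
    rw [h0] at h4k
    have := hr.ne
    apply this
    have : 4 * (x ^ 3 - y ^ 2) = 0 := by rw [h4k]; ring
    omega
  have h1 : (1 : ℝ) ≤ ((x : ℝ) - p ^ 2) ^ 2 := by
    have : (1 : ℤ) ≤ (x - p ^ 2) ^ 2 := by
      have : 0 < (x - p ^ 2) ^ 2 := by positivity
      omega
    exact_mod_cast this
  have h4kR : 4 * ((x : ℝ) ^ 3 - y ^ 2) = (x - p ^ 2) ^ 2 * (4 * x - p ^ 2) := by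
    exact_mod_cast h4k
  have hs := hr.spos hp
  have hss := hr.ssq hp
  have hu := hd.h1
  have hs1 := hr.s1
  have hH := hp.hH
  have hQ2 := hp.hQ2
  set s := √(x : ℝ) with hsdef
  have hs4 : 4 ≤ s := by nlinarith
  have h1Q : 1 / (l * Q) ≤ 3 / 4 := by
    have h := inv_l hl hl2
    have : 1 / (l * Q) = 1 / l / Q := by
      have : Q ≠ 0 := by positivity
      field_simp
    rw [this, div_le_iff₀ (by positivity)]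
    linarith
  push_cast at hu
  have hu2 := abs_le.mp (hu.trans h1Q)
  have hp0 : 0 ≤ (p : ℝ) := by linarith [hu2.1]
  have hple : (p : ℝ) ≤ 5 / 4 * s := by linarith [hu2.2]
  have hp2 : (p : ℝ) ^ 2 ≤ 25 / 16 * s ^ 2 := by nlinarith
  have h5 : s ^ 2 ≤ 4 * x - (p : ℝ) ^ 2 := by rw [← hss]; nlinarith
  have h6 : s ^ 2 ≤ 4 * H ^ 3 := by
    have h7 : (4 * ((x : ℝ) ^ 3 - y ^ 2)) ≤ 4 * H ^ 3 := by
      have := le_abs_self ((x : ℝ) ^ 3 - y ^ 2)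
      linarith [hr.k]
    rw [h4kR] at h7
    have h8 : 0 ≤ s ^ 2 := by positivity
    nlinarith
  have h9 : (H * Q ^ 2) ^ 2 ≤ s ^ 2 := by gcongr
  have h10 : H ^ 2 * (Q ^ 4) ≤ H ^ 2 * (4 * H) := by nlinarith
  have h11 : Q ^ 4 ≤ 4 * H := le_of_mul_le_mul_left h10 (by positivity)
  have h12 : Q ^ 4 ≤ 4 * (C * Q) := by linarith [hp.hHQ]
  have h13 : Q ^ 3 ≤ 4 * C := by
    have : Q * Q ^ 3 ≤ Q * (4 * C) := by nlinarith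
    exact le_of_mul_le_mul_left this (by positivity)
  linarith [hp.hQ]

/-- the two last coordinates cannot both be small -/
theorem max_cond (hp : Par C H Q) (hl : 0 < l)
    (hd : Red (√(x : ℝ)) Q l p q p' q') (hq : 0 < q) :
    1 ≤ |(q' : ℝ) / (l * Q)| + 2 * (q * l / Q) := by
  have hQ : 0 < Q := by linarith [hp.hQ2]
  have hdet : (p : ℝ) * q' - p' * q = 1 := by exact_mod_cast hd.det
  set s := √(x : ℝ) with hs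
  have h1 : (1 : ℝ) = q' * (p - q * s) - q * (p' - q' * s) := by linear_combination -hdet
  have h2 : |(q' : ℝ) * (p - q * s)| ≤ |(q' : ℝ) / (l * Q)| := by
    rw [abs_mul, abs_div, abs_of_pos (by positivity : (0:ℝ) < l * Q), div_eq_mul_one_div]
    have := hd.h1
    gcongr
  have h3 : |(q : ℝ) * (p' - q' * s)| ≤ 2 * (q * l / Q) := by
    have hq' : (0 : ℝ) < q := by exact_mod_cast hq
    rw [abs_mul, abs_of_pos hq']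
    have := hd.h3
    calc (q : ℝ) * |p' - q' * s| ≤ q * (2 * l / Q) := by gcongr
      _ = 2 * (q * l / Q) := by ring
  calc (1 : ℝ) = |(1 : ℝ)| := (abs_one).symm
    _ = |q' * (p - q * s) - q * (p' - q' * s)| := by rw [← h1]
    _ ≤ |(q' : ℝ) * (p - q * s)| + |(q : ℝ) * (p' - q' * s)| := abs_sub _ _
    _ ≤ _ := by linarith

end

end Pool.Agent.Helper6.HC
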