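import Pool.Agent.Helper6.HC.PairL

set_option autoImplicit false

open Finset

namespace Pool.Agent.Helper6.HC

/-- a choice of reduced bases -/
structure Sys (Q : ℝ) where
  p : ℤ → ℤ
  q : ℤ → ℤ
  p' : ℤ → ℤ
  q' : ℤ → ℤ
  j : ℤ → ℕ
  q0 : ∀ x, 0 ≤ q x
  red : ∀ x : ℤ, Red (√(x : ℝ)) Q (lam (j x)) (p x) (q x) (p' x) (q' x)

theorem exists_sys (Q : ℝ) (hQ : 0 < Q) : Nonempty (Sys Q) := by
  have := fun x : ℤ => reduce2 (√(x : ℝ)) Q hQ
  choose p q p' q' j h1 h2 using this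
  exact ⟨⟨p, q, p', q', j, h1, h2⟩⟩

variable {C H Q : ℝ}

theorem Sys.qpos (hp : Par C H Q) (T : Sys Q) (x : ℤ) : 0 < T.q x := by
  have h1 := T.q0 x
  have h2 := q_ne (C := C) (H := H) hp (lam_pos (T.j x)) (lam_sq_ge (T.j x)) (T.red x)
  omega

theorem card_box (A : ℝ) (hA : 0 ≤ A) : ((Icc (-⌊A⌋) ⌊A⌋).card : ℝ) ≤ 2 * A + 1 := by
  rw [Int.card_Icc]
  have h1 : (0 : ℤ) ≤ ⌊A⌋ := Int.floor_nonneg.mpr hA
  have h2 : ((⌊A⌋ + 1 - -⌊A⌋).toNat : ℝ) = ((⌊A⌋ + 1 - -⌊A⌋ : ℤ) : ℝ) := by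
    have : ((⌊A⌋ + 1 - -⌊A⌋).toNat : ℤ) = ⌊A⌋ + 1 - -⌊A⌋ := Int.toNat_of_nonneg (by omega)
    exact_mod_cast this
  rw [h2]
  push_cast
  have := Int.floor_le A
  linarith

theorem card_box0 (A : ℝ) (hA : 0 ≤ A) : (((Icc (-⌊A⌋) ⌊A⌋).erase 0).card : ℝ) ≤ 2 * A := by
  have h1 : (0 : ℤ) ≤ ⌊A⌋ := Int.floor_nonneg.mpr hA
  have h0 : (0 : ℤ) ∈ Icc (-⌊A⌋) ⌊A⌋ := by
    rw [mem_Icc]; omega
  have h := card_erase_add_one h0
  have h2 := card_box A hA
  have h3 : (((Icc (-⌊A⌋) ⌊A⌋).erase 0).card : ℝ) + 1 = ((Icc (-⌊A⌋) ⌊A⌋).card : ℝ) := by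
    exact_mod_cast h
  linarith

theorem mem_box {A : ℝ} {n : ℤ} (h : |(n : ℝ)| ≤ A) : n ∈ Icc (-⌊A⌋) ⌊A⌋ := by
  have := abs_le.mp h
  rw [mem_Icc]
  constructor
  · have : -n ≤ ⌊A⌋ := Int.le_floor.mpr (by push_cast; linarith)
    linarith
  · exact Int.le_floor.mpr this.2

theorem mem_box0 {A : ℝ} {n : ℤ} (h : |(n : ℝ)| ≤ A) (h0 : n ≠ 0) :
    n ∈ (Icc (-⌊A⌋) ⌊A⌋).erase 0 := mem_erase.mpr ⟨h0, mem_box h⟩

theorem case0 (hp : Par C H Q) (T : Sys Q) (D : ℕ)
    (hD : ∀ n : ℕ, 1 ≤ n → (n : ℝ) ≤ 792 * (H * Q) ^ 4 → n.divisors.card ≤ D)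
    (S : Finset (ℤ × ℤ)) (hS : ∀ e ∈ S, Reg H Q e.1 e.2)
    (hz : ∀ e ∈ S, G0 e.1 e.2 (T.p e.1) (T.q e.1) = 0) :
    (S.card : ℝ) ≤ 16 * (H * Q) * D := by
  classical
  have hH := hp.hH
  have hQ2 := hp.hQ2
  have hZ : 2 ≤ H * Q := by nlinarith
  -- facts
  have fact : ∀ e ∈ S, T.q e.1 = 1 ∧ 0 < T.p e.1 ∧
      (T.p e.1) ^ 2 - e.1 ≠ 0 ∧ |(((T.p e.1) ^ 2 - e.1 : ℤ) : ℝ)| ≤ 8 * (H * Q) ∧
      4 * T.p e.1 * (T.p e.1 ^ 3 - 3 * e.1 * T.p e.1 + 2 * e.2) =
        3 * ((T.p e.1) ^ 2 - e.1) ^ 2 := by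
    intro e he
    have hr := hS e he
    have h0 := hz e he
    have hred := T.red e.1
    have hqp := T.qpos hp e.1
    have hl := lam_pos (T.j e.1)
    have hl2 := lam_sq_ge (T.j e.1)
    have hf := f_ne hp hr hl hl2 (T.q0 e.1) hred
    obtain ⟨x, y⟩ := e
    simp only at hr h0 hred hqp hl hl2 hf ⊢
    generalize T.p x = p at *
    generalize T.q x = q at *
    generalize T.p' x = p' at *
    generalize T.q' x = q' at *
    generalize lam (T.j x) = l at *
    have hcop : IsCoprime p q := ⟨q', -p', by linear_combination hred.det⟩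
    have hq1 : q = 1 := by
      have : q ∣ p ^ 4 := ⟨6 * x * p ^ 2 * q - 8 * y * p * q ^ 2 + 3 * x ^ 2 * q ^ 3, by
        unfold G0 at h0; linear_combination h0⟩
      have h1 : q ∣ 1 := (hcop.symm.pow_right (n := 4)).dvd_of_dvd_mul_left (by simpa using this)
      have := Int.le_of_dvd one_pos h1
      omega
    subst hq1
    have hP := G_P x y p 1
    rw [h0] at hP
    have hs := hr.spos hp
    have hss := hr.ssq hp
    have hu := hred.h1
    have hs1 := hr.s1
    have hs2 := hr.s2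
    set s := √(x : ℝ) with hsdef
    have hs4 : 4 ≤ s := by nlinarith
    have h1Q : 1 / (l * Q) ≤ 3 / 2 / Q := by
      have h := inv_l hl hl2
      have : 1 / (l * Q) = 1 / l / Q := by
        have : Q ≠ 0 := by positivity
        field_simp
      rw [this]
      gcongr
    push_cast at hu
    have hu2 := hu.trans h1Q
    have h34 : 3 / 2 / Q ≤ 3 / 4 := by
      rw [div_le_iff₀ (by positivity)]; linarith
    have hu3 := abs_le.mp (hu2.trans h34)
    have hp0 : (0 : ℝ) < p := by linarith [hu3.1]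
    have hp0' : 0 < p := by exact_mod_cast hp0
    have hE : p ^ 2 - x ≠ 0 := by
      intro hE
      have h1 : 4 * p * (p ^ 3 - 3 * x * p * 1 ^ 2 + 2 * y * 1 ^ 3) = 0 := by
        linear_combination -hP + 3 * (p ^ 2 - x) * hE
      rcases mul_eq_zero.mp h1 with h | h
      · omega
      · exact hf h
    refine ⟨rfl, hp0', hE, ?_, by linear_combination -hP⟩
    push_cast
    have h5 : (p : ℝ) ^ 2 - x = (p - 1 * s) * (p + s) := by rw [← hss]; ring
    have h6 : |(p : ℝ) + s| ≤ 5 * H * Q ^ 2 := by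
      rw [abs_of_pos (by positivity)]
      have : 1 ≤ H * Q ^ 2 := by nlinarith
      linarith [hu3.2]
    rw [h5, abs_mul]
    calc |(p : ℝ) - 1 * s| * |(p : ℝ) + s| ≤ (3 / 2 / Q) * (5 * H * Q ^ 2) := by gcongr
      _ = 15 / 2 * (H * Q) := by field_simp; ring
      _ ≤ 8 * (H * Q) := by nlinarith
  set φ : ℤ × ℤ → ℤ × ℤ := fun e => ((T.p e.1) ^ 2 - e.1, T.p e.1) with hφ
  have hinj : Set.InjOn φ S := by
    intro e he e1 he1 hee
    simp only [hφ, Prod.mk.injEq] at hee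
    obtain ⟨h1, h2⟩ := hee
    obtain ⟨-, hp0, -, -, f1⟩ := fact e he
    obtain ⟨-, -, -, -, f2⟩ := fact e1 he1
    have hx : e.1 = e1.1 := by rw [h2] at h1; linarith
    have hpp : T.p e.1 ≠ 0 := hp0.ne'
    have hy : e.2 = e1.2 := by
      rw [← hx] at f2
      have : 8 * T.p e.1 * (e.2 - e1.2) = 0 := by linear_combination f1 - f2
      rcases mul_eq_zero.mp this with h | h
      · exact absurd h (mul_ne_zero (by norm_num) hpp)
      · omega
    exact Prod.ext hx hy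
  have hsub : S.image φ ⊆ ((Icc (-⌊8 * (H * Q)⌋) ⌊8 * (H * Q)⌋).erase 0).biUnion
      (fun E => ((3 * E ^ 2).natAbs.divisors).image (fun d : ℕ => (E, (d : ℤ)))) := by
    intro t ht
    obtain ⟨e, he, rfl⟩ := mem_image.mp ht
    obtain ⟨f1, f2, f3, f4, f5⟩ := fact e he
    rw [mem_biUnion]
    refine ⟨(T.p e.1) ^ 2 - e.1, mem_box0 f4 f3, ?_⟩
    rw [mem_image]
    refine ⟨(T.p e.1).natAbs, ?_, ?_⟩
    · rw [Nat.mem_divisors]
      constructor
      · apply Int.natAbs_dvd_natAbs.mpr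
        exact ⟨4 * (T.p e.1 ^ 3 - 3 * e.1 * T.p e.1 + 2 * e.2), by linear_combination -f5⟩
      · simpa using f3
    · simp only [hφ, Prod.mk.injEq, true_and]
      exact Int.natAbs_of_nonneg f2.le
  have hcard : S.card ≤ ((Icc (-⌊8 * (H * Q)⌋) ⌊8 * (H * Q)⌋).erase 0).card * D := by
    rw [← card_image_of_injOn hinj]
    refine (card_le_card hsub).trans ?_
    apply card_biUnion_le_card_mul
    intro E hE
    refine card_image_le.trans ?_
    have hE0 := (mem_erase.mp hE).1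
    have hEb := (mem_Icc.mp (mem_erase.mp hE).2)
    apply hD
    · have : 0 < (3 * E ^ 2).natAbs := Int.natAbs_pos.mpr (by positivity)
      omega
    · have h1 : ((3 * E ^ 2).natAbs : ℝ) = 3 * (E : ℝ) ^ 2 := by
        rw [Nat.cast_natAbs, abs_of_nonneg (by positivity)]
        push_cast; ring
      rw [h1]
      have h2 : |(E : ℝ)| ≤ 8 * (H * Q) := by
        have h3 := Int.floor_le (8 * (H * Q))
        rw [abs_le]
        constructor
        · have : (-(⌊8 * (H * Q)⌋ : ℝ)) ≤ E := by exact_mod_cast hEb.1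
          linarith
        · have : (E : ℝ) ≤ ⌊8 * (H * Q)⌋ := by exact_mod_cast hEb.2
          linarith
      have h3 : (E : ℝ) ^ 2 ≤ (8 * (H * Q)) ^ 2 := by
        rw [← sq_abs]
        gcongr
      have h4 : (H * Q) ^ 2 ≤ (H * Q) ^ 4 := pow_le_pow_right₀ (by linarith) (by norm_num)
      nlinarith
  calc (S.card : ℝ) ≤ (((Icc (-⌊8 * (H * Q)⌋) ⌊8 * (H * Q)⌋).erase 0).card : ℝ) * D := by
        exact_mod_cast hcard
    _ ≤ (2 * (8 * (H * Q))) * D := by
        gcongr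
        exact card_box0 _ (by positivity)
    _ = 16 * (H * Q) * D := by ring

theorem case1 (hp : Par C H Q) (T : Sys Q) (D : ℕ)
    (hD : ∀ n : ℕ, 1 ≤ n → (n : ℝ) ≤ 792 * (H * Q) ^ 4 → n.divisors.card ≤ D)
    (S : Finset (ℤ × ℤ)) (hS : ∀ e ∈ S, Reg H Q e.1 e.2)
    (hz : ∀ e ∈ S, G0 e.1 e.2 (T.p e.1) (T.q e.1) * (T.q' e.1) ^ 4 = 1) :
    (S.card : ℝ) ≤ 140450 * C * (H * Q) * D := by
  classical
  have hH := hp.hH
  have hQ2 := hp.hQ2
  have hC := hp.hC
  have hZ : 2 ≤ H * Q := by nlinarith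
  set g1 : ℤ × ℤ → ℤ := fun e => G1 e.1 e.2 (T.p e.1) (T.q e.1) (T.p' e.1) (T.q' e.1) with hg1
  set g2 : ℤ × ℤ → ℤ := fun e => G2 e.1 e.2 (T.p e.1) (T.q e.1) (T.p' e.1) (T.q' e.1) with hg2
  set W : ℤ → ℤ → ℤ := fun a b => if a = 0 then 6 * b else 4 * a with hW
  have fact : ∀ e ∈ S, G0 e.1 e.2 (T.p e.1) (T.q e.1) = 1 ∧ (T.q' e.1 = 1 ∨ T.q' e.1 = -1) ∧
      |((g1 e : ℤ) : ℝ)| ≤ 132 * H ∧ |((g2 e : ℤ) : ℝ)| ≤ 132 * H ∧ W (g1 e) (g2 e) ≠ 0 ∧
      T.q e.1 ∣ W (g1 e) (g2 e) := by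
    intro e he
    have hr := hS e he
    have h0 := hz e he
    have hred := T.red e.1
    have hqp := T.qpos hp e.1
    have hl := lam_pos (T.j e.1)
    have hl2 := lam_sq_ge (T.j e.1)
    have hsq : (T.q' e.1) ^ 4 = 1 := by
      have h1 : (T.q' e.1) ^ 4 ∣ 1 := ⟨_, by linear_combination -h0⟩
      have h2 : 0 ≤ (T.q' e.1) ^ 4 := by positivity
      have h3 := Int.le_of_dvd one_pos h1
      have h4 : (T.q' e.1) ^ 4 ≠ 0 := by
        intro h; rw [h] at h0; simp at h0
      omega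
    have hG0 : G0 e.1 e.2 (T.p e.1) (T.q e.1) = 1 := by rw [hsq] at h0; linarith
    have hq' : T.q' e.1 = 1 ∨ T.q' e.1 = -1 := by
      have h1 : T.q' e.1 ∣ 1 := by
        have : T.q' e.1 ∣ (T.q' e.1) ^ 4 := dvd_pow_self _ (by norm_num)
        rwa [hsq] at this
      exact Int.isUnit_iff.mp (isUnit_of_dvd_one h1)
    have B1 : |((g1 e : ℤ) : ℝ)| ≤ 132 * H := by
      refine (G1_bound hp hr hl hred).trans ?_
      rw [div_le_iff₀ (by positivity)]
      nlinarith
    have B2 : |((g2 e : ℤ) : ℝ)| ≤ 132 * H := G2_bound hp hr hl hred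
    have rel := G_rel e.1 e.2 (T.p e.1) (T.q e.1) (T.p' e.1) (T.q' e.1)
    rw [hred.det, h0] at rel
    have hcop : IsCoprime (T.q e.1) (T.q' e.1) :=
      ⟨-T.p' e.1, T.p e.1, by linear_combination hred.det⟩
    obtain ⟨r1, r2, r3, e1, e2, e3, e4⟩ := divide (T.q e.1) (T.q' e.1) (g1 e) (g2 e)
      (G1 e.1 e.2 (T.p' e.1) (T.q' e.1) (T.p e.1) (T.q e.1)) (G0 e.1 e.2 (T.p' e.1) (T.q' e.1))
      hqp.ne' hcop (by simp only [hg1, hg2]; linear_combination rel)
    refine ⟨hG0, hq', B1, B2, ?_, ?_⟩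
    · simp only [hW]
      split_ifs with h
      · intro h6
        have hg20 : g2 e = 0 := by omega
        have I := G_I e.1 e.2 (T.p e.1) (T.q e.1) (T.p' e.1) (T.q' e.1)
        have J := G_J e.1 e.2 (T.p e.1) (T.q e.1) (T.p' e.1) (T.q' e.1)
        simp only [hg1] at h
        simp only [hg2] at hg20
        rw [h, hg20, hG0] at I J
        have h40 : G0 e.1 e.2 (T.p' e.1) (T.q' e.1) = 0 := by linear_combination I
        have hr3 : r3 = 0 := by
          rw [h40] at e4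
          rcases mul_eq_zero.mp e4.symm with h | h
          · rcases hq' with h' | h' <;> omega
          · exact h
        have hr1 : r1 = 0 := by
          have : T.q e.1 * r1 = 0 := by
            rw [← e1]; simp only [hg1]; rw [h]; ring
          exact (mul_eq_zero.mp this).resolve_left hqp.ne'
        have hr2 : r2 = 0 := by
          have : T.q e.1 * r2 = 0 := by
            rw [hr1] at e2
            simp only [hg2] at e2
            rw [hg20] at e2
            linear_combination -e2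
          exact (mul_eq_zero.mp this).resolve_left hqp.ne'
        have h30 : G1 e.1 e.2 (T.p' e.1) (T.q' e.1) (T.p e.1) (T.q e.1) = 0 := by
          rw [hr3, hr2] at e3
          linarith
        rw [h40, h30, hred.det] at J
        apply hr.ne
        linarith
      · intro h6
        exact h (by omega)
    · simp only [hW]
      split_ifs with h
      · have hr1 : r1 = 0 := by
          have : T.q e.1 * r1 = 0 := by
            rw [← e1, h]; ring
          exact (mul_eq_zero.mp this).resolve_left hqp.ne'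
        exact ⟨r2, by rw [e2, hr1]; ring⟩
      · exact ⟨r1, e1⟩
  set φ : ℤ × ℤ → (ℤ × ℤ × ℤ) × ℤ := fun e => ((T.q' e.1, g1 e, g2 e), T.q e.1) with hφ
  have hinj : Set.InjOn φ S := by
    intro e he e1 he1 hee
    simp only [hφ, Prod.mk.injEq] at hee
    obtain ⟨⟨h1, h2, h3⟩, h4⟩ := hee
    have hr := hS e he
    have hred := T.red e.1
    have hred1 := T.red e1.1
    have hqp := T.qpos hp e.1
    have hf := f_ne hp hr (lam_pos (T.j e.1)) (lam_sq_ge (T.j e.1)) (T.q0 e.1) hred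
    have := recover e.1 e.2 (T.p e.1) (T.q e.1) (T.p' e.1) (T.q' e.1) e1.1 e1.2 (T.p e1.1)
      (T.p' e1.1) hred.det (by rw [h1, h4]; exact hred1.det) hqp.ne' hf
      (by rw [(fact e he).1, h4, (fact e1 he1).1])
      (by simp only [hg1] at h2; rw [h2, ← h4, ← h1]) (by simp only [hg2] at h3; rw [h3, ← h4, ← h1])
    exact Prod.ext this.1 this.2
  set B := Icc (-⌊132 * H⌋) ⌊132 * H⌋ with hB
  have hsub : S.image φ ⊆ ((({1, -1} : Finset ℤ) ×ˢ B ×ˢ B).filter
      (fun t => W t.2.1 t.2.2 ≠ 0)).biUnion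
      (fun t => ((W t.2.1 t.2.2).natAbs.divisors).image (fun d : ℕ => (t, (d : ℤ)))) := by
    intro t ht
    obtain ⟨e, he, rfl⟩ := mem_image.mp ht
    obtain ⟨f1, f2, f3, f4, f5, f6⟩ := fact e he
    rw [mem_biUnion]
    refine ⟨(T.q' e.1, g1 e, g2 e), ?_, ?_⟩
    · rw [mem_filter, mem_product, mem_product]
      refine ⟨⟨?_, mem_box f3, mem_box f4⟩, f5⟩
      rw [mem_insert, mem_singleton]
      exact f2
    · rw [mem_image]
      refine ⟨(T.q e.1).natAbs, ?_, ?_⟩
      · rw [Nat.mem_divisors]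
        exact ⟨Int.natAbs_dvd_natAbs.mpr f6, Int.natAbs_ne_zero.mpr f5⟩
      · simp only [hφ, Prod.mk.injEq, true_and]
        exact Int.natAbs_of_nonneg (T.q0 e.1)
  have hcard : S.card ≤ (({1, -1} : Finset ℤ) ×ˢ B ×ˢ B).card * D := by
    rw [← card_image_of_injOn hinj]
    refine (card_le_card hsub).trans ?_
    refine le_trans (card_biUnion_le_card_mul _ _ D ?_) ?_
    · intro t ht
      rw [mem_filter, mem_product, mem_product] at ht
      obtain ⟨⟨-, t1, t2⟩, t3⟩ := ht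
      refine card_image_le.trans ?_
      apply hD
      · have := Int.natAbs_pos.mpr t3
        omega
      · rw [Nat.cast_natAbs]
        have hb : ∀ n ∈ B, |(n : ℝ)| ≤ 132 * H := by
          intro n hn
          have h3 := Int.floor_le (132 * H)
          have := mem_Icc.mp hn
          rw [abs_le]
          constructor
          · have : (-(⌊132 * H⌋ : ℝ)) ≤ n := by exact_mod_cast this.1
            linarith
          · have : (n : ℝ) ≤ ⌊132 * H⌋ := by exact_mod_cast this.2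
            linarith
        have h1 := hb _ t1
        have h2 := hb _ t2
        have h3 : ((|W t.2.1 t.2.2| : ℤ) : ℝ) ≤ 792 * H := by
          simp only [hW]
          split_ifs with h
          · push_cast
            rw [abs_mul, abs_of_pos (by norm_num : (0:ℝ) < 6)]
            linarith
          · push_cast
            rw [abs_mul, abs_of_pos (by norm_num : (0:ℝ) < 4)]
            linarith
        have h4 : H ≤ (H * Q) ^ 4 := by
          have h5 : H ≤ H * Q := by nlinarith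
          have h6 : H * Q ≤ (H * Q) ^ 4 := by
            calc H * Q = (H * Q) ^ 1 := by ring
              _ ≤ (H * Q) ^ 4 := pow_le_pow_right₀ (by linarith) (by norm_num)
          linarith
        linarith
    · exact Nat.mul_le_mul_right _ (card_filter_le _ _)
  have hcB : (B.card : ℝ) ≤ 265 * H := by
    have := card_box (132 * H) (by positivity)
    linarith
  calc (S.card : ℝ) ≤ ((({1, -1} : Finset ℤ) ×ˢ B ×ˢ B).card : ℝ) * D := by exact_mod_cast hcard
    _ = (2 * (B.card * B.card)) * D := by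
        rw [card_product, card_product]
        have : (({1, -1} : Finset ℤ)).card = 2 := by decide
        rw [this]; push_cast; ring
    _ ≤ (2 * ((265 * H) * (265 * H))) * D := by gcongr
    _ = 140450 * (H * H) * D := by ring
    _ ≤ 140450 * (H * (C * Q)) * D := by
        gcongr
        exact hp.hHQ
    _ = 140450 * C * (H * Q) * D := by ring

end Pool.Agent.Helper6.HC
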