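import Mathlib

set_option autoImplicit false

open Finset

namespace Pool.Agent.Helper6.HC

/-- the determinant of four vectors -/
def D4 {R : Type} [CommRing R] (a b c d : Fin 4 → R) : R :=
  (a 0 * b 1 - a 1 * b 0) * (c 2 * d 3 - c 3 * d 2) - (a 0 * b 2 - a 2 * b 0) * (c 1 * d 3 - c 3 * d 1)
  + (a 0 * b 3 - a 3 * b 0) * (c 1 * d 2 - c 2 * d 1) + (a 1 * b 2 - a 2 * b 1) * (c 0 * d 3 - c 3 * d 0)
  - (a 1 * b 3 - a 3 * b 1) * (c 0 * d 2 - c 2 * d 0) + (a 2 * b 3 - a 3 * b 2) * (c 0 * d 1 - c 1 * d 0)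

theorem D4_det {R : Type} [CommRing R] (a b c d : Fin 4 → R) :
    (Matrix.of ![a, b, c, d]).det = D4 a b c d := by
  simp [Matrix.det_succ_row_zero, Fin.sum_univ_succ, D4, Fin.succAbove]
  ring

theorem D4_cast (a b c d : Fin 4 → ℤ) :
    ((D4 a b c d : ℤ) : ℝ) = D4 (fun k => (a k : ℝ)) (fun k => (b k : ℝ)) (fun k => (c k : ℝ))
      (fun k => (d k : ℝ)) := by
  simp [D4]

/-- the coefficients of the cube of a linear form -/
def cube (u v : ℝ) : Fin 4 → ℝ := ![u ^ 3, 3 * u ^ 2 * v, 3 * u * v ^ 2, v ^ 3]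

theorem D4_cube (a0 b0 a1 b1 a2 b2 a3 b3 : ℝ) :
    D4 (cube a0 b0) (cube a1 b1) (cube a2 b2) (cube a3 b3) =
      9 * ((a0 * b1 - a1 * b0) * (a0 * b2 - a2 * b0) * (a0 * b3 - a3 * b0) *
        (a1 * b2 - a2 * b1) * (a1 * b3 - a3 * b1) * (a2 * b3 - a3 * b2)) := by
  simp only [D4, cube, Matrix.cons_val_zero, Matrix.cons_val_one, Matrix.cons_val]
  ring

theorem abs_mul_le {a b A B : ℝ} (h1 : |a| ≤ A) (h2 : |b| ≤ B) : |a * b| ≤ A * B := by
  rw [abs_mul]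
  have := abs_nonneg a
  have := abs_nonneg b
  have := (abs_nonneg a).trans h1
  gcongr

theorem abs_two {a b c d A B : ℝ} (h1 : |a| ≤ A) (h2 : |b| ≤ B) (h3 : |c| ≤ A) (h4 : |d| ≤ B) :
    |a * b - c * d| ≤ 2 * A * B := by
  have e1 := abs_mul_le h1 h2
  have e2 := abs_mul_le h3 h4
  have := abs_sub (a * b) (c * d)
  linarith

theorem D4_bound {a b c d : Fin 4 → ℝ} {A B C D : ℝ} (ha : ∀ k, |a k| ≤ A) (hb : ∀ k, |b k| ≤ B)
    (hc : ∀ k, |c k| ≤ C) (hd : ∀ k, |d k| ≤ D) : |D4 a b c d| ≤ 24 * (A * B * C * D) := by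
  have m : ∀ i j k l : Fin 4, |(a i * b j - a j * b i) * (c k * d l - c l * d k)| ≤
      4 * (A * B * C * D) := by
    intro i j k l
    have h1 := abs_two (ha i) (hb j) (ha j) (hb i)
    have h2 := abs_two (hc k) (hd l) (hc l) (hd k)
    have h3 := abs_mul_le h1 h2
    calc |(a i * b j - a j * b i) * (c k * d l - c l * d k)| ≤ 2 * A * B * (2 * C * D) := h3
      _ = 4 * (A * B * C * D) := by ring
  have m1 := abs_le.mp (m 0 1 2 3)
  have m2 := abs_le.mp (m 0 2 1 3)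
  have m3 := abs_le.mp (m 0 3 1 2)
  have m4 := abs_le.mp (m 1 2 0 3)
  have m5 := abs_le.mp (m 1 3 0 2)
  have m6 := abs_le.mp (m 2 3 0 1)
  unfold D4
  rw [abs_le]
  constructor <;> linarith [m1.1, m1.2, m2.1, m2.2, m3.1, m3.2, m4.1, m4.2, m5.1, m5.2, m6.1, m6.2]

theorem D4_pert {c t : Fin 4 → Fin 4 → ℝ} {E ν : ℝ} (hc : ∀ i k, |c i k| ≤ E)
    (hct : ∀ i k, |c i k - t i k| ≤ E) (ht : ∀ i k, |t i k| ≤ ν) :
    |D4 (c 0) (c 1) (c 2) (c 3) - D4 (fun k => c 0 k - t 0 k) (fun k => c 1 k - t 1 k)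
      (fun k => c 2 k - t 2 k) (fun k => c 3 k - t 3 k)| ≤ 96 * E ^ 3 * ν := by
  have e : D4 (c 0) (c 1) (c 2) (c 3) - D4 (fun k => c 0 k - t 0 k) (fun k => c 1 k - t 1 k)
      (fun k => c 2 k - t 2 k) (fun k => c 3 k - t 3 k) =
      D4 (t 0) (c 1) (c 2) (c 3) + D4 (fun k => c 0 k - t 0 k) (t 1) (c 2) (c 3) +
      D4 (fun k => c 0 k - t 0 k) (fun k => c 1 k - t 1 k) (t 2) (c 3) +
      D4 (fun k => c 0 k - t 0 k) (fun k => c 1 k - t 1 k) (fun k => c 2 k - t 2 k) (t 3) := by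
    unfold D4; ring
  have h1 := abs_le.mp (D4_bound (ht 0) (hc 1) (hc 2) (hc 3))
  have h2 := abs_le.mp (D4_bound (a := fun k => c 0 k - t 0 k) (fun k => hct 0 k) (ht 1) (hc 2) (hc 3))
  have h3 := abs_le.mp (D4_bound (a := fun k => c 0 k - t 0 k) (b := fun k => c 1 k - t 1 k)
    (fun k => hct 0 k) (fun k => hct 1 k) (ht 2) (hc 3))
  have h4 := abs_le.mp (D4_bound (a := fun k => c 0 k - t 0 k) (b := fun k => c 1 k - t 1 k)
    (c := fun k => c 2 k - t 2 k) (fun k => hct 0 k) (fun k => hct 1 k) (fun k => hct 2 k) (ht 3))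
  rw [e, abs_le]
  have g1 : E * E * E * ν = E ^ 3 * ν := by ring
  have g2 : ν * E * E * E = E ^ 3 * ν := by ring
  have g3 : E * ν * E * E = E ^ 3 * ν := by ring
  have g4 : E * E * ν * E = E ^ 3 * ν := by ring
  rw [g2] at h1
  rw [g3] at h2
  rw [g4] at h3
  rw [g1] at h4
  constructor <;> linarith [h1.1, h1.2, h2.1, h2.2, h3.1, h3.2, h4.1, h4.2]

theorem D4_add (x : Fin 4 → Fin 4 → ℝ) (m : Fin 4 → ℝ) (B : Fin 4 → ℝ) :
    D4 (fun k => x 0 k + m 0 * B k) (fun k => x 1 k + m 1 * B k)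
      (fun k => x 2 k + m 2 * B k) (fun k => x 3 k + m 3 * B k) =
    D4 (x 0) (x 1) (x 2) (x 3) + m 0 * D4 B (x 1) (x 2) (x 3) + m 1 * D4 (x 0) B (x 2) (x 3) +
      m 2 * D4 (x 0) (x 1) B (x 3) + m 3 * D4 (x 0) (x 1) (x 2) B := by
  unfold D4; ring

theorem D4_smul (l0 l1 l2 l3 : ℝ) (a b c d : Fin 4 → ℝ) :
    D4 (fun k => l0 * a k) (fun k => l1 * b k) (fun k => l2 * c k) (fun k => l3 * d k) =
      l0 * l1 * l2 * l3 * D4 a b c d := by
  unfold D4; ring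

theorem D4_smul0 (l1 l2 l3 : ℝ) (a b c d : Fin 4 → ℝ) :
    D4 a (fun k => l1 * b k) (fun k => l2 * c k) (fun k => l3 * d k) =
      l1 * l2 * l3 * D4 a b c d := by
  unfold D4; ring

theorem D4_smul1 (l1 l2 l3 : ℝ) (a b c d : Fin 4 → ℝ) :
    D4 (fun k => l1 * a k) b (fun k => l2 * c k) (fun k => l3 * d k) =
      l1 * l2 * l3 * D4 a b c d := by
  unfold D4; ring

theorem D4_smul2 (l1 l2 l3 : ℝ) (a b c d : Fin 4 → ℝ) :
    D4 (fun k => l1 * a k) (fun k => l2 * b k) c (fun k => l3 * d k) =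
      l1 * l2 * l3 * D4 a b c d := by
  unfold D4; ring

theorem D4_smul3 (l1 l2 l3 : ℝ) (a b c d : Fin 4 → ℝ) :
    D4 (fun k => l1 * a k) (fun k => l2 * b k) (fun k => l3 * c k) d =
      l1 * l2 * l3 * D4 a b c d := by
  unfold D4; ring

/-- a family of vectors close to multiples of cubes, together with a small multiple of a fixed cube -/
structure Fam (u v a b L M ν E : ℝ) (l m δ : Fin 4 → ℝ) (c t : Fin 4 → Fin 4 → ℝ) : Prop where
  hdet : u * b - v * a = 1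
  hl1 : ∀ i, L ≤ l i
  hl2 : ∀ i, l i ≤ 2 * L
  hm : ∀ i, |m i| ≤ M
  hc : ∀ i k, c i k = l i * cube (u - δ i * a) (v - δ i * b) k + m i * cube a b k + t i k
  ht : ∀ i k, |t i k| ≤ ν
  hE : ∀ i k, |c i k| ≤ E
  hE' : ∀ i k, |c i k - t i k| ≤ E

variable {u v a b L M ν E : ℝ} {l m δ : Fin 4 → ℝ} {c t : Fin 4 → Fin 4 → ℝ}

theorem three_le {L x y z : ℝ} (hL : 0 ≤ L) (hx : L ≤ x) (hy : L ≤ y) (hz : L ≤ z) (hx2 : x ≤ 2 * L)
    (hy2 : y ≤ 2 * L) (hz2 : z ≤ 2 * L) : |x * y * z| ≤ (2 * L) ^ 3 := by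
  have h0 : 0 ≤ x := hL.trans hx
  have h1 : 0 ≤ y := hL.trans hy
  have h2 : 0 ≤ z := hL.trans hz
  rw [abs_of_nonneg (by positivity)]
  calc x * y * z ≤ (2 * L) * (2 * L) * (2 * L) := by gcongr
    _ = (2 * L) ^ 3 := by ring

/-- the determinant of the members of a family -/
theorem Fam.det (h : Fam u v a b L M ν E l m δ c t) (hL : 0 < L) {g th : ℝ} (hg : 0 ≤ g)
    (hlow : ∀ i j, i < j → g ≤ |δ i - δ j|) (hup : ∀ i j, i < j → |δ i - δ j| ≤ th) :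
    |D4 (c 0) (c 1) (c 2) (c 3)| ≤ 9 * (2 * L) ^ 4 * th ^ 6 + 36 * M * (2 * L) ^ 3 * th ^ 3 +
      96 * E ^ 3 * ν ∧
    9 * L ^ 4 * g ^ 6 - 36 * M * (2 * L) ^ 3 * th ^ 3 - 96 * E ^ 3 * ν ≤
      |D4 (c 0) (c 1) (c 2) (c 3)| := by
  have hth : 0 ≤ th := (abs_nonneg _).trans (hup 0 1 (by decide))
  have hM : 0 ≤ M := (abs_nonneg _).trans (h.hm 0)
  set x : Fin 4 → Fin 4 → ℝ := fun i k => l i * cube (u - δ i * a) (v - δ i * b) k with hx
  have hd := h.hdet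
  have hsplit : D4 (fun k => c 0 k - t 0 k) (fun k => c 1 k - t 1 k)
      (fun k => c 2 k - t 2 k) (fun k => c 3 k - t 3 k) =
      D4 (x 0) (x 1) (x 2) (x 3) + (m 0 * D4 (cube a b) (x 1) (x 2) (x 3) +
      m 1 * D4 (x 0) (cube a b) (x 2) (x 3) +
      m 2 * D4 (x 0) (x 1) (cube a b) (x 3) + m 3 * D4 (x 0) (x 1) (x 2) (cube a b)) := by
    have e : ∀ i, (fun k => c i k - t i k) = fun k => x i k + m i * cube a b k := by
      intro i
      funext k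
      rw [h.hc i k]
      ring
    rw [e 0, e 1, e 2, e 3, D4_add]
    ring
  have hbr : ∀ i j : Fin 4, (u - δ i * a) * (v - δ j * b) - (u - δ j * a) * (v - δ i * b) =
      δ i - δ j := by
    intro i j
    linear_combination (δ i - δ j) * hd
  have hbB : ∀ i : Fin 4, a * (v - δ i * b) - (u - δ i * a) * b = -1 := by
    intro i
    linear_combination -hd
  have hbB' : ∀ i : Fin 4, (u - δ i * a) * b - a * (v - δ i * b) = 1 := by
    intro i
    linear_combination hd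
  have hmain : D4 (x 0) (x 1) (x 2) (x 3) = l 0 * l 1 * l 2 * l 3 * (9 * ((δ 0 - δ 1) * (δ 0 - δ 2) *
      (δ 0 - δ 3) * (δ 1 - δ 2) * (δ 1 - δ 3) * (δ 2 - δ 3))) := by
    simp only [hx]
    rw [D4_smul, D4_cube]
    simp only [hbr]
  have hB0 : D4 (cube a b) (x 1) (x 2) (x 3) = l 1 * l 2 * l 3 * (9 * ((-1) * (-1) * (-1) *
      (δ 1 - δ 2) * (δ 1 - δ 3) * (δ 2 - δ 3))) := by
    simp only [hx]
    rw [D4_smul0, D4_cube]
    simp only [hbr, hbB]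
  have hB1 : D4 (x 0) (cube a b) (x 2) (x 3) = l 0 * l 2 * l 3 * (9 * (1 * (δ 0 - δ 2) *
      (δ 0 - δ 3) * (-1) * (-1) * (δ 2 - δ 3))) := by
    simp only [hx]
    rw [D4_smul1, D4_cube]
    simp only [hbr, hbB, hbB']
  have hB2 : D4 (x 0) (x 1) (cube a b) (x 3) = l 0 * l 1 * l 3 * (9 * ((δ 0 - δ 1) * 1 *
      (δ 0 - δ 3) * 1 * (δ 1 - δ 3) * (-1))) := by
    simp only [hx]
    rw [D4_smul2, D4_cube]
    simp only [hbr, hbB, hbB']
  have hB3 : D4 (x 0) (x 1) (x 2) (cube a b) = l 0 * l 1 * l 2 * (9 * ((δ 0 - δ 1) * (δ 0 - δ 2) *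
      1 * (δ 1 - δ 2) * 1 * 1)) := by
    simp only [hx]
    rw [D4_smul3, D4_cube]
    simp only [hbr, hbB']
  have hnoise : ∀ (i : Fin 4) (y P : ℝ), |y| ≤ (2 * L) ^ 3 → |P| ≤ th ^ 3 →
      |m i * (y * (9 * P))| ≤ 9 * M * (2 * L) ^ 3 * th ^ 3 := by
    intro i y P h1 h2
    rw [abs_mul, abs_mul, abs_mul, abs_of_pos (by norm_num : (0:ℝ) < 9)]
    have := h.hm i
    calc |m i| * (|y| * (9 * |P|)) ≤ M * ((2 * L) ^ 3 * (9 * th ^ 3)) := by gcongr
      _ = 9 * M * (2 * L) ^ 3 * th ^ 3 := by ring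
  have hP : ∀ x y z : ℝ, |x| ≤ th → |y| ≤ th → |z| ≤ th → |x * y * z| ≤ th ^ 3 := by
    intro x y z h1 h2 h3
    have := abs_mul_le (abs_mul_le h1 h2) h3
    calc |x * y * z| ≤ th * th * th := this
      _ = th ^ 3 := by ring
  have L3 : ∀ i j k : Fin 4, |l i * l j * l k| ≤ (2 * L) ^ 3 := fun i j k =>
    three_le hL.le (h.hl1 i) (h.hl1 j) (h.hl1 k) (h.hl2 i) (h.hl2 j) (h.hl2 k)
  have u01 := hup 0 1 (by decide)
  have u02 := hup 0 2 (by decide)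
  have u03 := hup 0 3 (by decide)
  have u12 := hup 1 2 (by decide)
  have u13 := hup 1 3 (by decide)
  have u23 := hup 2 3 (by decide)
  have N0 : |m 0 * D4 (cube a b) (x 1) (x 2) (x 3)| ≤ 9 * M * (2 * L) ^ 3 * th ^ 3 := by
    rw [hB0]
    refine hnoise 0 _ _ (L3 1 2 3) ?_
    rw [show (-1) * (-1) * (-1) * (δ 1 - δ 2) * (δ 1 - δ 3) * (δ 2 - δ 3) =
      -((δ 1 - δ 2) * (δ 1 - δ 3) * (δ 2 - δ 3)) by ring, abs_neg]
    exact hP _ _ _ u12 u13 u23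
  have N1 : |m 1 * D4 (x 0) (cube a b) (x 2) (x 3)| ≤ 9 * M * (2 * L) ^ 3 * th ^ 3 := by
    rw [hB1]
    refine hnoise 1 _ _ (L3 0 2 3) ?_
    rw [show 1 * (δ 0 - δ 2) * (δ 0 - δ 3) * (-1) * (-1) * (δ 2 - δ 3) =
      (δ 0 - δ 2) * (δ 0 - δ 3) * (δ 2 - δ 3) by ring]
    exact hP _ _ _ u02 u03 u23
  have N2 : |m 2 * D4 (x 0) (x 1) (cube a b) (x 3)| ≤ 9 * M * (2 * L) ^ 3 * th ^ 3 := by
    rw [hB2]
    refine hnoise 2 _ _ (L3 0 1 3) ?_
    rw [show (δ 0 - δ 1) * 1 * (δ 0 - δ 3) * 1 * (δ 1 - δ 3) * (-1) =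
      -((δ 0 - δ 1) * (δ 0 - δ 3) * (δ 1 - δ 3)) by ring, abs_neg]
    exact hP _ _ _ u01 u03 u13
  have N3 : |m 3 * D4 (x 0) (x 1) (x 2) (cube a b)| ≤ 9 * M * (2 * L) ^ 3 * th ^ 3 := by
    rw [hB3]
    refine hnoise 3 _ _ (L3 0 1 2) ?_
    rw [show (δ 0 - δ 1) * (δ 0 - δ 2) * 1 * (δ 1 - δ 2) * 1 * 1 =
      (δ 0 - δ 1) * (δ 0 - δ 2) * (δ 1 - δ 2) by ring]
    exact hP _ _ _ u01 u02 u12
  have hpert := D4_pert h.hE h.hE' h.ht
  rw [hsplit] at hpert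
  -- the main term
  set P := (δ 0 - δ 1) * (δ 0 - δ 2) * (δ 0 - δ 3) * (δ 1 - δ 2) * (δ 1 - δ 3) * (δ 2 - δ 3) with hPdef
  have hPup : |P| ≤ th ^ 6 := by
    have := abs_mul_le (abs_mul_le (abs_mul_le (abs_mul_le (abs_mul_le u01 u02) u03) u12) u13) u23
    calc |P| ≤ th * th * th * th * th * th := this
      _ = th ^ 6 := by ring
  have hPlow : g ^ 6 ≤ |P| := by
    rw [hPdef, abs_mul, abs_mul, abs_mul, abs_mul, abs_mul]
    have v01 := hlow 0 1 (by decide)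
    have v02 := hlow 0 2 (by decide)
    have v03 := hlow 0 3 (by decide)
    have v12 := hlow 1 2 (by decide)
    have v13 := hlow 1 3 (by decide)
    have v23 := hlow 2 3 (by decide)
    calc g ^ 6 = g * g * g * g * g * g := by ring
      _ ≤ |δ 0 - δ 1| * |δ 0 - δ 2| * |δ 0 - δ 3| * |δ 1 - δ 2| * |δ 1 - δ 3| * |δ 2 - δ 3| := by
        gcongr
  have l0 := h.hl1 0
  have l1 := h.hl1 1
  have l2 := h.hl1 2
  have l3 := h.hl1 3
  have l0p : 0 ≤ l 0 := hL.le.trans l0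
  have l1p : 0 ≤ l 1 := hL.le.trans l1
  have l2p : 0 ≤ l 2 := hL.le.trans l2
  have l3p : 0 ≤ l 3 := hL.le.trans l3
  have habs : |D4 (x 0) (x 1) (x 2) (x 3)| = l 0 * l 1 * l 2 * l 3 * (9 * |P|) := by
    rw [hmain, abs_mul (l 0 * l 1 * l 2 * l 3), abs_mul (9 : ℝ),
      abs_of_nonneg (by positivity : 0 ≤ l 0 * l 1 * l 2 * l 3),
      abs_of_pos (by norm_num : (0:ℝ) < 9)]
  have hmup : |D4 (x 0) (x 1) (x 2) (x 3)| ≤ 9 * (2 * L) ^ 4 * th ^ 6 := by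
    rw [habs]
    calc l 0 * l 1 * l 2 * l 3 * (9 * |P|) ≤ (2 * L) * (2 * L) * (2 * L) * (2 * L) * (9 * th ^ 6) := by
          have := h.hl2 0
          have := h.hl2 1
          have := h.hl2 2
          have := h.hl2 3
          gcongr
      _ = 9 * (2 * L) ^ 4 * th ^ 6 := by ring
  have hmlow : 9 * L ^ 4 * g ^ 6 ≤ |D4 (x 0) (x 1) (x 2) (x 3)| := by
    rw [habs]
    calc 9 * L ^ 4 * g ^ 6 = L * L * L * L * (9 * g ^ 6) := by ring
      _ ≤ l 0 * l 1 * l 2 * l 3 * (9 * |P|) := by gcongr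
  have q1 := abs_le.mp N0
  have q2 := abs_le.mp N1
  have q3 := abs_le.mp N2
  have q4 := abs_le.mp N3
  set Z := m 0 * D4 (cube a b) (x 1) (x 2) (x 3) + m 1 * D4 (x 0) (cube a b) (x 2) (x 3) +
      m 2 * D4 (x 0) (x 1) (cube a b) (x 3) + m 3 * D4 (x 0) (x 1) (x 2) (cube a b) with hZ
  have hZb : |Z| ≤ 36 * M * (2 * L) ^ 3 * th ^ 3 := by
    rw [abs_le]
    constructor <;> linarith [q1.1, q1.2, q2.1, q2.2, q3.1, q3.2, q4.1, q4.2]
  set W := D4 (x 0) (x 1) (x 2) (x 3) with hW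
  set D := D4 (c 0) (c 1) (c 2) (c 3) with hD
  have t1 : |D| ≤ |W| + |Z| + |D - (W + Z)| := by
    calc |D| = |(W + Z) + (D - (W + Z))| := by ring_nf
      _ ≤ |W + Z| + |D - (W + Z)| := abs_add_le _ _
      _ ≤ _ := by
        have := abs_add_le W Z
        linarith
  have t2 : |W| ≤ |D| + |Z| + |D - (W + Z)| := by
    calc |W| = |D - Z - (D - (W + Z))| := by ring_nf
      _ ≤ |D - Z| + |D - (W + Z)| := abs_sub _ _
      _ ≤ _ := by
        have := abs_sub D Z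
        linarith
  constructor <;> linarith

/-- **the alternative**: four near and four far members -/
theorem exists_ne (n f : Fin 4 → Fin 4 → ℝ) (V : Fin 4 → Fin 4 → ℤ)
    (hV : ∀ i k, (V i k : ℝ) = n i k - n 0 k) (b : ℝ)
    (hb : ∀ i k, |f i k - f 0 k| ≤ b) (hn : D4 (n 0) (n 1) (n 2) (n 3) ≠ 0)
    (hf : 24 * b ^ 3 * |D4 (n 0) (n 1) (n 2) (n 3)| < |D4 (f 0) (f 1) (f 2) (f 3)|) :
    ∃ j, D4 (fun k => n 1 k - n 0 k) (fun k => n 2 k - n 0 k) (fun k => n 3 k - n 0 k)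
      (fun k => f j k - n 0 k) ≠ 0 := by
  classical
  by_contra hcon
  push Not at hcon
  set v1 : Fin 4 → ℝ := fun k => n 1 k - n 0 k with hv1
  set v2 : Fin 4 → ℝ := fun k => n 2 k - n 0 k with hv2
  set v3 : Fin 4 → ℝ := fun k => n 3 k - n 0 k with hv3
  set e : Fin 4 → Fin 4 → ℝ := fun i k => if k = i then 1 else 0 with he
  set F : Fin 4 → ℝ := fun i => D4 v1 v2 v3 (e i) with hF
  have hlin : ∀ x : Fin 4 → ℝ, D4 v1 v2 v3 x = F 0 * x 0 + F 1 * x 1 + F 2 * x 2 + F 3 * x 3 := by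
    intro x
    simp only [hF, D4, he]
    simp
    ring
  have hF0 : F 0 * n 0 0 + F 1 * n 0 1 + F 2 * n 0 2 + F 3 * n 0 3 ≠ 0 := by
    rw [← hlin]
    intro h
    apply hn
    have : D4 v1 v2 v3 (n 0) = -D4 (n 0) (n 1) (n 2) (n 3) := by
      simp only [hv1, hv2, hv3, D4]; ring
    rw [this] at h
    linarith
  have hexk : ∃ k, F k ≠ 0 := by
    by_contra hk
    push Not at hk
    apply hF0
    rw [hk 0, hk 1, hk 2, hk 3]
    ring
  obtain ⟨k, hk⟩ := hexk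
  have hint : F k = ((D4 (V 1) (V 2) (V 3) (fun r => if r = k then 1 else 0) : ℤ) : ℝ) := by
    rw [D4_cast]
    simp only [hF, hv1, hv2, hv3, he]
    simp only [hV]
    congr 1
    funext r
    push_cast
    rfl
  have hk1 : 1 ≤ |F k| := by
    rw [hint] at hk ⊢
    have h0 : D4 (V 1) (V 2) (V 3) (fun r => if r = k then 1 else 0) ≠ 0 := by exact_mod_cast hk
    exact_mod_cast Int.one_le_abs h0
  -- values of the functional
  have hval : ∀ j, F 0 * f j 0 + F 1 * f j 1 + F 2 * f j 2 + F 3 * f j 3 =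
      F 0 * n 0 0 + F 1 * n 0 1 + F 2 * n 0 2 + F 3 * n 0 3 := by
    intro j
    have := hcon j
    rw [hlin] at this
    linarith
  set κ := F 0 * n 0 0 + F 1 * n 0 1 + F 2 * n 0 2 + F 3 * n 0 3 with hκ
  have hκabs : |κ| = |D4 (n 0) (n 1) (n 2) (n 3)| := by
    rw [hκ, ← hlin]
    have : D4 v1 v2 v3 (n 0) = -D4 (n 0) (n 1) (n 2) (n 3) := by
      simp only [hv1, hv2, hv3, D4]; ring
    rw [this, abs_neg]
  set w1 : Fin 4 → ℝ := fun k => f 1 k - f 0 k with hw1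
  set w2 : Fin 4 → ℝ := fun k => f 2 k - f 0 k with hw2
  set w3 : Fin 4 → ℝ := fun k => f 3 k - f 0 k with hw3
  set z : Fin 4 → ℝ := fun r => F k * f 0 r - κ * e k r with hz
  have hzero : D4 w1 w2 w3 z = 0 := by
    by_contra hne
    have hmv : (Matrix.of ![w1, w2, w3, z]).mulVec F = 0 := by
      funext i
      have hFk : F 0 * e k 0 + F 1 * e k 1 + F 2 * e k 2 + F 3 * e k 3 = F k := by
        simp only [he]
        fin_cases k <;> simp
      fin_cases i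
      · simp [Matrix.mulVec, dotProduct, Fin.sum_univ_succ, hw1]
        have := hval 1
        have := hval 0
        linarith
      · simp [Matrix.mulVec, dotProduct, Fin.sum_univ_succ, hw2]
        have := hval 2
        have := hval 0
        linarith
      · simp [Matrix.mulVec, dotProduct, Fin.sum_univ_succ, hw3]
        have := hval 3
        have := hval 0
        linarith
      · simp [Matrix.mulVec, dotProduct, Fin.sum_univ_succ, hz]
        have := hval 0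
        linear_combination F k * this - κ * hFk
    have hdet : (Matrix.of ![w1, w2, w3, z]).det ≠ 0 := by rw [D4_det]; exact hne
    have := Matrix.eq_zero_of_mulVec_eq_zero hdet hmv
    rw [this] at hk
    simp at hk
  have hprop : F k * D4 w1 w2 w3 (f 0) = κ * D4 w1 w2 w3 (e k) := by
    have : D4 w1 w2 w3 z = F k * D4 w1 w2 w3 (f 0) - κ * D4 w1 w2 w3 (e k) := by
      simp only [hz, D4]; ring
    rw [this] at hzero
    linarith
  have hfar : |D4 w1 w2 w3 (f 0)| = |D4 (f 0) (f 1) (f 2) (f 3)| := by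
    have : D4 w1 w2 w3 (f 0) = -D4 (f 0) (f 1) (f 2) (f 3) := by
      simp only [hw1, hw2, hw3, D4]; ring
    rw [this, abs_neg]
  have hek : ∀ r, |e k r| ≤ 1 := by
    intro r
    simp only [he]
    split_ifs <;> simp
  have hbd := D4_bound (fun r => hb 1 r) (fun r => hb 2 r) (fun r => hb 3 r) hek
  have h1 : |D4 (f 0) (f 1) (f 2) (f 3)| ≤ |F k| * |D4 w1 w2 w3 (f 0)| := by
    rw [← hfar]
    have := abs_nonneg (D4 w1 w2 w3 (f 0))
    nlinarith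
  have h2 : |F k| * |D4 w1 w2 w3 (f 0)| = |κ| * |D4 w1 w2 w3 (e k)| := by
    rw [← abs_mul, hprop, abs_mul]
  have h3 : |κ| * |D4 w1 w2 w3 (e k)| ≤ |κ| * (24 * b ^ 3) := by
    have : 24 * (b * b * b * 1) = 24 * b ^ 3 := by ring
    rw [this] at hbd
    have := abs_nonneg κ
    gcongr
  rw [hκabs] at h2 h3
  linarith

end Pool.Agent.Helper6.HC
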