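import Pool.Agent.Helper6.HC.MainL

set_option autoImplicit false

open Finset

namespace Pool.Agent.Helper6.HC

theorem lam_mono {i j : ℕ} (h : i ≤ j) : lam i ≤ lam j := by
  unfold lam
  apply Real.sqrt_le_sqrt
  have : (2 : ℝ) ^ i ≤ 2 ^ j := pow_le_pow_right₀ (by norm_num) h
  linarith

variable {C H Q : ℝ}

theorem case0u (hp : Par C H Q) (T : Sys Q) (D : ℕ)
    (hD : ∀ n : ℕ, 1 ≤ n → (n : ℝ) ≤ 792 * (H * Q) ^ 4 → n.divisors.card ≤ D)
    (S : Finset (ℤ × ℤ)) (hS : ∀ e ∈ S, Reg H Q e.1 e.2)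
    (hz : ∀ e ∈ S, G0 e.1 e.2 (T.p e.1) (T.q e.1) = 0) (j0 : ℕ)
    (hj : ∀ e ∈ S, j0 ≤ T.j e.1) :
    (S.card : ℝ) ≤ 10 * (H * Q) / lam j0 * D := by
  classical
  have hl0 := lam_pos j0
  have hl02 := lam_sq_ge j0
  have hinv0 := inv_l hl0 hl02
  have hH := hp.hH
  have hQ2 := hp.hQ2
  have hZ : 2 ≤ H * Q := by nlinarith
  -- facts
  have fact : ∀ e ∈ S, T.q e.1 = 1 ∧ 0 < T.p e.1 ∧
      (T.p e.1) ^ 2 - e.1 ≠ 0 ∧ |(((T.p e.1) ^ 2 - e.1 : ℤ) : ℝ)| ≤ 5 * (H * Q) / lam j0 ∧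
      4 * T.p e.1 * (T.p e.1 ^ 3 - 3 * e.1 * T.p e.1 + 2 * e.2) =
        3 * ((T.p e.1) ^ 2 - e.1) ^ 2 := by
    intro e he
    have hr := hS e he
    have h0 := hz e he
    have hred := T.red e.1
    have hqp := T.qpos hp e.1
    have hl := lam_pos (T.j e.1)
    have hl2 := lam_sq_ge (T.j e.1)
    have hll := lam_mono (hj e he)
    have hf := f_ne hp hr hl hl2 (T.q0 e.1) hred
    obtain ⟨x, y⟩ := e
    simp only at hr h0 hred hqp hl hl2 hll hf ⊢
    generalize T.p x = p at *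
    generalize T.q x = q at *
    generalize T.p' x = p' at *
    generalize T.q' x = q' at *
    generalize lam (T.j x) = l at *
    have hcop : IsCoprime p q := ⟨q', -p', by linear_combination hred.det⟩
    have hq1 : q = 1 := by
      have : q ∣ p ^ 4 := ⟨6 * x * p ^ 2 * q - 8 * y * p * q ^ 2 + 3 * x ^ 2 * q ^ 3, by
        unfold G0 at h0; linear_combination h0⟩
      have h1 : q ∣ 1 := (hcop.symm.pow_right (n := 4)).dvd_of_dvd_mul_left (by simpa using this)
      have := Int.le_of_dvd one_pos h1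
      omega
    subst hq1
    have hP := G_P x y p 1
    rw [h0] at hP
    have hs := hr.spos hp
    have hss := hr.ssq hp
    have hu := hred.h1
    have hs1 := hr.s1
    have hs2 := hr.s2
    set s := √(x : ℝ) with hsdef
    have hs4 : 4 ≤ s := by nlinarith
    have h1Q : 1 / (l * Q) ≤ 3 / 2 / Q := by
      have h := inv_l hl hl2
      have : 1 / (l * Q) = 1 / l / Q := by
        have : Q ≠ 0 := by positivity
        field_simp
      rw [this]
      gcongr
    push_cast at hu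
    have hu2 := hu.trans h1Q
    have h34 : 3 / 2 / Q ≤ 3 / 4 := by
      rw [div_le_iff₀ (by positivity)]; linarith
    have hu3 := abs_le.mp (hu2.trans h34)
    have hp0 : (0 : ℝ) < p := by linarith [hu3.1]
    have hp0' : 0 < p := by exact_mod_cast hp0
    have hE : p ^ 2 - x ≠ 0 := by
      intro hE
      have h1 : 4 * p * (p ^ 3 - 3 * x * p * 1 ^ 2 + 2 * y * 1 ^ 3) = 0 := by
        linear_combination -hP + 3 * (p ^ 2 - x) * hE
      rcases mul_eq_zero.mp h1 with h | h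
      · omega
      · exact hf h
    refine ⟨rfl, hp0', hE, ?_, by linear_combination -hP⟩
    push_cast
    have h5 : (p : ℝ) ^ 2 - x = (p - 1 * s) * (p + s) := by rw [← hss]; ring
    have h6 : |(p : ℝ) + s| ≤ 5 * H * Q ^ 2 := by
      rw [abs_of_pos (by positivity)]
      have : 1 ≤ H * Q ^ 2 := by nlinarith
      linarith [hu3.2]
    rw [h5, abs_mul]
    calc |(p : ℝ) - 1 * s| * |(p : ℝ) + s| ≤ (1 / (l * Q)) * (5 * H * Q ^ 2) := by gcongr
      _ ≤ (1 / (lam j0 * Q)) * (5 * H * Q ^ 2) := by gcongr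
      _ = 5 * (H * Q) / lam j0 := by field_simp
  set φ : ℤ × ℤ → ℤ × ℤ := fun e => ((T.p e.1) ^ 2 - e.1, T.p e.1) with hφ
  have hinj : Set.InjOn φ S := by
    intro e he e1 he1 hee
    simp only [hφ, Prod.mk.injEq] at hee
    obtain ⟨h1, h2⟩ := hee
    obtain ⟨-, hp0, -, -, f1⟩ := fact e he
    obtain ⟨-, -, -, -, f2⟩ := fact e1 he1
    have hx : e.1 = e1.1 := by rw [h2] at h1; linarith
    have hpp : T.p e.1 ≠ 0 := hp0.ne'
    have hy : e.2 = e1.2 := by
      rw [← hx] at f2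
      have : 8 * T.p e.1 * (e.2 - e1.2) = 0 := by linear_combination f1 - f2
      rcases mul_eq_zero.mp this with h | h
      · exact absurd h (mul_ne_zero (by norm_num) hpp)
      · omega
    exact Prod.ext hx hy
  have hsub : S.image φ ⊆ ((Icc (-⌊5 * (H * Q) / lam j0⌋) ⌊5 * (H * Q) / lam j0⌋).erase 0).biUnion
      (fun E => ((3 * E ^ 2).natAbs.divisors).image (fun d : ℕ => (E, (d : ℤ)))) := by
    intro t ht
    obtain ⟨e, he, rfl⟩ := mem_image.mp ht
    obtain ⟨f1, f2, f3, f4, f5⟩ := fact e he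
    rw [mem_biUnion]
    refine ⟨(T.p e.1) ^ 2 - e.1, mem_box0 f4 f3, ?_⟩
    rw [mem_image]
    refine ⟨(T.p e.1).natAbs, ?_, ?_⟩
    · rw [Nat.mem_divisors]
      constructor
      · apply Int.natAbs_dvd_natAbs.mpr
        exact ⟨4 * (T.p e.1 ^ 3 - 3 * e.1 * T.p e.1 + 2 * e.2), by linear_combination -f5⟩
      · simpa using f3
    · simp only [hφ, Prod.mk.injEq, true_and]
      exact Int.natAbs_of_nonneg f2.le
  have hcard : S.card ≤ ((Icc (-⌊5 * (H * Q) / lam j0⌋) ⌊5 * (H * Q) / lam j0⌋).erase 0).card * D := by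
    rw [← card_image_of_injOn hinj]
    refine (card_le_card hsub).trans ?_
    apply card_biUnion_le_card_mul
    intro E hE
    refine card_image_le.trans ?_
    have hE0 := (mem_erase.mp hE).1
    have hEb := (mem_Icc.mp (mem_erase.mp hE).2)
    apply hD
    · have : 0 < (3 * E ^ 2).natAbs := Int.natAbs_pos.mpr (by positivity)
      omega
    · have h1 : ((3 * E ^ 2).natAbs : ℝ) = 3 * (E : ℝ) ^ 2 := by
        rw [Nat.cast_natAbs, abs_of_nonneg (by positivity)]
        push_cast; ring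
      rw [h1]
      have h2 : |(E : ℝ)| ≤ 5 * (H * Q) / lam j0 := by
        have h3 := Int.floor_le (5 * (H * Q) / lam j0)
        rw [abs_le]
        constructor
        · have : (-(⌊5 * (H * Q) / lam j0⌋ : ℝ)) ≤ E := by exact_mod_cast hEb.1
          linarith
        · have : (E : ℝ) ≤ ⌊5 * (H * Q) / lam j0⌋ := by exact_mod_cast hEb.2
          linarith
      have h2' : |(E : ℝ)| ≤ 8 * (H * Q) := by
        refine h2.trans ?_
        rw [div_eq_mul_one_div]
        nlinarith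
      have h3 : (E : ℝ) ^ 2 ≤ (8 * (H * Q)) ^ 2 := by
        rw [← sq_abs]
        gcongr
      have h4 : (H * Q) ^ 2 ≤ (H * Q) ^ 4 := pow_le_pow_right₀ (by linarith) (by norm_num)
      nlinarith
  calc (S.card : ℝ) ≤ (((Icc (-⌊5 * (H * Q) / lam j0⌋) ⌊5 * (H * Q) / lam j0⌋).erase 0).card : ℝ) * D := by
        exact_mod_cast hcard
    _ ≤ (2 * (5 * (H * Q) / lam j0)) * D := by
        gcongr
        exact card_box0 _ (by positivity)
    _ = 10 * (H * Q) / lam j0 * D := by ring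

theorem case1u (hp : Par C H Q) (T : Sys Q) (D : ℕ)
    (hD : ∀ n : ℕ, 1 ≤ n → (n : ℝ) ≤ 792 * (H * Q) ^ 4 → n.divisors.card ≤ D)
    (S : Finset (ℤ × ℤ)) (hS : ∀ e ∈ S, Reg H Q e.1 e.2)
    (hz : ∀ e ∈ S, G0 e.1 e.2 (T.p e.1) (T.q e.1) * (T.q' e.1) ^ 4 = 1) (j0 : ℕ)
    (hj : ∀ e ∈ S, j0 ≤ T.j e.1) :
    (S.card : ℝ) ≤ (2 * (132 * H / lam j0 ^ 2 + 1) * (265 * H)) * D := by
  classical
  have hl0 := lam_pos j0
  have hl02 := lam_sq_ge j0
  have hH := hp.hH
  have hQ2 := hp.hQ2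
  have hC := hp.hC
  have hZ : 2 ≤ H * Q := by nlinarith
  set g1 : ℤ × ℤ → ℤ := fun e => G1 e.1 e.2 (T.p e.1) (T.q e.1) (T.p' e.1) (T.q' e.1) with hg1
  set g2 : ℤ × ℤ → ℤ := fun e => G2 e.1 e.2 (T.p e.1) (T.q e.1) (T.p' e.1) (T.q' e.1) with hg2
  set W : ℤ → ℤ → ℤ := fun a b => if a = 0 then 6 * b else 4 * a with hW
  have fact : ∀ e ∈ S, G0 e.1 e.2 (T.p e.1) (T.q e.1) = 1 ∧ (T.q' e.1 = 1 ∨ T.q' e.1 = -1) ∧
      |((g1 e : ℤ) : ℝ)| ≤ 66 * H / lam j0 ^ 2 ∧ |((g2 e : ℤ) : ℝ)| ≤ 132 * H ∧ W (g1 e) (g2 e) ≠ 0 ∧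
      T.q e.1 ∣ W (g1 e) (g2 e) := by
    intro e he
    have hr := hS e he
    have h0 := hz e he
    have hred := T.red e.1
    have hqp := T.qpos hp e.1
    have hl := lam_pos (T.j e.1)
    have hl2 := lam_sq_ge (T.j e.1)
    have hsq : (T.q' e.1) ^ 4 = 1 := by
      have h1 : (T.q' e.1) ^ 4 ∣ 1 := ⟨_, by linear_combination -h0⟩
      have h2 : 0 ≤ (T.q' e.1) ^ 4 := by positivity
      have h3 := Int.le_of_dvd one_pos h1
      have h4 : (T.q' e.1) ^ 4 ≠ 0 := by
        intro h; rw [h] at h0; simp at h0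
      omega
    have hG0 : G0 e.1 e.2 (T.p e.1) (T.q e.1) = 1 := by rw [hsq] at h0; linarith
    have hq' : T.q' e.1 = 1 ∨ T.q' e.1 = -1 := by
      have h1 : T.q' e.1 ∣ 1 := by
        have : T.q' e.1 ∣ (T.q' e.1) ^ 4 := dvd_pow_self _ (by norm_num)
        rwa [hsq] at this
      exact Int.isUnit_iff.mp (isUnit_of_dvd_one h1)
    have B1 : |((g1 e : ℤ) : ℝ)| ≤ 66 * H / lam j0 ^ 2 := by
      refine (G1_bound hp hr hl hred).trans ?_
      have hll := lam_mono (hj e he)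
      gcongr
    have B2 : |((g2 e : ℤ) : ℝ)| ≤ 132 * H := G2_bound hp hr hl hred
    have rel := G_rel e.1 e.2 (T.p e.1) (T.q e.1) (T.p' e.1) (T.q' e.1)
    rw [hred.det, h0] at rel
    have hcop : IsCoprime (T.q e.1) (T.q' e.1) :=
      ⟨-T.p' e.1, T.p e.1, by linear_combination hred.det⟩
    obtain ⟨r1, r2, r3, e1, e2, e3, e4⟩ := divide (T.q e.1) (T.q' e.1) (g1 e) (g2 e)
      (G1 e.1 e.2 (T.p' e.1) (T.q' e.1) (T.p e.1) (T.q e.1)) (G0 e.1 e.2 (T.p' e.1) (T.q' e.1))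
      hqp.ne' hcop (by simp only [hg1, hg2]; linear_combination rel)
    refine ⟨hG0, hq', B1, B2, ?_, ?_⟩
    · simp only [hW]
      split_ifs with h
      · intro h6
        have hg20 : g2 e = 0 := by omega
        have I := G_I e.1 e.2 (T.p e.1) (T.q e.1) (T.p' e.1) (T.q' e.1)
        have J := G_J e.1 e.2 (T.p e.1) (T.q e.1) (T.p' e.1) (T.q' e.1)
        simp only [hg1] at h
        simp only [hg2] at hg20
        rw [h, hg20, hG0] at I J
        have h40 : G0 e.1 e.2 (T.p' e.1) (T.q' e.1) = 0 := by linear_combination I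
        have hr3 : r3 = 0 := by
          rw [h40] at e4
          rcases mul_eq_zero.mp e4.symm with h | h
          · rcases hq' with h' | h' <;> omega
          · exact h
        have hr1 : r1 = 0 := by
          have : T.q e.1 * r1 = 0 := by
            rw [← e1]; simp only [hg1]; rw [h]; ring
          exact (mul_eq_zero.mp this).resolve_left hqp.ne'
        have hr2 : r2 = 0 := by
          have : T.q e.1 * r2 = 0 := by
            rw [hr1] at e2
            simp only [hg2] at e2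
            rw [hg20] at e2
            linear_combination -e2
          exact (mul_eq_zero.mp this).resolve_left hqp.ne'
        have h30 : G1 e.1 e.2 (T.p' e.1) (T.q' e.1) (T.p e.1) (T.q e.1) = 0 := by
          rw [hr3, hr2] at e3
          linarith
        rw [h40, h30, hred.det] at J
        apply hr.ne
        linarith
      · intro h6
        exact h (by omega)
    · simp only [hW]
      split_ifs with h
      · have hr1 : r1 = 0 := by
          have : T.q e.1 * r1 = 0 := by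
            rw [← e1, h]; ring
          exact (mul_eq_zero.mp this).resolve_left hqp.ne'
        exact ⟨r2, by rw [e2, hr1]; ring⟩
      · exact ⟨r1, e1⟩
  set φ : ℤ × ℤ → (ℤ × ℤ × ℤ) × ℤ := fun e => ((T.q' e.1, g1 e, g2 e), T.q e.1) with hφ
  have hinj : Set.InjOn φ S := by
    intro e he e1 he1 hee
    simp only [hφ, Prod.mk.injEq] at hee
    obtain ⟨⟨h1, h2, h3⟩, h4⟩ := hee
    have hr := hS e he
    have hred := T.red e.1
    have hred1 := T.red e1.1
    have hqp := T.qpos hp e.1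
    have hf := f_ne hp hr (lam_pos (T.j e.1)) (lam_sq_ge (T.j e.1)) (T.q0 e.1) hred
    have := recover e.1 e.2 (T.p e.1) (T.q e.1) (T.p' e.1) (T.q' e.1) e1.1 e1.2 (T.p e1.1)
      (T.p' e1.1) hred.det (by rw [h1, h4]; exact hred1.det) hqp.ne' hf
      (by rw [(fact e he).1, h4, (fact e1 he1).1])
      (by simp only [hg1] at h2; rw [h2, ← h4, ← h1]) (by simp only [hg2] at h3; rw [h3, ← h4, ← h1])
    exact Prod.ext this.1 this.2
  set B := Icc (-⌊132 * H⌋) ⌊132 * H⌋ with hB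
  set B1 := Icc (-⌊66 * H / lam j0 ^ 2⌋) ⌊66 * H / lam j0 ^ 2⌋ with hB1
  have hsub : S.image φ ⊆ ((({1, -1} : Finset ℤ) ×ˢ B1 ×ˢ B).filter
      (fun t => W t.2.1 t.2.2 ≠ 0)).biUnion
      (fun t => ((W t.2.1 t.2.2).natAbs.divisors).image (fun d : ℕ => (t, (d : ℤ)))) := by
    intro t ht
    obtain ⟨e, he, rfl⟩ := mem_image.mp ht
    obtain ⟨f1, f2, f3, f4, f5, f6⟩ := fact e he
    rw [mem_biUnion]
    refine ⟨(T.q' e.1, g1 e, g2 e), ?_, ?_⟩
    · rw [mem_filter, mem_product, mem_product]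
      refine ⟨⟨?_, mem_box f3, mem_box f4⟩, f5⟩
      rw [mem_insert, mem_singleton]
      exact f2
    · rw [mem_image]
      refine ⟨(T.q e.1).natAbs, ?_, ?_⟩
      · rw [Nat.mem_divisors]
        exact ⟨Int.natAbs_dvd_natAbs.mpr f6, Int.natAbs_ne_zero.mpr f5⟩
      · simp only [hφ, Prod.mk.injEq, true_and]
        exact Int.natAbs_of_nonneg (T.q0 e.1)
  have hcard : S.card ≤ (({1, -1} : Finset ℤ) ×ˢ B1 ×ˢ B).card * D := by
    rw [← card_image_of_injOn hinj]
    refine (card_le_card hsub).trans ?_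
    refine le_trans (card_biUnion_le_card_mul _ _ D ?_) ?_
    · intro t ht
      rw [mem_filter, mem_product, mem_product] at ht
      obtain ⟨⟨-, t1, t2⟩, t3⟩ := ht
      refine card_image_le.trans ?_
      apply hD
      · have := Int.natAbs_pos.mpr t3
        omega
      · rw [Nat.cast_natAbs]
        have hb : ∀ n ∈ B, |(n : ℝ)| ≤ 132 * H := by
          intro n hn
          have h3 := Int.floor_le (132 * H)
          have := mem_Icc.mp hn
          rw [abs_le]
          constructor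
          · have : (-(⌊132 * H⌋ : ℝ)) ≤ n := by exact_mod_cast this.1
            linarith
          · have : (n : ℝ) ≤ ⌊132 * H⌋ := by exact_mod_cast this.2
            linarith
        have hb1 : ∀ n ∈ B1, |(n : ℝ)| ≤ 132 * H := by
          intro n hn
          have h3 := Int.floor_le (66 * H / lam j0 ^ 2)
          have := mem_Icc.mp hn
          have h4 : 66 * H / lam j0 ^ 2 ≤ 132 * H := by
            rw [div_le_iff₀ (by positivity)]
            nlinarith
          rw [abs_le]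
          constructor
          · have : (-(⌊66 * H / lam j0 ^ 2⌋ : ℝ)) ≤ n := by exact_mod_cast this.1
            linarith
          · have : (n : ℝ) ≤ ⌊66 * H / lam j0 ^ 2⌋ := by exact_mod_cast this.2
            linarith
        have h1 := hb1 _ t1
        have h2 := hb _ t2
        have h3 : ((|W t.2.1 t.2.2| : ℤ) : ℝ) ≤ 792 * H := by
          simp only [hW]
          split_ifs with h
          · push_cast
            rw [abs_mul, abs_of_pos (by norm_num : (0:ℝ) < 6)]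
            linarith
          · push_cast
            rw [abs_mul, abs_of_pos (by norm_num : (0:ℝ) < 4)]
            linarith
        have h4 : H ≤ (H * Q) ^ 4 := by
          have h5 : H ≤ H * Q := by nlinarith
          have h6 : H * Q ≤ (H * Q) ^ 4 := by
            calc H * Q = (H * Q) ^ 1 := by ring
              _ ≤ (H * Q) ^ 4 := pow_le_pow_right₀ (by linarith) (by norm_num)
          linarith
        linarith
    · exact Nat.mul_le_mul_right _ (card_filter_le _ _)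
  have hcB : (B.card : ℝ) ≤ 265 * H := by
    have := card_box (132 * H) (by positivity)
    linarith
  have hcB1 : (B1.card : ℝ) ≤ 132 * H / lam j0 ^ 2 + 1 := by
    have := card_box (66 * H / lam j0 ^ 2) (by positivity)
    refine this.trans (le_of_eq ?_)
    ring
  calc (S.card : ℝ) ≤ ((({1, -1} : Finset ℤ) ×ˢ B1 ×ˢ B).card : ℝ) * D := by exact_mod_cast hcard
    _ = (2 * (B1.card * B.card)) * D := by
        rw [card_product, card_product]
        have : (({1, -1} : Finset ℤ)).card = 2 := by decide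
        rw [this]; push_cast; ring
    _ ≤ (2 * ((132 * H / lam j0 ^ 2 + 1) * (265 * H))) * D := by gcongr
    _ = (2 * (132 * H / lam j0 ^ 2 + 1) * (265 * H)) * D := by ring

theorem case2u (hp : Par C H Q) (T : Sys Q) (D : ℕ)
    (hD : ∀ n : ℕ, 1 ≤ n → (n : ℝ) ≤ 792 * (H * Q) ^ 4 → n.divisors.card ≤ D) (j : ℕ)
    (S : Finset (ℤ × ℤ)) (hS : ∀ e ∈ S, Reg H Q e.1 e.2) (hj : ∀ e ∈ S, T.j e.1 = j)
    (hz0 : ∀ e ∈ S, G0 e.1 e.2 (T.p e.1) (T.q e.1) ≠ 0)
    (hz : ∀ e ∈ S, G0 e.1 e.2 (T.p e.1) (T.q e.1) * (T.q' e.1) ^ 4 ≠ 1) :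
    (S.card : ℝ) ≤ (10 : ℝ) ^ 14 * C ^ 2 * (H * Q) * D * (1 / lam j ^ 2) := by
  classical
  have hH := hp.hH
  have hQ2 := hp.hQ2
  have hC := hp.hC
  have hZ : 2 ≤ H * Q := by nlinarith
  set l := lam j with hldef
  have hl : 0 < l := lam_pos j
  have hl2 : 1 / 2 ≤ l ^ 2 := lam_sq_ge j
  have hinv := inv_l hl hl2
  have hlge : 2 / 3 ≤ l := by
    rw [div_le_iff₀ hl] at hinv
    linarith
  set A := 33 * H / l ^ 4 with hA
  set B := 2 * l * Q with hB
  have hA0 : 0 ≤ A := by positivity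
  have hB0 : 0 ≤ B := by positivity
  set R1 := 44352 * C with hR1
  set R2 := 76032 * C * l with hR2
  -- keys
  set φ : ℤ × ℤ → (ℤ × ℤ) × ℤ := fun e =>
    ((G0 e.1 e.2 (T.p e.1) (T.q e.1), T.q' e.1), T.q e.1) with hφ
  have fact : ∀ e ∈ S, |((G0 e.1 e.2 (T.p e.1) (T.q e.1) : ℤ) : ℝ)| ≤ A ∧
      |(T.q' e.1 : ℝ)| ≤ B ∧ T.q e.1 ∣ G0 e.1 e.2 (T.p e.1) (T.q e.1) * (T.q' e.1) ^ 4 - 1 := by
    intro e he
    have hr := hS e he
    have hred := T.red e.1
    rw [hj e he] at hred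
    refine ⟨G0_bound hp hr hl hred, hred.h4, ?_⟩
    have rel := G_rel e.1 e.2 (T.p e.1) (T.q e.1) (T.p' e.1) (T.q' e.1)
    rw [hred.det] at rel
    exact ⟨4 * G1 e.1 e.2 (T.p e.1) (T.q e.1) (T.p' e.1) (T.q' e.1) * T.q' e.1 ^ 3
      - 6 * G2 e.1 e.2 (T.p e.1) (T.q e.1) (T.p' e.1) (T.q' e.1) * T.q' e.1 ^ 2 * T.q e.1
      + 4 * G1 e.1 e.2 (T.p' e.1) (T.q' e.1) (T.p e.1) (T.q e.1) * T.q' e.1 * T.q e.1 ^ 2
      - G0 e.1 e.2 (T.p' e.1) (T.q' e.1) * T.q e.1 ^ 3, by linear_combination rel⟩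
  have hsub : S.image φ ⊆ ((((Icc (-⌊A⌋) ⌊A⌋).erase 0) ×ˢ Icc (-⌊B⌋) ⌊B⌋).filter
      (fun t => t.1 * t.2 ^ 4 - 1 ≠ 0)).biUnion
      (fun t => ((t.1 * t.2 ^ 4 - 1).natAbs.divisors).image (fun d : ℕ => (t, (d : ℤ)))) := by
    intro t ht
    obtain ⟨e, he, rfl⟩ := mem_image.mp ht
    obtain ⟨f1, f2, f3⟩ := fact e he
    have hne : G0 e.1 e.2 (T.p e.1) (T.q e.1) * (T.q' e.1) ^ 4 - 1 ≠ 0 := by
      have := hz e he
      omega
    rw [mem_biUnion]
    refine ⟨(G0 e.1 e.2 (T.p e.1) (T.q e.1), T.q' e.1), ?_, ?_⟩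
    · rw [mem_filter, mem_product]
      exact ⟨⟨mem_box0 f1 (hz0 e he), mem_box f2⟩, hne⟩
    · rw [mem_image]
      refine ⟨(T.q e.1).natAbs, ?_, ?_⟩
      · rw [Nat.mem_divisors]
        exact ⟨Int.natAbs_dvd_natAbs.mpr f3, Int.natAbs_ne_zero.mpr hne⟩
      · simp only [hφ, Prod.mk.injEq, true_and]
        exact Int.natAbs_of_nonneg (T.q0 e.1)
  have hcardim : (S.image φ).card ≤ (((Icc (-⌊A⌋) ⌊A⌋).erase 0) ×ˢ Icc (-⌊B⌋) ⌊B⌋).card * D := by
    refine (card_le_card hsub).trans ?_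
    refine le_trans (card_biUnion_le_card_mul _ _ D ?_) ?_
    · intro t ht
      rw [mem_filter, mem_product] at ht
      obtain ⟨⟨t1, t2⟩, t3⟩ := ht
      refine card_image_le.trans ?_
      apply hD
      · have := Int.natAbs_pos.mpr t3
        omega
      · rw [Nat.cast_natAbs]
        have h1 : |(t.1 : ℝ)| ≤ A := by
          have h3 := Int.floor_le A
          have := mem_Icc.mp (mem_erase.mp t1).2
          rw [abs_le]
          constructor
          · have : (-(⌊A⌋ : ℝ)) ≤ t.1 := by exact_mod_cast this.1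
            linarith
          · have : (t.1 : ℝ) ≤ ⌊A⌋ := by exact_mod_cast this.2
            linarith
        have h2 : |(t.2 : ℝ)| ≤ B := by
          have h3 := Int.floor_le B
          have := mem_Icc.mp t2
          rw [abs_le]
          constructor
          · have : (-(⌊B⌋ : ℝ)) ≤ t.2 := by exact_mod_cast this.1
            linarith
          · have : (t.2 : ℝ) ≤ ⌊B⌋ := by exact_mod_cast this.2
            linarith
        push_cast
        calc |(t.1 : ℝ) * t.2 ^ 4 - 1| ≤ |(t.1 : ℝ) * t.2 ^ 4| + |(1 : ℝ)| := abs_sub _ _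
          _ = |(t.1 : ℝ)| * |(t.2 : ℝ)| ^ 4 + 1 := by rw [abs_mul, abs_pow, abs_one]
          _ ≤ A * B ^ 4 + 1 := by gcongr
          _ = 528 * H * Q ^ 4 + 1 := by
              rw [hA, hB]; field_simp; ring
          _ ≤ 792 * (H * Q) ^ 4 := by
              have h5 : H * Q ^ 4 ≤ (H * Q) ^ 4 := by
                have : H ≤ H ^ 4 := by
                  calc H = H ^ 1 := by ring
                    _ ≤ H ^ 4 := pow_le_pow_right₀ hH (by norm_num)
                rw [mul_pow]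
                gcongr
              have h6 : 1 ≤ (H * Q) ^ 4 := one_le_pow₀ (by linarith)
              linarith
    · exact Nat.mul_le_mul_right _ (card_filter_le _ _)
  -- fibres
  have hfib : ∀ t ∈ S.image φ, (S.filter (fun e => φ e = t)).card ≤
      (Icc (-⌊R1⌋) ⌊R1⌋ ×ˢ Icc (-⌊R2⌋) ⌊R2⌋).card := by
    intro t ht
    obtain ⟨e0, he0, rfl⟩ := mem_image.mp ht
    have hrel : ∀ e ∈ S.filter (fun e => φ e = φ e0), ∃ r1 r2 : ℤ, |(r1 : ℝ)| ≤ R1 ∧
        |(r2 : ℝ)| ≤ R2 ∧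
        4 * (G1 e.1 e.2 (T.p e.1) (T.q e0.1) (T.p' e.1) (T.q' e0.1) -
          G1 e0.1 e0.2 (T.p e0.1) (T.q e0.1) (T.p' e0.1) (T.q' e0.1)) = T.q e0.1 * r1 ∧
        6 * (G2 e.1 e.2 (T.p e.1) (T.q e0.1) (T.p' e.1) (T.q' e0.1) -
          G2 e0.1 e0.2 (T.p e0.1) (T.q e0.1) (T.p' e0.1) (T.q' e0.1)) =
          T.q e0.1 * r2 + T.q' e0.1 * r1 := by
      intro e he
      obtain ⟨heS, hee⟩ := mem_filter.mp he
      simp only [hφ, Prod.mk.injEq] at hee
      obtain ⟨⟨h1, h2⟩, h3⟩ := hee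
      have hred := T.red e.1
      have hred0 := T.red e0.1
      rw [hj e heS, h2, h3] at hred
      rw [hj e0 he0] at hred0
      rw [h3] at h1
      exact pair_lemma hp (hS e heS) (hS e0 he0) hl hl2 (T.qpos hp e0.1) hred hred0 h1
    choose! r1 r2 hr1 hr2 hr3 hr4 using hrel
    have hinj : Set.InjOn (fun e => (r1 e, r2 e)) (S.filter (fun e => φ e = φ e0) : Finset _) := by
      intro e he e1 he1 hee
      simp only [Prod.mk.injEq] at hee
      obtain ⟨k1, k2⟩ := hee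
      have m3 := hr3 e he
      have m4 := hr4 e he
      have n3 := hr3 e1 he1
      have n4 := hr4 e1 he1
      rw [k1] at m3 m4
      rw [k2] at m4
      obtain ⟨heS, hee⟩ := mem_filter.mp (mem_coe.mp he)
      obtain ⟨heS1, hee1⟩ := mem_filter.mp (mem_coe.mp he1)
      simp only [hφ, Prod.mk.injEq] at hee hee1
      obtain ⟨⟨h1, h2⟩, h3⟩ := hee
      obtain ⟨⟨h1', h2'⟩, h3'⟩ := hee1
      have hred := T.red e.1
      have hred1 := T.red e1.1
      have hqp := T.qpos hp e0.1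
      rw [hj e heS] at hred
      have hf := f_ne hp (hS e heS) hl hl2 (T.q0 e.1) hred
      rw [h2, h3] at hred
      rw [h2', h3'] at hred1
      rw [h3] at hf h1
      rw [h3'] at h1'
      have := recover e.1 e.2 (T.p e.1) (T.q e0.1) (T.p' e.1) (T.q' e0.1) e1.1 e1.2 (T.p e1.1)
        (T.p' e1.1) hred.det hred1.det hqp.ne' hf (by rw [h1, h1'])
        (by linarith) (by linarith)
      exact Prod.ext this.1 this.2
    have := card_image_of_injOn hinj
    rw [← this]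
    apply card_le_card
    intro t ht
    obtain ⟨e, he, rfl⟩ := mem_image.mp ht
    exact mem_product.mpr ⟨mem_box (hr1 e he), mem_box (hr2 e he)⟩
  have hmain := card_le_mul_card_image (f := φ) S _ hfib
  have c1 : (((Icc (-⌊A⌋) ⌊A⌋).erase 0).card : ℝ) ≤ 2 * A := card_box0 A hA0
  have c2 : ((Icc (-⌊B⌋) ⌊B⌋).card : ℝ) ≤ 3 * B := by
    have := card_box B hB0
    have hB1 : 1 ≤ B := by rw [hB]; nlinarith
    linarith
  have c3 : ((Icc (-⌊R1⌋) ⌊R1⌋).card : ℝ) ≤ 3 * R1 := by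
    have := card_box R1 (by positivity)
    have hB1 : 1 ≤ R1 := by rw [hR1]; nlinarith
    linarith
  have c4 : ((Icc (-⌊R2⌋) ⌊R2⌋).card : ℝ) ≤ 3 * R2 := by
    have := card_box R2 (by positivity)
    have hB1 : 1 ≤ R2 := by rw [hR2]; nlinarith
    linarith
  have hfinal : (S.card : ℝ) ≤ ((3 * R1) * (3 * R2)) * (((2 * A) * (3 * B)) * D) := by
    calc (S.card : ℝ) ≤ ((Icc (-⌊R1⌋) ⌊R1⌋ ×ˢ Icc (-⌊R2⌋) ⌊R2⌋).card : ℝ) *
          ((((Icc (-⌊A⌋) ⌊A⌋).erase 0) ×ˢ Icc (-⌊B⌋) ⌊B⌋).card * D) := by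
            exact_mod_cast hmain.trans (Nat.mul_le_mul_left _ hcardim)
      _ ≤ _ := by
            rw [card_product, card_product]
            push_cast
            gcongr
  refine hfinal.trans ?_
  have e1 : ((3 * R1) * (3 * R2)) * (((2 * A) * (3 * B)) * D) =
      (9 * 44352 * 76032 * 6 * 66) * C ^ 2 * (H * Q) * D * (1 / l ^ 2) := by
    rw [hR1, hR2, hA, hB]
    field_simp
    ring
  rw [e1]
  have e3 : 0 ≤ C ^ 2 * (H * Q) * D := by positivity
  have e4 : 0 ≤ 1 / l ^ 2 := by positivity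
  have e5 : (9 * 44352 * 76032 * 6 * 66 : ℝ) * C ^ 2 * (H * Q) * D ≤ (10 : ℝ) ^ 14 * C ^ 2 * (H * Q) * D := by
    nlinarith
  exact mul_le_mul_of_nonneg_right e5 e4

end Pool.Agent.Helper6.HC
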