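import Pool.Agent.Helper6.HC.Group
import Pool.Agent.Helper6.HC.TUnb

set_option autoImplicit false

open Finset

namespace Pool.Agent.Helper6.HC

section
variable {C C' H T Q A : ℝ}

/-- a fibrewise bound with real constants -/
theorem card_le_real {α β : Type} [DecidableEq β] (S : Finset α) (f : α → β) (M : ℝ)
    (h : ∀ t ∈ S.image f, (((S.filter fun e => f e = t).card : ℕ) : ℝ) ≤ M) :
    (S.card : ℝ) ≤ (S.image f).card * M := by
  rw [card_eq_sum_card_image f S]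
  push_cast
  calc ∑ t ∈ S.image f, (((S.filter fun e => f e = t).card : ℕ) : ℝ) ≤ ∑ _t ∈ S.image f, M :=
        sum_le_sum h
    _ = (S.image f).card * M := by rw [sum_const, nsmul_eq_mul]

/-- the solutions with an unbalanced basis at the coarse scale -/
theorem qunb_count (hp' : Par C' H Q) (hQT : Q ≤ T) (U : Sys Q) (j1 : ℕ)
    (S : Finset (ℤ × ℤ)) (hj : ∀ e ∈ S, j1 ≤ U.j e.1) (M0 : ℝ) (hM0 : 0 ≤ M0)
    (hM : ∀ e0 ∈ S, ∀ S' ⊆ S, (∀ e ∈ S', ∃ k : ℤ, |√(e.1:ℝ) - √(e0.1:ℝ) - k| ≤ 1 / T ^ 2) →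
      (S'.card : ℝ) ≤ M0) : (S.card : ℝ) ≤ (4 * T ^ 2 / lam j1 ^ 2) * M0 := by
  classical
  rcases S.eq_empty_or_nonempty with rfl | ⟨z, hz⟩
  · simp only [card_empty, Nat.cast_zero]
    positivity
  have hQ0 : 0 < Q := by linarith [hp'.hQ2]
  have hT0 : 0 < T := by linarith
  have hT2 : 0 < T ^ 2 := by positivity
  set l := lam j1 with hl
  have hl0 : 0 < l := lam_pos j1
  set N : ℤ := ⌊Q / l⌋ with hN
  set f : ℤ × ℤ → ℤ × (ℤ × ℤ) := fun e => (U.q e.1, (U.p e.1 % U.q e.1,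
    ⌊T ^ 2 * (√(e.1:ℝ) - U.p e.1 / U.q e.1)⌋)) with hf
  set W : ℤ → Finset (ℤ × (ℤ × ℤ)) := fun q => ((Ico (0 : ℤ) q) ×ˢ
    (Icc (-⌊T ^ 2 / (q * l * Q)⌋ - 1) ⌊T ^ 2 / (q * l * Q)⌋)).image (fun t => (q, t)) with hW
  have hfact : ∀ e ∈ S, 0 < U.q e.1 ∧ U.q e.1 ≤ N ∧
      |T ^ 2 * (√(e.1:ℝ) - U.p e.1 / U.q e.1)| ≤ T ^ 2 / (U.q e.1 * l * Q) := by
    intro e he
    have hq := U.qpos hp' e.1
    have hred := U.red e.1
    have hll : l ≤ lam (U.j e.1) := lam_mono (hj e he)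
    have hqR : (0 : ℝ) < U.q e.1 := by exact_mod_cast hq
    refine ⟨hq, ?_, ?_⟩
    · apply Int.le_floor.mpr
      have h2 := hred.h2
      rw [abs_of_pos hqR] at h2
      refine h2.trans ?_
      gcongr
    · rw [abs_mul, abs_of_pos hT2]
      have h1 := hred.h1
      have e1 : √(e.1:ℝ) - (U.p e.1 : ℝ) / U.q e.1 = -((U.p e.1 : ℝ) - U.q e.1 * √(e.1:ℝ)) / U.q e.1 := by
        field_simp
        ring
      rw [e1, abs_div, abs_neg, abs_of_pos hqR]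
      calc T ^ 2 * (|(U.p e.1 : ℝ) - U.q e.1 * √(e.1:ℝ)| / U.q e.1) ≤
            T ^ 2 * ((1 / (lam (U.j e.1) * Q)) / U.q e.1) := by gcongr
        _ ≤ T ^ 2 * ((1 / (l * Q)) / U.q e.1) := by gcongr
        _ = T ^ 2 / (U.q e.1 * l * Q) := by field_simp
  have hsub : S.image f ⊆ (Icc 1 N).biUnion W := by
    intro t ht
    obtain ⟨e, he, rfl⟩ := mem_image.mp ht
    obtain ⟨h1, h2, h3⟩ := hfact e he
    rw [mem_biUnion]
    refine ⟨U.q e.1, mem_Icc.mpr ⟨by omega, h2⟩, ?_⟩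
    simp only [hW, hf]
    rw [mem_image]
    refine ⟨_, mem_product.mpr ⟨mem_Ico.mpr ⟨Int.emod_nonneg _ h1.ne', Int.emod_lt_of_pos _ h1⟩, ?_⟩, rfl⟩
    have h4 := abs_le.mp h3
    rw [mem_Icc]
    constructor
    · have h5 := Int.lt_floor_add_one (T ^ 2 / ((U.q e.1 : ℝ) * l * Q))
      apply Int.le_floor.mpr
      push_cast
      linarith [h4.1]
    · exact Int.floor_le_floor h4.2
  have hWc : ∀ q ∈ Icc 1 N, ((W q).card : ℝ) ≤ 2 * T ^ 2 / (l * Q) + 2 * (Q / l) := by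
    intro q hq
    obtain ⟨hq1, hq2⟩ := mem_Icc.mp hq
    have hqR : (0 : ℝ) < q := by exact_mod_cast (by omega : 0 < q)
    have hqN : (q : ℝ) ≤ Q / l := by
      have : (q : ℝ) ≤ N := by exact_mod_cast hq2
      exact this.trans (Int.floor_le _)
    have h1 : (W q).card ≤ ((Ico (0 : ℤ) q) ×ˢ
        (Icc (-⌊T ^ 2 / (q * l * Q)⌋ - 1) ⌊T ^ 2 / (q * l * Q)⌋)).card := card_image_le
    rw [card_product, Int.card_Ico, Int.card_Icc] at h1
    set F := ⌊T ^ 2 / (q * l * Q)⌋ with hF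
    have hF0 : 0 ≤ F := Int.floor_nonneg.mpr (by positivity)
    have e1 : ((q - 0).toNat : ℝ) = q := by
      have : ((q - 0).toNat : ℤ) = q := by omega
      exact_mod_cast this
    have e2 : ((F + 1 - (-F - 1)).toNat : ℝ) = 2 * F + 2 := by
      have : ((F + 1 - (-F - 1)).toNat : ℤ) = 2 * F + 2 := by omega
      exact_mod_cast this
    have hFle : (F : ℝ) ≤ T ^ 2 / (q * l * Q) := Int.floor_le _
    calc ((W q).card : ℝ) ≤ ((q - 0).toNat : ℝ) * ((F + 1 - (-F - 1)).toNat : ℝ) := by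
          exact_mod_cast h1
      _ = q * (2 * F + 2) := by rw [e1, e2]
      _ ≤ q * (2 * (T ^ 2 / (q * l * Q)) + 2) := by gcongr
      _ = 2 * T ^ 2 / (l * Q) + 2 * q := by field_simp
      _ ≤ 2 * T ^ 2 / (l * Q) + 2 * (Q / l) := by gcongr
  have hN0 : (0 : ℤ) ≤ N := Int.floor_nonneg.mpr (by positivity)
  have hIc : ((Icc 1 N).card : ℝ) ≤ Q / l := by
    rw [Int.card_Icc]
    have : ((N + 1 - 1).toNat : ℝ) = N := by
      have : ((N + 1 - 1).toNat : ℤ) = N := by omega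
      exact_mod_cast this
    rw [this]
    exact Int.floor_le _
  have hkeys : ((S.image f).card : ℝ) ≤ 4 * T ^ 2 / l ^ 2 := by
    calc ((S.image f).card : ℝ) ≤ (((Icc 1 N).biUnion W).card : ℝ) := by
          exact_mod_cast card_le_card hsub
      _ ≤ ∑ q ∈ Icc 1 N, ((W q).card : ℝ) := by exact_mod_cast card_biUnion_le
      _ ≤ ∑ _q ∈ Icc 1 N, (2 * T ^ 2 / (l * Q) + 2 * (Q / l)) := sum_le_sum hWc
      _ = (Icc 1 N).card * (2 * T ^ 2 / (l * Q) + 2 * (Q / l)) := by rw [sum_const, nsmul_eq_mul]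
      _ ≤ (Q / l) * (2 * T ^ 2 / (l * Q) + 2 * (Q / l)) := by gcongr
      _ = 2 * T ^ 2 / l ^ 2 + 2 * Q ^ 2 / l ^ 2 := by field_simp
      _ ≤ 2 * T ^ 2 / l ^ 2 + 2 * T ^ 2 / l ^ 2 := by gcongr
      _ = 4 * T ^ 2 / l ^ 2 := by ring
  refine (card_le_real S f M0 ?_).trans (by gcongr)
  intro t ht
  obtain ⟨e0, he0, rfl⟩ := mem_image.mp ht
  apply hM e0 he0 _ (filter_subset _ _)
  intro e he
  obtain ⟨heS, hee⟩ := mem_filter.mp he
  simp only [hf, Prod.mk.injEq] at hee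
  obtain ⟨h1, h2, h3⟩ := hee
  obtain ⟨hq0, -, -⟩ := hfact e0 he0
  have hqR : (U.q e0.1 : ℝ) ≠ 0 := by exact_mod_cast hq0.ne'
  rw [h1] at h2
  have hdvd : U.q e0.1 ∣ U.p e.1 - U.p e0.1 := Int.ModEq.dvd h2.symm
  obtain ⟨k, hk⟩ := hdvd
  refine ⟨k, ?_⟩
  have h4 := Int.abs_sub_lt_one_of_floor_eq_floor h3
  rw [h1, ← mul_sub, abs_mul, abs_of_pos hT2] at h4
  have hkR : (U.p e.1 : ℝ) - U.p e0.1 = U.q e0.1 * k := by exact_mod_cast hk
  have e5 : √(e.1:ℝ) - (U.p e.1 : ℝ) / U.q e0.1 - (√(e0.1:ℝ) - (U.p e0.1 : ℝ) / U.q e0.1) =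
      √(e.1:ℝ) - √(e0.1:ℝ) - k := by
    have : (U.p e.1 : ℝ) / U.q e0.1 - (U.p e0.1 : ℝ) / U.q e0.1 = k := by
      rw [← sub_div, hkR]; field_simp
    linear_combination -this
  rw [e5] at h4
  rw [le_div_iff₀ hT2]
  linarith

/-- the solutions with a basis of index `j` at the coarse scale -/
theorem bal_count (hp : Par C H T) (hp' : Par C' (H * (T / Q) ^ 2) Q) (hQT : Q ≤ T) (U : Sys Q)
    (j : ℕ) (hA : 3 / 2 ≤ A) (hA2 : 2 * lam j ≤ A) (hAQ : 4 * A ≤ 3 * Q)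
    (S : Finset (ℤ × ℤ)) (hS : ∀ e ∈ S, Reg H T e.1 e.2) (hj : ∀ e ∈ S, U.j e.1 = j)
    (M0 : ℕ) (hM : ∀ e0 ∈ S, ∀ S' ⊆ S, (∀ e ∈ S', ∃ k : ℤ, |√(e.1:ℝ) - √(e0.1:ℝ) - k| ≤ 1 / T ^ 2) →
      S'.card ≤ M0) (g G Th R : ℕ) (hg2 : 2 ≤ g) (hG2 : 2 ≤ G) (hTh : 1 ≤ Th)
    (hR : 4 * (T / Q) ^ 2 ≤ R)
    (hpos : 36 * (16 * H / T ^ 4) * (2 * (4 * H * T ^ 2)) ^ 3 * (2 * Th / T ^ 2) ^ 3 +
      96 * (144 * H * T ^ 2 * A ^ 3 / Q ^ 3) ^ 3 * (72 * A ^ 3 / Q ^ 5) <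
      9 * (4 * H * T ^ 2) ^ 4 * ((g / 2) / T ^ 2) ^ 6)
    (hfar : 24 * (288 * H * T ^ 2 * A ^ 3 / Q ^ 3) ^ 3 *
      (9 * (2 * (4 * H * T ^ 2)) ^ 4 * (2 * Th / T ^ 2) ^ 6 +
      36 * (16 * H / T ^ 4) * (2 * (4 * H * T ^ 2)) ^ 3 * (2 * Th / T ^ 2) ^ 3 +
      96 * (144 * H * T ^ 2 * A ^ 3 / Q ^ 3) ^ 3 * (72 * A ^ 3 / Q ^ 5)) <
      9 * (4 * H * T ^ 2) ^ 4 * ((G / 2) / T ^ 2) ^ 6 -
      36 * (16 * H / T ^ 4) * (2 * (4 * H * T ^ 2)) ^ 3 * (8 / Q ^ 2) ^ 3 -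
      96 * (144 * H * T ^ 2 * A ^ 3 / Q ^ 3) ^ 3 * (72 * A ^ 3 / Q ^ 5)) :
    (S.card : ℝ) ≤ (5 * Q ^ 2) * (M0 * ((2 * R / Th + 1 : ℕ) * (3 * g) + 3 * G)) +
      ((2 * (1980 * (H * (T / Q) ^ 2 / Q) * A ^ 5) + 1) ^ 16 * (6 * (2 * (A * Q) + 1))) *
        (2 * (1980 * (H * (T / Q) ^ 2 / Q) * A ^ 5) + 1) ^ 3 := by
  classical
  have hQ2 := hp'.hQ2
  have hQ0 : 0 < Q := by linarith
  have hT0 : 0 < T := by linarith
  have hH := hp.hH
  have hA0 : 0 < A := by linarith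
  have hl : 0 < lam j := lam_pos j
  have hl2 : 1 / 2 ≤ lam j ^ 2 := lam_sq_ge j
  set b := 1980 * (H * (T / Q) ^ 2 / Q) * A ^ 5 with hb
  have hb0 : 0 ≤ b := by
    have : 0 < H := by linarith
    positivity
  set κ : ℤ × ℤ → ℤ × ℤ := fun e => (U.q e.1, U.q' e.1) with hκ
  set S1 := S.filter fun e => ¬ Bad b (U.q e.1) (U.q' e.1) with hS1
  set S2 := S.filter fun e => Bad b (U.q e.1) (U.q' e.1) with hS2
  have hsplit : (S.card : ℝ) = S1.card + S2.card := by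
    have := card_filter_add_card_filter_not (s := S) (fun e => Bad b (U.q e.1) (U.q' e.1))
    rw [hS1, hS2]
    rw [← this]
    push_cast
    ring
  have hmem : ∀ e ∈ S, Mem H T Q (lam j) (U.q e.1) (U.q' e.1) e (U.p e.1) (U.p' e.1) := by
    intro e he
    have := U.red e.1
    rw [hj e he] at this
    exact ⟨hS e he, this⟩
  have hqpos : ∀ e : ℤ × ℤ, 0 < U.q e.1 := fun e => U.qpos hp' e.1
  -- the good part
  have hgood : (S1.card : ℝ) ≤ (S1.image κ).card * (M0 * ((2 * R / Th + 1 : ℕ) * (3 * g) + 3 * G)) := by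
    apply card_le_real
    intro t ht
    obtain ⟨e0, he0, rfl⟩ := mem_image.mp ht
    have hnb := (mem_filter.mp he0).2
    have := good_key (C := C) (C' := C') hp hp' hQT hl hl2 hA hA2 (hqpos e0).ne'
      (S1.filter fun e => κ e = κ e0) (fun e => U.p e.1) (fun e => U.p' e.1)
      (q := U.q e0.1) (q' := U.q' e0.1) (by
        intro e he
        obtain ⟨h1, h2⟩ := mem_filter.mp he
        simp only [hκ, Prod.mk.injEq] at h2
        have := hmem e (mem_filter.mp h1).1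
        rw [h2.1, h2.2] at this
        exact this) M0 (by
        intro e1 he1 S' hS' hcl
        exact hM e1 (mem_filter.mp (mem_filter.mp he1).1).1 S'
          (hS'.trans ((filter_subset _ _).trans (filter_subset _ _))) hcl) g G Th R hg2 hG2 hTh hR
      hnb hpos hfar
    exact_mod_cast this
  have hkeys : ((S1.image κ).card : ℝ) ≤ 5 * Q ^ 2 := by
    have hsub : S1.image κ ⊆ Icc 1 ⌊Q / lam j⌋ ×ˢ Icc (-⌊2 * lam j * Q⌋) ⌊2 * lam j * Q⌋ := by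
      intro t ht
      obtain ⟨e, he, rfl⟩ := mem_image.mp ht
      have hred := (hmem e (mem_filter.mp he).1).red
      rw [mem_product]
      constructor
      · rw [mem_Icc]
        refine ⟨by have := hqpos e; simp only [hκ]; omega, ?_⟩
        apply Int.le_floor.mpr
        have h2 := hred.h2
        rw [abs_of_pos (by exact_mod_cast hqpos e)] at h2
        exact h2
      · exact mem_box hred.h4
    have h1 : ((S1.image κ).card : ℝ) ≤ ((Icc 1 ⌊Q / lam j⌋).card : ℝ) *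
        ((Icc (-⌊2 * lam j * Q⌋) ⌊2 * lam j * Q⌋).card : ℝ) := by
      have := card_le_card hsub
      rw [card_product] at this
      exact_mod_cast this
    have h2 : ((Icc 1 ⌊Q / lam j⌋).card : ℝ) ≤ Q / lam j := by
      have hN0 : (0 : ℤ) ≤ ⌊Q / lam j⌋ := Int.floor_nonneg.mpr (by positivity)
      rw [Int.card_Icc]
      have : ((⌊Q / lam j⌋ + 1 - 1).toNat : ℝ) = ⌊Q / lam j⌋ := by
        have : ((⌊Q / lam j⌋ + 1 - 1).toNat : ℤ) = ⌊Q / lam j⌋ := by omega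
        exact_mod_cast this
      rw [this]
      exact Int.floor_le _
    have h3 := card_box (2 * lam j * Q) (by positivity)
    have h4 := inv_l hl hl2
    calc ((S1.image κ).card : ℝ) ≤ (Q / lam j) * (2 * (2 * lam j * Q) + 1) := by
          refine h1.trans ?_
          gcongr
      _ = 4 * Q ^ 2 + Q * (1 / lam j) := by field_simp; ring
      _ ≤ 4 * Q ^ 2 + Q * (3 / 2) := by gcongr
      _ ≤ 5 * Q ^ 2 := by nlinarith
  -- the bad part
  have hbad : (S2.card : ℝ) ≤ (S2.image κ).card * (2 * b + 1) ^ 3 := by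
    apply card_le_real
    intro t ht
    obtain ⟨e0, he0, rfl⟩ := mem_image.mp ht
    have hfr : ∀ e ∈ S2.filter (fun e => κ e = κ e0),
        Fr (√(e.1 : ℝ)) Q A (U.p e.1) (U.q e0.1) (U.p' e.1) (U.q' e0.1) := by
      intro e he
      obtain ⟨h1, h2⟩ := mem_filter.mp he
      simp only [hκ, Prod.mk.injEq] at h2
      have := (hmem e (mem_filter.mp h1).1).red.fr hQ0 hl hl2 hA hA2
      rw [h2.1, h2.2] at this
      exact this
    refine few (q := U.q e0.1) (q' := U.q' e0.1) hp' hA0 (hqpos e0)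
      (S2.filter fun e => κ e = κ e0) (fun e => U.p e.1) (fun e => U.p' e.1) ?_ hfr ?_
    · intro e he
      exact (hS e (mem_filter.mp (mem_filter.mp he).1).1).scale hp hQ0 hQT
    · intro e he
      refine (hfr e he).b1.trans ?_
      rw [div_le_iff₀ hQ0]
      linarith
  have hbk : ((S2.image κ).card : ℝ) ≤ (2 * b + 1) ^ 16 * (6 * (2 * (A * Q) + 1)) := by
    have h1 := bad_count b hb0 (Icc (-⌊A * Q⌋) ⌊A * Q⌋) (S2.image κ) (by
      intro t ht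
      obtain ⟨e, he, rfl⟩ := mem_image.mp ht
      have := (hmem e (mem_filter.mp he).1).red.fr hQ0 hl hl2 hA hA2
      exact mem_product.mpr ⟨mem_box this.c1, mem_box this.c2⟩) (by
      intro t ht
      obtain ⟨e, he, rfl⟩ := mem_image.mp ht
      exact (mem_filter.mp he).2)
    refine h1.trans ?_
    have := card_box (A * Q) (by positivity)
    gcongr
  rw [hsplit]
  have hpos1 : (0 : ℝ) ≤ M0 * ((2 * R / Th + 1 : ℕ) * (3 * g) + 3 * G) := by positivity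
  have hpos2 : (0 : ℝ) ≤ (2 * b + 1) ^ 3 := by positivity
  have f1 : (S1.card : ℝ) ≤ (5 * Q ^ 2) * (M0 * ((2 * R / Th + 1 : ℕ) * (3 * g) + 3 * G)) :=
    hgood.trans (mul_le_mul_of_nonneg_right hkeys hpos1)
  have f2 : (S2.card : ℝ) ≤ ((2 * b + 1) ^ 16 * (6 * (2 * (A * Q) + 1))) * (2 * b + 1) ^ 3 :=
    hbad.trans (mul_le_mul_of_nonneg_right hbk hpos2)
  linarith

end

end Pool.Agent.Helper6.HC
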