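import Pool.Agent.Helper6.HC.Bounds

set_option autoImplicit false

namespace Pool.Agent.Helper6.HC

/-- a basis with the same bounds for both vectors -/
structure Fr (s Q A : ℝ) (p q p' q' : ℤ) : Prop where
  det : p * q' - p' * q = 1
  b1 : |(p : ℝ) - q * s| ≤ A / Q
  c1 : |(q : ℝ)| ≤ A * Q
  b2 : |(p' : ℝ) - q' * s| ≤ A / Q
  c2 : |(q' : ℝ)| ≤ A * Q

theorem Red.fr {s Q l A : ℝ} {p q p' q' : ℤ} (h : Red s Q l p q p' q') (hQ : 0 < Q) (hl : 0 < l)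
    (hl2 : 1 / 2 ≤ l ^ 2) (hA : 3 / 2 ≤ A) (hA2 : 2 * l ≤ A) : Fr s Q A p q p' q' := by
  have h1 := inv_l hl hl2
  refine ⟨h.det, ?_, ?_, ?_, ?_⟩
  · refine h.h1.trans ?_
    have : 1 / (l * Q) = 1 / l / Q := by
      have : Q ≠ 0 := hQ.ne'
      field_simp
    rw [this]
    gcongr
    linarith
  · refine h.h2.trans ?_
    have : Q / l = (1 / l) * Q := by ring
    rw [this]
    gcongr
    linarith
  · refine h.h3.trans ?_
    gcongr
  · refine h.h4.trans ?_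
    gcongr

theorem Fr.shift {s s0 Q A : ℝ} {p q p' q' k : ℤ} (h : Fr s0 Q A p q p' q') (hQ : 0 < Q)
    (hA : 0 ≤ A) (hk : |s - s0 - k| ≤ 1 / Q ^ 2) :
    Fr s Q (2 * A) (p + k * q) q (p' + k * q') q' := by
  have hb : ∀ r : ℝ, |r| ≤ A * Q → |r * (s - s0 - k)| ≤ A / Q := by
    intro r hr
    rw [abs_mul]
    calc |r| * |s - s0 - k| ≤ (A * Q) * (1 / Q ^ 2) := by gcongr
      _ = A / Q := by field_simp
  refine ⟨by linear_combination h.det, ?_, ?_, ?_, ?_⟩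
  · push_cast
    have e : (p : ℝ) + k * q - q * s = (p - q * s0) - q * (s - s0 - k) := by ring
    rw [e]
    refine (abs_sub _ _).trans ?_
    have := hb q h.c1
    have := h.b1
    have e2 : 2 * A / Q = A / Q + A / Q := by ring
    linarith
  · refine h.c1.trans ?_
    gcongr
    linarith
  · push_cast
    have e : (p' : ℝ) + k * q' - q' * s = (p' - q' * s0) - q' * (s - s0 - k) := by ring
    rw [e]
    refine (abs_sub _ _).trans ?_
    have := hb q' h.c2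
    have := h.b2
    have e2 : 2 * A / Q = A / Q + A / Q := by ring
    linarith
  · refine h.c2.trans ?_
    gcongr
    linarith

section
variable {C H Q A : ℝ} {x y x1 y1 p q p' q' p1 p1' : ℤ}

theorem Fr.G (hp : Par C H Q) (hr : Reg H Q x y) (h : Fr (√(x : ℝ)) Q A p q p' q') :
    |((G0 x y p q : ℤ) : ℝ)| ≤ 33 * H * A ^ 4 ∧ |((G1 x y p q p' q' : ℤ) : ℝ)| ≤ 33 * H * A ^ 4 ∧
    |((G2 x y p q p' q' : ℤ) : ℝ)| ≤ 33 * H * A ^ 4 ∧
    |((G1 x y p' q' p q : ℤ) : ℝ)| ≤ 33 * H * A ^ 4 ∧ |((G0 x y p' q' : ℤ) : ℝ)| ≤ 33 * H * A ^ 4 := by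
  have B1 := h.b1
  have D1 := h.c1
  have B2 := h.b2
  have D2 := h.c2
  have hx := (xy_eq hp hr).1
  have hy := (xy_eq hp hr).2
  have eA : (33 : ℝ) * H * A ^ 4 = 33 * H * (A * A * A * A) := by ring
  rw [eA]
  refine ⟨?_, ?_, ?_, ?_, ?_⟩
  · have e : G0 (x : ℝ) y (p : ℝ) q = G0 (√(x:ℝ) ^ 2) (√(x:ℝ) ^ 3 + (y - √(x:ℝ) ^ 3)) (p : ℝ) q := by
      rw [← hx, ← hy]
    rw [G0_cast, e, G0_pol]
    exact bound_aux hp hr _ _ _ _ _ _ _ _ _ _ _ _ B1 D1 B1 D1 B1 D1 B1 D1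
  · have e : G1 (x : ℝ) y (p : ℝ) q p' q' =
      G1 (√(x:ℝ) ^ 2) (√(x:ℝ) ^ 3 + (y - √(x:ℝ) ^ 3)) (p : ℝ) q p' q' := by
      rw [← hx, ← hy]
    rw [G1_cast, e, G1_pol]
    exact bound_aux hp hr _ _ _ _ _ _ _ _ _ _ _ _ B1 D1 B1 D1 B1 D1 B2 D2
  · have e : G2 (x : ℝ) y (p : ℝ) q p' q' =
      G2 (√(x:ℝ) ^ 2) (√(x:ℝ) ^ 3 + (y - √(x:ℝ) ^ 3)) (p : ℝ) q p' q' := by
      rw [← hx, ← hy]
    rw [G2_cast, e, G2_pol]
    exact bound_aux hp hr _ _ _ _ _ _ _ _ _ _ _ _ B1 D1 B1 D1 B2 D2 B2 D2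
  · have e : G1 (x : ℝ) y (p' : ℝ) q' p q =
      G1 (√(x:ℝ) ^ 2) (√(x:ℝ) ^ 3 + (y - √(x:ℝ) ^ 3)) (p' : ℝ) q' p q := by
      rw [← hx, ← hy]
    rw [G1_cast, e, G1_pol]
    exact bound_aux hp hr _ _ _ _ _ _ _ _ _ _ _ _ B2 D2 B2 D2 B2 D2 B1 D1
  · have e : G0 (x : ℝ) y (p' : ℝ) q' = G0 (√(x:ℝ) ^ 2) (√(x:ℝ) ^ 3 + (y - √(x:ℝ) ^ 3)) (p' : ℝ) q' := by
      rw [← hx, ← hy]
    rw [G0_cast, e, G0_pol]
    exact bound_aux hp hr _ _ _ _ _ _ _ _ _ _ _ _ B2 D2 B2 D2 B2 D2 B2 D2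

/-- one of the last coordinates is not small -/
theorem Fr.big (h : Fr (√(x : ℝ)) Q A p q p' q') (hQ : 0 < Q) (hA : 0 < A) :
    Q / (2 * A) ≤ |(q : ℝ)| ∨ Q / (2 * A) ≤ |(q' : ℝ)| := by
  by_contra hc
  push Not at hc
  obtain ⟨h1, h2⟩ := hc
  have hdet : (p : ℝ) * q' - p' * q = 1 := by exact_mod_cast h.det
  have e : (1 : ℝ) = q' * (p - q * √(x:ℝ)) - q * (p' - q' * √(x:ℝ)) := by linear_combination -hdet
  have h3 : |(q' : ℝ) * (p - q * √(x:ℝ))| < 1 / 2 := by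
    rw [abs_mul]
    calc |(q' : ℝ)| * |(p : ℝ) - q * √(x:ℝ)| ≤ |(q' : ℝ)| * (A / Q) := by
          gcongr; exact h.b1
      _ < Q / (2 * A) * (A / Q) := by gcongr
      _ = 1 / 2 := by field_simp
  have h4 : |(q : ℝ) * (p' - q' * √(x:ℝ))| < 1 / 2 := by
    rw [abs_mul]
    calc |(q : ℝ)| * |(p' : ℝ) - q' * √(x:ℝ)| ≤ |(q : ℝ)| * (A / Q) := by
          gcongr; exact h.b2
      _ < Q / (2 * A) * (A / Q) := by gcongr
      _ = 1 / 2 := by field_simp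
  have h5 : |(1 : ℝ)| < 1 := by
    calc |(1 : ℝ)| = |q' * (p - q * √(x:ℝ)) - q * (p' - q' * √(x:ℝ))| := by rw [← e]
      _ ≤ |(q' : ℝ) * (p - q * √(x:ℝ))| + |(q : ℝ) * (p' - q' * √(x:ℝ))| := abs_sub _ _
      _ < 1 := by linarith
  simp at h5

/-- division by the linear form -/
theorem divide4 (q q' h0 h1 h2 h3 h4 : ℤ) (hq : q ≠ 0) (hc : IsCoprime q q')
    (h : h0 * q' ^ 4 - 4 * h1 * q' ^ 3 * q + 6 * h2 * q' ^ 2 * q ^ 2 - 4 * h3 * q' * q ^ 3 +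
      h4 * q ^ 4 = 0) :
    ∃ r0 r1 r2 r3 : ℤ, h0 = q * r0 ∧ 4 * h1 = q * r1 + q' * r0 ∧ 6 * h2 = q * r2 + q' * r1 ∧
      4 * h3 = q * r3 + q' * r2 ∧ h4 = q' * r3 := by
  have d0 : q ∣ h0 := by
    have : q ∣ q' ^ 4 * h0 :=
      ⟨4 * h1 * q' ^ 3 - 6 * h2 * q' ^ 2 * q + 4 * h3 * q' * q ^ 2 - h4 * q ^ 3,
        by linear_combination h⟩
    exact (hc.pow_right (n := 4)).dvd_of_dvd_mul_left this
  obtain ⟨r0, e0⟩ := d0
  have k1 : q' ^ 3 * (r0 * q' - 4 * h1) + q * (6 * h2 * q' ^ 2 - 4 * h3 * q' * q + h4 * q ^ 2) = 0 := by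
    have : q * (q' ^ 3 * (r0 * q' - 4 * h1) +
        q * (6 * h2 * q' ^ 2 - 4 * h3 * q' * q + h4 * q ^ 2)) = 0 := by
      rw [e0] at h
      linear_combination h
    exact (mul_eq_zero.mp this).resolve_left hq
  have d1 : q ∣ 4 * h1 - q' * r0 := by
    have : q ∣ q' ^ 3 * (4 * h1 - q' * r0) :=
      ⟨6 * h2 * q' ^ 2 - 4 * h3 * q' * q + h4 * q ^ 2, by linear_combination -k1⟩
    exact (hc.pow_right (n := 3)).dvd_of_dvd_mul_left this
  obtain ⟨r1, e1⟩ := d1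
  have k2 : q' ^ 2 * (6 * h2 - q' * r1) + q * (-4 * h3 * q' + h4 * q) = 0 := by
    have : q * (q' ^ 2 * (6 * h2 - q' * r1) + q * (-4 * h3 * q' + h4 * q)) = 0 := by
      linear_combination k1 + q' ^ 3 * e1
    exact (mul_eq_zero.mp this).resolve_left hq
  have d2 : q ∣ 6 * h2 - q' * r1 := by
    have : q ∣ q' ^ 2 * (6 * h2 - q' * r1) := ⟨4 * h3 * q' - h4 * q, by linear_combination k2⟩
    exact (hc.pow_right (n := 2)).dvd_of_dvd_mul_left this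
  obtain ⟨r2, e2⟩ := d2
  have k3 : q' * (q' * r2 - 4 * h3) + q * h4 = 0 := by
    have : q * (q' * (q' * r2 - 4 * h3) + q * h4) = 0 := by
      linear_combination k2 - q' ^ 2 * e2
    exact (mul_eq_zero.mp this).resolve_left hq
  have d3 : q ∣ 4 * h3 - q' * r2 := by
    have : q ∣ q' * (4 * h3 - q' * r2) := ⟨h4, by linear_combination -k3⟩
    exact hc.dvd_of_dvd_mul_left this
  obtain ⟨r3, e3⟩ := d3
  refine ⟨r0, r1, r2, r3, e0, by linarith, by linarith, by linarith, ?_⟩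
  have : q * (h4 - q' * r3) = 0 := by linear_combination k3 + q' * e3
  have := (mul_eq_zero.mp this).resolve_left hq
  linarith

/-- the relations between two solutions with the same second row -/
structure Rel (x y p p' x1 y1 p1 p1' q q' r0 r1 r2 r3 : ℤ) : Prop where
  e0 : G0 x y p q - G0 x1 y1 p1 q = q * r0
  e1 : 4 * (G1 x y p q p' q' - G1 x1 y1 p1 q p1' q') = q * r1 + q' * r0
  e2 : 6 * (G2 x y p q p' q' - G2 x1 y1 p1 q p1' q') = q * r2 + q' * r1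
  e3 : 4 * (G1 x y p' q' p q - G1 x1 y1 p1' q' p1 q) = q * r3 + q' * r2
  e4 : G0 x y p' q' - G0 x1 y1 p1' q' = q' * r3

theorem exists_rel (hq : q ≠ 0) (hd : p * q' - p' * q = 1) (hd1 : p1 * q' - p1' * q = 1) :
    ∃ r0 r1 r2 r3 : ℤ, Rel x y p p' x1 y1 p1 p1' q q' r0 r1 r2 r3 := by
  have rel := G_rel x y p q p' q'
  have rel1 := G_rel x1 y1 p1 q p1' q'
  rw [hd] at rel
  rw [hd1] at rel1
  have hcop : IsCoprime q q' := ⟨-p', p, by linear_combination hd⟩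
  obtain ⟨r0, r1, r2, r3, e0, e1, e2, e3, e4⟩ := divide4 q q' (G0 x y p q - G0 x1 y1 p1 q)
    (G1 x y p q p' q' - G1 x1 y1 p1 q p1' q')
    (G2 x y p q p' q' - G2 x1 y1 p1 q p1' q') (G1 x y p' q' p q - G1 x1 y1 p1' q' p1 q)
    (G0 x y p' q' - G0 x1 y1 p1' q') hq hcop (by linear_combination rel - rel1)
  exact ⟨r0, r1, r2, r3, e0, e1, e2, e3, e4⟩

theorem Rel.bound {r0 r1 r2 r3 : ℤ} (hR : Rel x y p p' x1 y1 p1 p1' q q' r0 r1 r2 r3)
    (hp : Par C H Q) (hr : Reg H Q x y) (hr1 : Reg H Q x1 y1) (hA : 0 < A)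
    (hf : Fr (√(x : ℝ)) Q A p q p' q') (hf1 : Fr (√(x1 : ℝ)) Q A p1 q p1' q') :
    |(r0 : ℝ)| ≤ 1980 * (H / Q) * A ^ 5 ∧ |(r1 : ℝ)| ≤ 1980 * (H / Q) * A ^ 5 ∧
    |(r2 : ℝ)| ≤ 1980 * (H / Q) * A ^ 5 ∧ |(r3 : ℝ)| ≤ 1980 * (H / Q) * A ^ 5 := by
  have hQ : 0 < Q := by linarith [hp.hQ2]
  have hH : 0 < H := by linarith [hp.hH]
  obtain ⟨a0, a1, a2, a3, a4⟩ := hf.G hp hr
  obtain ⟨b0, b1, b2, b3, b4⟩ := hf1.G hp hr1
  have hsub : ∀ {a b c : ℝ}, |a| ≤ c → |b| ≤ c → |a - b| ≤ 2 * c := by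
    intro a b c h1 h2
    have := abs_sub a b
    linarith
  set M := 33 * H * A ^ 4 with hM
  have hM0 : 0 < M := by positivity
  have c0 := hsub a0 b0
  have c1 := hsub a1 b1
  have c2 := hsub a2 b2
  have c3 := hsub a3 b3
  have c4 := hsub a4 b4
  have E0 : ((G0 x y p q : ℤ) : ℝ) - ((G0 x1 y1 p1 q : ℤ) : ℝ) = q * r0 := by exact_mod_cast hR.e0
  have E1 : 4 * (((G1 x y p q p' q' : ℤ) : ℝ) - ((G1 x1 y1 p1 q p1' q' : ℤ) : ℝ)) =
      q * r1 + q' * r0 := by exact_mod_cast hR.e1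
  have E2 : 6 * (((G2 x y p q p' q' : ℤ) : ℝ) - ((G2 x1 y1 p1 q p1' q' : ℤ) : ℝ)) =
      q * r2 + q' * r1 := by exact_mod_cast hR.e2
  have E3 : 4 * (((G1 x y p' q' p q : ℤ) : ℝ) - ((G1 x1 y1 p1' q' p1 q : ℤ) : ℝ)) =
      q * r3 + q' * r2 := by exact_mod_cast hR.e3
  have E4 : ((G0 x y p' q' : ℤ) : ℝ) - ((G0 x1 y1 p1' q' : ℤ) : ℝ) = q' * r3 := by
    exact_mod_cast hR.e4
  rw [E0] at c0
  rw [E4] at c4
  have c1' : |(q : ℝ) * r1 + q' * r0| ≤ 8 * M := by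
    rw [← E1, abs_mul, abs_of_pos (by norm_num : (0:ℝ) < 4)]; linarith
  have c2' : |(q : ℝ) * r2 + q' * r1| ≤ 12 * M := by
    rw [← E2, abs_mul, abs_of_pos (by norm_num : (0:ℝ) < 6)]; linarith
  have c3' : |(q : ℝ) * r3 + q' * r2| ≤ 8 * M := by
    rw [← E3, abs_mul, abs_of_pos (by norm_num : (0:ℝ) < 4)]; linarith
  -- a general step
  have step : ∀ {a b r t K L : ℝ}, |a * r + b * t| ≤ K → |b| ≤ |a| → |a| * |t| ≤ L →
      |a| * |r| ≤ K + L := by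
    intro a b r t K L k1 k2 k3
    have e : a * r = (a * r + b * t) - b * t := by ring
    rw [← abs_mul, e]
    refine (abs_sub _ _).trans ?_
    have : |b * t| ≤ L := by
      rw [abs_mul]
      calc |b| * |t| ≤ |a| * |t| := by gcongr
        _ ≤ L := k3
    linarith
  have fin : ∀ {a r : ℝ}, Q / (2 * A) ≤ |a| → |a| * |r| ≤ 30 * M → |r| ≤ 1980 * (H / Q) * A ^ 5 := by
    intro a r k1 k2
    have k3 : Q / (2 * A) * |r| ≤ 30 * M := le_trans (by gcongr) k2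
    have k4 : |r| = (2 * A / Q) * (Q / (2 * A) * |r|) := by field_simp
    rw [k4]
    calc (2 * A / Q) * (Q / (2 * A) * |r|) ≤ (2 * A / Q) * (30 * M) := by gcongr
      _ = 1980 * (H / Q) * A ^ 5 := by rw [hM]; ring
  rcases le_total |(q' : ℝ)| |(q : ℝ)| with hqq | hqq
  · have hbig : Q / (2 * A) ≤ |(q : ℝ)| := by
      rcases hf.big hQ hA with h | h
      · exact h
      · exact h.trans hqq
    have s0 : |(q : ℝ)| * |(r0 : ℝ)| ≤ 2 * M := by rw [← abs_mul]; exact c0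
    have s1 := step c1' hqq s0
    have s2 := step c2' hqq s1
    have s3 := step c3' hqq s2
    exact ⟨fin hbig (by linarith), fin hbig (by linarith), fin hbig (by linarith),
      fin hbig (by linarith)⟩
  · have hbig : Q / (2 * A) ≤ |(q' : ℝ)| := by
      rcases hf.big hQ hA with h | h
      · exact h.trans hqq
      · exact h
    have s3 : |(q' : ℝ)| * |(r3 : ℝ)| ≤ 2 * M := by rw [← abs_mul]; exact c4
    have c3'' : |(q' : ℝ) * r2 + q * r3| ≤ 8 * M := by rw [add_comm]; exact c3'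
    have c2'' : |(q' : ℝ) * r1 + q * r2| ≤ 12 * M := by rw [add_comm]; exact c2'
    have c1'' : |(q' : ℝ) * r0 + q * r1| ≤ 8 * M := by rw [add_comm]; exact c1'
    have s2 := step c3'' hqq s3
    have s1 := step c2'' hqq s2
    have s0 := step c1'' hqq s1
    exact ⟨fin hbig (by linarith), fin hbig (by linarith), fin hbig (by linarith),
      fin hbig (by linarith)⟩

/-- the Hessian covariant -/
def Hs (r0 r1 r2 r3 q q' : ℤ) : ℤ :=
  q ^ 2 * (r2 ^ 2 - 3 * r1 * r3) + q * q' * (9 * r0 * r3 - r1 * r2) + q' ^ 2 * (r1 ^ 2 - 3 * r0 * r2)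

/-- the linear functional of a solution -/
def phi (x y p q p' q' : ℤ) : Fin 4 → ℤ :=
  ![G0 x y p' q' * q - G1 x y p' q' p q * q', G2 x y p q p' q' * q' - G1 x y p' q' p q * q,
    G2 x y p q p' q' * q - G1 x y p q p' q' * q', G0 x y p q * q' - G1 x y p q p' q' * q]

theorem Rel.eqn {r0 r1 r2 r3 : ℤ} (hR : Rel x y p p' x1 y1 p1 p1' q q' r0 r1 r2 r3) :
    12 * (r0 * phi x1 y1 p1 q p1' q' 0 + r1 * phi x1 y1 p1 q p1' q' 1 +
      r2 * phi x1 y1 p1 q p1' q' 2 + r3 * phi x1 y1 p1 q p1' q' 3) + Hs r0 r1 r2 r3 q q' = 0 := by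
  have I := G_I x y p q p' q'
  have I1 := G_I x1 y1 p1 q p1' q'
  obtain ⟨e0, e1, e2, e3, e4⟩ := hR
  simp only [phi, Matrix.cons_val_zero, Matrix.cons_val_one, Matrix.cons_val, Hs]
  generalize G0 x y p q = a0 at *
  generalize G1 x y p q p' q' = a1 at *
  generalize G2 x y p q p' q' = a2 at *
  generalize G1 x y p' q' p q = a3 at *
  generalize G0 x y p' q' = a4 at *
  generalize G0 x1 y1 p1 q = b0 at *
  generalize G1 x1 y1 p1 q p1' q' = b1 at *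
  generalize G2 x1 y1 p1 q p1' q' = b2 at *
  generalize G1 x1 y1 p1' q' p1 q = b3 at *
  generalize G0 x1 y1 p1' q' = b4 at *
  have f0 : a0 = b0 + q * r0 := by linarith
  have f4 : a4 = b4 + q' * r3 := by linarith
  subst f0 f4
  have g1 : 4 * a1 = 4 * b1 + q * r1 + q' * r0 := by linarith
  have g2 : 6 * a2 = 6 * b2 + q * r2 + q' * r1 := by linarith
  have g3 : 4 * a3 = 4 * b3 + q * r3 + q' * r2 := by linarith
  have k13 : 16 * (a1 * a3) = (4 * b1 + q * r1 + q' * r0) * (4 * b3 + q * r3 + q' * r2) := by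
    rw [← g1, ← g3]; ring
  have k22 : 36 * a2 ^ 2 = (6 * b2 + q * r2 + q' * r1) ^ 2 := by
    rw [← g2]; ring
  linear_combination 12 * I - 12 * I1 + 3 * k13 - k22

/-- the normalisation -/
theorem phi_w (hd : p * q' - p' * q = 1) :
    q ^ 3 * phi x y p q p' q' 0 + 3 * q ^ 2 * q' * phi x y p q p' q' 1 +
      3 * q * q' ^ 2 * phi x y p q p' q' 2 + q' ^ 3 * phi x y p q p' q' 3 = 1 := by
  have rel := G_rel x y p q p' q'
  rw [hd] at rel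
  simp only [phi, Matrix.cons_val_zero, Matrix.cons_val_one, Matrix.cons_val]
  linear_combination rel

end

end Pool.Agent.Helper6.HC
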