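import Mathlib

set_option autoImplicit false

open Finset

namespace Pool.Agent.Helper6.HCDiv

theorem prime_pow_aux (ε : ℝ) (hε : 0 < ε) : ∃ C : ℝ, 1 ≤ C ∧ ∀ p : ℕ, 2 ≤ p → ∀ v : ℕ,
    (v : ℝ) + 1 ≤ C * ((p : ℝ) ^ v) ^ ε := by
  set c := ε * Real.log 2 with hc
  have hl2 : 0 < Real.log 2 := Real.log_pos (by norm_num)
  have hc0 : 0 < c := by positivity
  refine ⟨max 1 (1 / c), le_max_left _ _, ?_⟩
  intro p hp v
  have hp' : (2:ℝ) ≤ p := by exact_mod_cast hp
  have h1 : ((2:ℝ) ^ v) ^ ε ≤ ((p:ℝ) ^ v) ^ ε := by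
    apply Real.rpow_le_rpow (by positivity) _ hε.le
    exact pow_le_pow_left₀ (by norm_num) hp' v
  have h2 : 1 + v * c ≤ ((2:ℝ) ^ v) ^ ε := by
    have : ((2:ℝ) ^ v) ^ ε = Real.exp (v * c) := by
      rw [← Real.rpow_natCast, ← Real.rpow_mul (by norm_num), Real.rpow_def_of_pos (by norm_num)]
      congr 1; rw [hc]; ring
    rw [this]
    have := Real.add_one_le_exp (v * c)
    linarith
  have hC : (1:ℝ) ≤ max 1 (1 / c) := le_max_left _ _
  have hC2 : 1 / c ≤ max 1 (1 / c) := le_max_right _ _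
  calc (v : ℝ) + 1 = 1 + v * c * (1 / c) := by field_simp; ring
    _ ≤ max 1 (1/c) * 1 + v * c * max 1 (1 / c) := by
        have : (0:ℝ) ≤ v * c := by positivity
        have := mul_le_mul_of_nonneg_left hC2 this
        linarith
    _ = max 1 (1/c) * (1 + v * c) := by ring
    _ ≤ max 1 (1/c) * ((p:ℝ) ^ v) ^ ε := by
        apply mul_le_mul_of_nonneg_left (h2.trans h1) (by positivity)

/-- divisor bound -/
theorem divisor_bound (ε : ℝ) (hε : 0 < ε) :
    ∃ C : ℝ, 0 < C ∧ ∀ n : ℕ, 1 ≤ n → (n.divisors.card : ℝ) ≤ C * (n : ℝ) ^ ε := by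
  classical
  obtain ⟨C, hC1, hC⟩ := prime_pow_aux ε hε
  obtain ⟨P, hP⟩ := exists_nat_ge ((2:ℝ) ^ (1/ε))
  refine ⟨C ^ P, by positivity, ?_⟩
  intro n hn
  have hn0 : n ≠ 0 := by omega
  rw [Nat.card_divisors hn0]
  push_cast
  have hnprod : (n:ℝ) ^ ε = ∏ p ∈ n.primeFactors, ((p:ℝ) ^ (n.factorization p)) ^ ε := by
    rw [Real.finsetProd_rpow _ _ (fun p _ => by positivity)]
    congr 1
    conv_lhs => rw [← Nat.prod_factorization_pow_eq_self hn0]
    rw [Finsupp.prod]
    push_cast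
    rfl
  have hterm : ∀ p ∈ n.primeFactors, ((n.factorization p : ℝ) + 1) ≤
      (if p < P then C else 1) * ((p:ℝ) ^ (n.factorization p)) ^ ε := by
    intro p hp
    have hpp := Nat.prime_of_mem_primeFactors hp
    split_ifs with h
    · exact hC p hpp.two_le _
    · push Not at h
      have h1 : (2:ℝ) ^ (1/ε) ≤ p := hP.trans (by exact_mod_cast h)
      have h2 : (2:ℝ) ≤ (p:ℝ) ^ ε := by
        have := Real.rpow_le_rpow (by positivity) h1 hε.le
        rwa [← Real.rpow_mul (by norm_num), one_div_mul_cancel hε.ne', Real.rpow_one] at this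
      have h3 : ((p:ℝ) ^ (n.factorization p)) ^ ε = ((p:ℝ) ^ ε) ^ (n.factorization p) := by
        rw [← Real.rpow_natCast, ← Real.rpow_natCast, ← Real.rpow_mul (by positivity),
          ← Real.rpow_mul (by positivity), mul_comm]
      rw [one_mul, h3]
      have h4 : ((n.factorization p : ℝ) + 1) ≤ 2 ^ (n.factorization p) := by
        exact_mod_cast Nat.lt_two_pow_self
      exact h4.trans (pow_le_pow_left₀ (by norm_num) h2 _)
  calc ∏ p ∈ n.primeFactors, ((n.factorization p : ℝ) + 1)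
      ≤ ∏ p ∈ n.primeFactors, ((if p < P then C else 1) * ((p:ℝ) ^ (n.factorization p)) ^ ε) :=
        Finset.prod_le_prod (fun p _ => by positivity) hterm
    _ = (∏ p ∈ n.primeFactors, (if p < P then C else 1)) * (n:ℝ) ^ ε := by
        rw [Finset.prod_mul_distrib, hnprod]
    _ ≤ C ^ P * (n:ℝ) ^ ε := by
        apply mul_le_mul_of_nonneg_right _ (by positivity)
        rw [← Finset.prod_filter, Finset.prod_const]
        apply pow_le_pow_right₀ hC1
        calc _ ≤ (Finset.range P).card := Finset.card_le_card (by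
              intro p hp; rw [Finset.mem_filter] at hp; exact Finset.mem_range.mpr hp.2)
          _ = P := Finset.card_range P

end Pool.Agent.Helper6.HCDiv
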