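import Pool.Agent.Helper6.HC.Diff
import Pool.Agent.Helper6.HC.Cases

set_option autoImplicit false

open Finset

namespace Pool.Agent.Helper6.HC

section
variable {C H Q A : ℝ} {x y p q p' q' : ℤ}

theorem f_ne' (hp : Par C H Q) (hr : Reg H Q x y) (hq0 : 0 < q) (hcop : IsCoprime p q)
    (hu : |(p : ℝ) - q * √(x : ℝ)| ≤ 3 / 4) : p ^ 3 - 3 * x * p * q ^ 2 + 2 * y * q ^ 3 ≠ 0 := by
  intro hf
  have hq1 : q = 1 := by
    have : q ∣ p ^ 3 := ⟨3 * x * p * q - 2 * y * q ^ 2, by linear_combination hf⟩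
    have h1 : q ∣ 1 := (hcop.symm.pow_right (n := 3)).dvd_of_dvd_mul_left (by simpa using this)
    have := Int.le_of_dvd one_pos h1
    omega
  subst hq1
  have h4k : 4 * (x ^ 3 - y ^ 2) = (x - p ^ 2) ^ 2 * (4 * x - p ^ 2) := by
    linear_combination (-2 * y + p ^ 3 - 3 * x * p) * hf
  have hne : x - p ^ 2 ≠ 0 := by
    intro h0
    rw [h0] at h4k
    have := hr.ne
    apply this
    have : 4 * (x ^ 3 - y ^ 2) = 0 := by rw [h4k]; ring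
    omega
  have h1 : (1 : ℝ) ≤ ((x : ℝ) - p ^ 2) ^ 2 := by
    have : (1 : ℤ) ≤ (x - p ^ 2) ^ 2 := by
      have : 0 < (x - p ^ 2) ^ 2 := by positivity
      omega
    exact_mod_cast this
  have h4kR : 4 * ((x : ℝ) ^ 3 - y ^ 2) = (x - p ^ 2) ^ 2 * (4 * x - p ^ 2) := by
    exact_mod_cast h4k
  have hs := hr.spos hp
  have hss := hr.ssq hp
  have hs1 := hr.s1
  have hH := hp.hH
  have hQ2 := hp.hQ2
  set s := √(x : ℝ) with hsdef
  have hs4 : 4 ≤ s := by nlinarith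
  push_cast at hu
  have hu2 := abs_le.mp hu
  have hp0 : 0 ≤ (p : ℝ) := by linarith [hu2.1]
  have hple : (p : ℝ) ≤ 5 / 4 * s := by linarith [hu2.2]
  have hp2 : (p : ℝ) ^ 2 ≤ 25 / 16 * s ^ 2 := by nlinarith
  have h5 : s ^ 2 ≤ 4 * x - (p : ℝ) ^ 2 := by rw [← hss]; nlinarith
  have h6 : s ^ 2 ≤ 4 * H ^ 3 := by
    have h7 : (4 * ((x : ℝ) ^ 3 - y ^ 2)) ≤ 4 * H ^ 3 := by
      have := le_abs_self ((x : ℝ) ^ 3 - y ^ 2)
      linarith [hr.k]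
    rw [h4kR] at h7
    have h8 : 0 ≤ s ^ 2 := by positivity
    nlinarith
  have h9 : (H * Q ^ 2) ^ 2 ≤ s ^ 2 := by gcongr
  have h10 : H ^ 2 * (Q ^ 4) ≤ H ^ 2 * (4 * H) := by nlinarith
  have h11 : Q ^ 4 ≤ 4 * H := le_of_mul_le_mul_left h10 (by positivity)
  have h12 : Q ^ 4 ≤ 4 * (C * Q) := by linarith [hp.hHQ]
  have h13 : Q ^ 3 ≤ 4 * C := by
    have : Q * Q ^ 3 ≤ Q * (4 * C) := by nlinarith
    exact le_of_mul_le_mul_left this (by positivity)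
  linarith [hp.hQ]

/-- few solutions have a basis with a given second row -/
theorem few (hp : Par C H Q) (hA : 0 < A) (hq : 0 < q) (S : Finset (ℤ × ℤ))
    (P P' : ℤ × ℤ → ℤ) (hreg : ∀ e ∈ S, Reg H Q e.1 e.2)
    (hfr : ∀ e ∈ S, Fr (√(e.1 : ℝ)) Q A (P e) q (P' e) q')
    (hu : ∀ e ∈ S, |(P e : ℝ) - q * √(e.1 : ℝ)| ≤ 3 / 4) :
    (S.card : ℝ) ≤ (2 * (1980 * (H / Q) * A ^ 5) + 1) ^ 3 := by
  classical
  have hQ : 0 < Q := by linarith [hp.hQ2]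
  have hH : 0 < H := by linarith [hp.hH]
  set b := 1980 * (H / Q) * A ^ 5 with hb
  have hb0 : 0 ≤ b := by positivity
  rcases S.eq_empty_or_nonempty with rfl | ⟨e0, he0⟩
  · simp only [card_empty, Nat.cast_zero]
    positivity
  have hrel : ∀ e ∈ S, ∃ r : ℤ × ℤ × ℤ, ∃ r3 : ℤ,
      Rel e.1 e.2 (P e) (P' e) e0.1 e0.2 (P e0) (P' e0) q q' r.1 r.2.1 r.2.2 r3 := by
    intro e he
    obtain ⟨r0, r1, r2, r3, h⟩ := exists_rel (x := e.1) (y := e.2) (x1 := e0.1) (y1 := e0.2)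
      hq.ne' (hfr e he).det (hfr e0 he0).det
    exact ⟨(r0, r1, r2), r3, h⟩
  choose! r hr using hrel
  have hinj : Set.InjOn r (S : Set (ℤ × ℤ)) := by
    intro e he e1 he1 hee
    obtain ⟨r3, h3⟩ := hr e he
    obtain ⟨r3', h3'⟩ := hr e1 he1
    rw [← hee] at h3'
    have hcop : IsCoprime (P e) q := ⟨q', -P' e, by linear_combination (hfr e he).det⟩
    have hf := f_ne' hp (hreg e he) hq hcop (hu e he)
    have g0 := h3.e0
    have g1 := h3.e1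
    have g2 := h3.e2
    have k0 := h3'.e0
    have k1 := h3'.e1
    have k2 := h3'.e2
    have := recover e.1 e.2 (P e) q (P' e) q' e1.1 e1.2 (P e1)
      (P' e1) (hfr e he).det (hfr e1 he1).det hq.ne' hf (by linarith) (by linarith) (by linarith)
    exact Prod.ext this.1 this.2
  rw [← card_image_of_injOn hinj]
  have hsub : S.image r ⊆ Icc (-⌊b⌋) ⌊b⌋ ×ˢ Icc (-⌊b⌋) ⌊b⌋ ×ˢ Icc (-⌊b⌋) ⌊b⌋ := by
    intro t ht
    obtain ⟨e, he, rfl⟩ := mem_image.mp ht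
    obtain ⟨r3, h3⟩ := hr e he
    obtain ⟨c0, c1, c2, c3⟩ := h3.bound hp (hreg e he) (hreg e0 he0) hA (hfr e he) (hfr e0 he0)
    rw [mem_product, mem_product]
    exact ⟨mem_box c0, mem_box c1, mem_box c2⟩
  have hc := card_box b hb0
  calc ((S.image r).card : ℝ) ≤ ((Icc (-⌊b⌋) ⌊b⌋ ×ˢ Icc (-⌊b⌋) ⌊b⌋ ×ˢ Icc (-⌊b⌋) ⌊b⌋).card : ℝ) := by
        exact_mod_cast card_le_card hsub
    _ = ((Icc (-⌊b⌋) ⌊b⌋).card : ℝ) ^ 3 := by
        rw [card_product, card_product]; push_cast; ring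
    _ ≤ (2 * b + 1) ^ 3 := by gcongr

/-- **multiplicity**: few solutions lie close to a given one modulo one -/
theorem mult (hp : Par C H Q) (hA : 0 < A) (hAQ : 8 * A ≤ 3 * Q) (hq : 0 < q) {x0 : ℤ}
    (h0 : Fr (√(x0 : ℝ)) Q A p q p' q') (S : Finset (ℤ × ℤ))
    (hreg : ∀ e ∈ S, Reg H Q e.1 e.2)
    (hclose : ∀ e ∈ S, ∃ k : ℤ, |√(e.1 : ℝ) - √(x0 : ℝ) - k| ≤ 1 / Q ^ 2) :
    (S.card : ℝ) ≤ (2 * (1980 * (H / Q) * (2 * A) ^ 5) + 1) ^ 3 := by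
  have hQ : 0 < Q := by linarith [hp.hQ2]
  choose! k hk using hclose
  have hfr : ∀ e ∈ S, Fr (√(e.1 : ℝ)) Q (2 * A) (p + k e * q) q (p' + k e * q') q' :=
    fun e he => h0.shift hQ hA.le (hk e he)
  refine few hp (by positivity) hq S (fun e => p + k e * q) (fun e => p' + k e * q') hreg hfr ?_
  intro e he
  refine (hfr e he).b1.trans ?_
  rw [div_le_iff₀ hQ]
  linarith

end

end Pool.Agent.Helper6.HC
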