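import Pool.Agent.Helper6.HC.Piece3

set_option autoImplicit false

open Finset

namespace Pool.Agent.Helper6.HC

/-- the points with `|x| ≤ X`, `y² ≠ x³` and `|y² - x³| ≤ C |x| ^ θ` -/
def Exc (C θ X : ℝ) : Set (ℤ × ℤ) := {e | |(e.1 : ℝ)| ≤ X ∧ e.2 ^ 2 ≠ e.1 ^ 3 ∧
  |(e.2 : ℝ) ^ 2 - (e.1 : ℝ) ^ 3| ≤ C * |(e.1 : ℝ)| ^ θ}

theorem pow_le_X {θ X : ℝ} (h0 : 0 ≤ θ) (h1 : θ ≤ 1) (hX : 1 ≤ X) {x : ℤ}
    (hx : |(x : ℝ)| ≤ X) : |(x : ℝ)| ^ θ ≤ X := by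
  calc |(x : ℝ)| ^ θ ≤ X ^ θ := Real.rpow_le_rpow (abs_nonneg _) hx h0
    _ ≤ X ^ (1 : ℝ) := Real.rpow_le_rpow_of_exponent_le hX (by linarith)
    _ = X := Real.rpow_one X

theorem abs_le_sq (y : ℤ) : |(y : ℝ)| ≤ (y : ℝ) ^ 2 := by
  have : |y| ≤ y ^ 2 := by
    rcases eq_or_ne y 0 with h | h
    · rw [h]; simp
    · have h1 := Int.one_le_abs h
      rw [← sq_abs]
      nlinarith
  exact_mod_cast this

theorem exc_sub {C θ X : ℝ} (hC : 1 ≤ C) (h0 : 0 ≤ θ) (h1 : θ ≤ 1) (hX : 1 ≤ X) :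
    Exc C θ X ⊆ ((Icc (-⌊X⌋) ⌊X⌋ ×ˢ Icc (-⌊X ^ 3 + C * X⌋) ⌊X ^ 3 + C * X⌋ : Finset (ℤ × ℤ)) :
      Set (ℤ × ℤ)) := by
  rintro ⟨x, y⟩ ⟨a1, a2, a3⟩
  simp only at a1 a2 a3
  rw [mem_coe, mem_product]
  refine ⟨mem_box a1, mem_box ?_⟩
  refine (abs_le_sq y).trans ?_
  have h2 := pow_le_X h0 h1 hX a1
  have h3 : (x : ℝ) ^ 3 ≤ X ^ 3 := by
    calc (x : ℝ) ^ 3 ≤ |(x : ℝ) ^ 3| := le_abs_self _
      _ = |(x : ℝ)| ^ 3 := abs_pow _ _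
      _ ≤ X ^ 3 := by gcongr
  have h4 : C * |(x : ℝ)| ^ θ ≤ C * X := by gcongr
  have h5 := le_abs_self ((y : ℝ) ^ 2 - (x : ℝ) ^ 3)
  linarith

theorem exc_fin {C θ X : ℝ} (hC : 1 ≤ C) (h0 : 0 ≤ θ) (h1 : θ ≤ 1) (hX : 1 ≤ X) :
    (Exc C θ X).Finite := Set.Finite.subset (finite_toSet _) (exc_sub hC h0 h1 hX)

theorem dyadic2 (C : ℝ) (hC : 1 ≤ C) (η : ℝ) (hη : η = 1 / 1000000) : ∃ K : ℝ, 0 < K ∧
    ∀ B : ℝ, B = 2048 * C → ∀ Y : ℝ, B ^ 314408 ≤ Y →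
      ((Exc C (1 / 2 + η) (4 * Y)).ncard : ℝ) ≤
        (Exc C (1 / 2 + η) Y).ncard + K * Y ^ (1 / 3 - η) := by
  classical
  obtain ⟨K1, hK1, hK⟩ := piece3
  refine ⟨2 * K1, by positivity, ?_⟩
  intro B hB Y hY
  obtain ⟨θ, hθ⟩ : ∃ θ : ℝ, θ = 1 / 2 + η := ⟨_, rfl⟩
  rw [← hθ]
  have hη0 : 0 < η := by rw [hη]; norm_num
  have h0 : 0 ≤ θ := by linarith
  have h1 : θ ≤ 1 := by rw [hθ, hη]; norm_num
  have hB1 : 1 ≤ B := by linarith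
  have hBY : B ≤ Y := by
    calc B = B ^ 1 := (pow_one B).symm
      _ ≤ B ^ 314408 := pow_le_pow_right₀ hB1 (by norm_num)
      _ ≤ Y := hY
  have hY1 : 1 ≤ Y := hB1.trans hBY
  have hY0 : 0 < Y := by linarith
  have hB8 : B ^ 39301 ≤ Y ^ (1 / 8 : ℝ) := by
    calc B ^ 39301 = ((B ^ 39301) ^ 8) ^ (1 / 8 : ℝ) := by
          rw [← Real.rpow_natCast (B ^ 39301) 8, ← Real.rpow_mul (by positivity)]
          norm_num
      _ = (B ^ 314408) ^ (1 / 8 : ℝ) := by rw [← pow_mul]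
      _ ≤ Y ^ (1 / 8 : ℝ) := by gcongr
  obtain ⟨Δ, hΔ⟩ : ∃ Δ : ℝ, Δ = C * (4 * Y) ^ θ := ⟨_, rfl⟩
  have hΔlow : Y ^ (1 / 2 : ℝ) ≤ Δ := by
    have h2 : Y ^ (1 / 2 : ℝ) ≤ (4 * Y) ^ θ := by
      calc Y ^ (1 / 2 : ℝ) ≤ (4 * Y) ^ (1 / 2 : ℝ) := by
            apply Real.rpow_le_rpow hY0.le (by linarith) (by norm_num)
        _ ≤ (4 * Y) ^ θ := Real.rpow_le_rpow_of_exponent_le (by linarith) (by linarith)
    have h3 : 0 < Y ^ (1 / 2 : ℝ) := by positivity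
    rw [hΔ]
    nlinarith
  have hYh1 : 1 ≤ Y ^ (1 / 2 : ℝ) := Real.one_le_rpow hY1 (by norm_num)
  have hΔ1 : 1 ≤ Δ := hYh1.trans hΔlow
  have hΔ0 : 0 < Δ := by linarith
  have hΔup : Δ ≤ 4 * C * Y ^ (1 / 2 + η) := by
    rw [hΔ, Real.mul_rpow (by norm_num) hY0.le, ← hθ]
    have h4 : (4 : ℝ) ^ θ ≤ 4 := by
      calc (4 : ℝ) ^ θ ≤ 4 ^ (1 : ℝ) := Real.rpow_le_rpow_of_exponent_le (by norm_num) h1
        _ = 4 := Real.rpow_one _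
    have h5 : 0 ≤ Y ^ θ := by positivity
    calc C * (4 ^ θ * Y ^ θ) ≤ C * (4 * Y ^ θ) := by gcongr
      _ = 4 * C * Y ^ θ := by ring
  obtain ⟨H, hH⟩ : ∃ H : ℝ, H = Δ ^ (1 / 3 : ℝ) := ⟨_, rfl⟩
  obtain ⟨T, hT⟩ : ∃ T : ℝ, T = Y ^ (1 / 4 : ℝ) * Δ ^ (-(1 / 6) : ℝ) := ⟨_, rfl⟩
  obtain ⟨C', hC'⟩ : ∃ C' : ℝ, C' = Δ ^ (1 / 2 : ℝ) * Y ^ (-(1 / 4) : ℝ) := ⟨_, rfl⟩
  have hH3 : H ^ 3 = Δ := by
    rw [hH, ← Real.rpow_natCast, ← Real.rpow_mul hΔ0.le]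
    norm_num
  have hT0 : 0 < T := by rw [hT]; positivity
  have hH1 : 1 ≤ H := by rw [hH]; exact Real.one_le_rpow hΔ1 (by norm_num)
  have hHT2 : H * T ^ 2 = √Y := by
    rw [hH, hT, mul_pow, ← Real.rpow_natCast, ← Real.rpow_natCast, ← Real.rpow_mul hY0.le,
      ← Real.rpow_mul hΔ0.le, Real.sqrt_eq_rpow]
    have : Δ ^ (1 / 3 : ℝ) * (Y ^ ((1 / 4 : ℝ) * (2 : ℕ)) * Δ ^ (-(1 / 6 : ℝ) * (2 : ℕ))) =
        Y ^ ((1 / 4 : ℝ) * (2 : ℕ)) * (Δ ^ (1 / 3 : ℝ) * Δ ^ (-(1 / 6 : ℝ) * (2 : ℕ))) := by ring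
    rw [this, ← Real.rpow_add hΔ0]
    norm_num
  have hHC : H = C' * T := by
    rw [hH, hC', hT]
    have : Δ ^ (1 / 2 : ℝ) * Y ^ (-(1 / 4) : ℝ) * (Y ^ (1 / 4 : ℝ) * Δ ^ (-(1 / 6) : ℝ)) =
        (Δ ^ (1 / 2 : ℝ) * Δ ^ (-(1 / 6) : ℝ)) * (Y ^ (-(1 / 4) : ℝ) * Y ^ (1 / 4 : ℝ)) := by ring
    rw [this, ← Real.rpow_add hΔ0, ← Real.rpow_add hY0]
    norm_num
  have hC1 : 1 ≤ C' := by
    rw [hC']
    calc (1 : ℝ) = (Y ^ (1 / 2 : ℝ)) ^ (1 / 2 : ℝ) * Y ^ (-(1 / 4) : ℝ) := by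
          rw [← Real.rpow_mul hY0.le, ← Real.rpow_add hY0]; norm_num
      _ ≤ Δ ^ (1 / 2 : ℝ) * Y ^ (-(1 / 4) : ℝ) := by gcongr
  have h4C : 1 ≤ 4 * C := by linarith
  have hC4 : C' ≤ 4 * C * Y ^ (η / 2) := by
    rw [hC']
    calc Δ ^ (1 / 2 : ℝ) * Y ^ (-(1 / 4) : ℝ) ≤
          (4 * C * Y ^ (1 / 2 + η)) ^ (1 / 2 : ℝ) * Y ^ (-(1 / 4) : ℝ) := by gcongr
      _ = (4 * C) ^ (1 / 2 : ℝ) * Y ^ (η / 2) := by
          rw [Real.mul_rpow (by positivity) (by positivity), mul_assoc, ← Real.rpow_mul hY0.le,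
            ← Real.rpow_add hY0]
          congr 2
          ring
      _ ≤ (4 * C) ^ (1 : ℝ) * Y ^ (η / 2) := by
          gcongr
          norm_num
      _ = 4 * C * Y ^ (η / 2) := by rw [Real.rpow_one]
  have hTup : T ≤ Y ^ (1 / 6 : ℝ) := by
    rw [hT]
    have h2 : Δ ^ (-(1 / 6) : ℝ) ≤ (Y ^ (1 / 2 : ℝ)) ^ (-(1 / 6) : ℝ) :=
      Real.rpow_le_rpow_of_nonpos (by positivity) hΔlow (by norm_num)
    calc Y ^ (1 / 4 : ℝ) * Δ ^ (-(1 / 6) : ℝ) ≤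
          Y ^ (1 / 4 : ℝ) * (Y ^ (1 / 2 : ℝ)) ^ (-(1 / 6) : ℝ) := by gcongr
      _ = Y ^ (1 / 6 : ℝ) := by
          rw [← Real.rpow_mul hY0.le, ← Real.rpow_add hY0]; norm_num
  have hTlow : Y ^ (1 / 6 - η / 6 : ℝ) ≤ 4 * C * T := by
    have h2 : (4 * C * Y ^ (1 / 2 + η)) ^ (-(1 / 6) : ℝ) ≤ Δ ^ (-(1 / 6) : ℝ) :=
      Real.rpow_le_rpow_of_nonpos hΔ0 hΔup (by norm_num)
    have h3 : (4 * C) ^ (-(1 : ℝ)) ≤ (4 * C) ^ (-(1 / 6) : ℝ) :=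
      Real.rpow_le_rpow_of_exponent_le h4C (by norm_num)
    have h4 : (4 * C * Y ^ (1 / 2 + η)) ^ (-(1 / 6) : ℝ) =
        (4 * C) ^ (-(1 / 6) : ℝ) * Y ^ (-(1 / 12) - η / 6 : ℝ) := by
      rw [Real.mul_rpow (by positivity) (by positivity), ← Real.rpow_mul hY0.le]
      congr 2
      ring
    calc Y ^ (1 / 6 - η / 6 : ℝ) = 4 * C * ((4 * C) ^ (-(1 : ℝ)) *
          (Y ^ (1 / 4 : ℝ) * Y ^ (-(1 / 12) - η / 6 : ℝ))) := by
          rw [← Real.rpow_add hY0, Real.rpow_neg_one]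
          have h5 : (1 / 4 + (-(1 / 12) - η / 6) : ℝ) = 1 / 6 - η / 6 := by ring
          rw [h5]
          field_simp
      _ ≤ 4 * C * ((4 * C) ^ (-(1 / 6) : ℝ) *
          (Y ^ (1 / 4 : ℝ) * Y ^ (-(1 / 12) - η / 6 : ℝ))) := by gcongr
      _ = 4 * C * (Y ^ (1 / 4 : ℝ) * ((4 * C * Y ^ (1 / 2 + η)) ^ (-(1 / 6) : ℝ))) := by
          rw [h4]; ring
      _ ≤ 4 * C * (Y ^ (1 / 4 : ℝ) * Δ ^ (-(1 / 6) : ℝ)) := by gcongr
      _ = 4 * C * T := by rw [hT]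
  obtain ⟨w, hw⟩ : ∃ w : ℝ, w = T ^ (1 / 39300 : ℝ) := ⟨_, rfl⟩
  have hw0 : 0 < w := by rw [hw]; positivity
  have hwT : w ^ 39300 = T := by
    rw [hw, ← Real.rpow_natCast, ← Real.rpow_mul hT0.le]
    norm_num
  have hwB : B * Y ^ (η / 2) ≤ w := by
    have h2 : (B * Y ^ (η / 2)) ^ 39300 ≤ T := by
      have h3 : (Y ^ (η / 2)) ^ 39300 * Y ^ (1 / 8 : ℝ) ≤ Y ^ (1 / 6 - η / 6 : ℝ) := by
        rw [← Real.rpow_natCast (Y ^ (η / 2)) 39300, ← Real.rpow_mul hY0.le, ← Real.rpow_add hY0]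
        apply Real.rpow_le_rpow_of_exponent_le hY1
        rw [hη]
        norm_num
      have h4 : 0 < (Y ^ (η / 2)) ^ 39300 := by positivity
      have h5 : (B * Y ^ (η / 2)) ^ 39300 * B ≤ 4 * C * T := by
        calc (B * Y ^ (η / 2)) ^ 39300 * B = (Y ^ (η / 2)) ^ 39300 * B ^ 39301 := by
              rw [mul_pow, pow_succ B 39300]
              ring
          _ ≤ (Y ^ (η / 2)) ^ 39300 * Y ^ (1 / 8 : ℝ) := by gcongr
          _ ≤ Y ^ (1 / 6 - η / 6 : ℝ) := h3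
          _ ≤ 4 * C * T := hTlow
      have h6 : 4 * C * T ≤ T * B := by rw [hB]; nlinarith
      exact le_of_mul_le_mul_right (h5.trans h6) (by linarith)
    rw [← hwT] at h2
    exact le_of_pow_le_pow_left₀ (by norm_num) hw0.le h2
  have hYη : 1 ≤ Y ^ (η / 2) := Real.one_le_rpow hY1 (by linarith)
  have hw1 : 2048 ≤ w := by
    have : 2048 ≤ B * Y ^ (η / 2) := by
      have : 2048 ≤ B := by linarith
      nlinarith
    linarith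
  have hw2 : 2 * C' ≤ w := by
    have : 8 * C * Y ^ (η / 2) ≤ B * Y ^ (η / 2) := by
      have : 8 * C ≤ B := by linarith
      gcongr
    linarith
  have hTw : 2048 * (2 * C') ≤ T := by
    calc 2048 * (2 * C') ≤ w * w := by gcongr
      _ = w ^ 2 := by ring
      _ ≤ w ^ 39300 := pow_le_pow_right₀ (by linarith) (by norm_num)
      _ = T := hwT
  have hT2 : 2 ≤ T := by linarith
  have hpar : Par C' H T := by
    refine ⟨hC1, hH1, hHC.le, hT2, ?_⟩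
    have : T ≤ T ^ 3 := by
      calc T = T ^ 1 := (pow_one T).symm
        _ ≤ T ^ 3 := pow_le_pow_right₀ (by linarith) (by norm_num)
    linarith
  have hTfin : T ^ (2 - 1 / 39300 : ℝ) ≤ Y ^ (1 / 3 - η) := by
    calc T ^ (2 - 1 / 39300 : ℝ) ≤ (Y ^ (1 / 6 : ℝ)) ^ (2 - 1 / 39300 : ℝ) :=
          Real.rpow_le_rpow hT0.le hTup (by norm_num)
      _ = Y ^ ((1 / 6 : ℝ) * (2 - 1 / 39300)) := by rw [← Real.rpow_mul hY0.le]
      _ ≤ Y ^ (1 / 3 - η) := by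
          apply Real.rpow_le_rpow_of_exponent_le hY1
          rw [hη]
          norm_num
  rw [hw] at hw1 hw2
  have hKK := hK C' H T hpar hw1 hw2
  -- the sets
  have hf4 := exc_fin hC h0 h1 (show (1:ℝ) ≤ 4 * Y by linarith)
  have hf1 := exc_fin hC h0 h1 hY1
  set F := hf4.toFinset with hF
  have hmemF : ∀ e, e ∈ F ↔ e ∈ Exc C θ (4 * Y) := fun e => hf4.mem_toFinset
  set A1 := F.filter (fun e => Y < (e.1 : ℝ) ∧ 0 < e.2) with hA1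
  set A2 := F.filter (fun e => Y < (e.1 : ℝ) ∧ e.2 < 0) with hA2
  have hbig : ∀ x : ℤ, Y < |(x : ℝ)| → C * |(x : ℝ)| ^ θ < |(x : ℝ)| ^ 3 := by
    intro x hx
    have hx1 : 1 < |(x : ℝ)| := by linarith
    have hCY : C ≤ Y := by linarith
    have h7 : |(x : ℝ)| ^ θ ≤ |(x : ℝ)| := by
      calc |(x : ℝ)| ^ θ ≤ |(x : ℝ)| ^ (1 : ℝ) :=
            Real.rpow_le_rpow_of_exponent_le hx1.le (by linarith)
        _ = |(x : ℝ)| := Real.rpow_one _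
    calc C * |(x : ℝ)| ^ θ ≤ C * |(x : ℝ)| := by gcongr
      _ < |(x : ℝ)| * |(x : ℝ)| := by
          have : C < |(x : ℝ)| := by linarith
          nlinarith
      _ ≤ |(x : ℝ)| ^ 3 := by nlinarith [sq_nonneg (|(x : ℝ)|)]
  have hcov : F ⊆ (hf1.toFinset ∪ A1) ∪ A2 := by
    intro e he
    obtain ⟨e1, e2, e3⟩ := (hmemF e).mp he
    rw [mem_union, mem_union]
    by_cases hx : |(e.1 : ℝ)| ≤ Y
    · left; left
      rw [hf1.mem_toFinset]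
      exact ⟨hx, e2, e3⟩
    · push Not at hx
      have hb := hbig e.1 hx
      have hxpos : 0 < (e.1 : ℝ) := by
        by_contra hc
        push Not at hc
        rw [abs_of_nonpos hc] at hb e3
        have h5 := le_abs_self ((e.2 : ℝ) ^ 2 - (e.1 : ℝ) ^ 3)
        have h6 : (-(e.1 : ℝ)) ^ 3 = -(e.1 : ℝ) ^ 3 := by ring
        rw [h6] at hb
        have : 0 ≤ (e.2 : ℝ) ^ 2 := by positivity
        linarith
      rw [abs_of_pos hxpos] at hx hb e3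
      have hy : e.2 ≠ 0 := by
        intro hy
        rw [hy] at e3
        have h5 : |((0 : ℤ) : ℝ) ^ 2 - (e.1 : ℝ) ^ 3| = (e.1 : ℝ) ^ 3 := by
          push_cast
          rw [show ((0:ℝ) ^ 2 - (e.1 : ℝ) ^ 3) = -(e.1 : ℝ) ^ 3 by ring, abs_neg,
            abs_of_pos (by positivity)]
        rw [h5] at e3
        linarith
      rcases lt_or_gt_of_ne hy with h | h
      · right
        exact mem_filter.mpr ⟨he, hx, h⟩
      · left; right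
        exact mem_filter.mpr ⟨he, hx, h⟩
  have hreg : ∀ x y : ℤ, (x, y) ∈ Exc C θ (4 * Y) → Y < (x : ℝ) → 0 < y → Reg H T x y := by
    intro x y hxy hx hy
    obtain ⟨e1, e2, e3⟩ := hxy
    simp only at e1 e2 e3
    have hxpos : 0 < (x : ℝ) := by linarith
    rw [abs_of_pos hxpos] at e1 e3
    refine ⟨?_, ?_, hy, fun h => e2 h.symm, ?_⟩
    · rw [hHT2]
      exact Real.sqrt_le_sqrt hx.le
    · rw [mul_assoc, hHT2]
      have : √(4 * Y) = 2 * √Y := by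
        rw [Real.sqrt_mul (by norm_num), show (4 : ℝ) = 2 ^ 2 by norm_num,
          Real.sqrt_sq (by norm_num)]
      rw [← this]
      exact Real.sqrt_le_sqrt e1
    · rw [hH3, abs_sub_comm]
      refine e3.trans ?_
      rw [hΔ]
      gcongr
  have hc1 : (A1.card : ℝ) ≤ K1 * T ^ (2 - 1 / 39300 : ℝ) := by
    apply hKK
    intro e he
    obtain ⟨e1, e2, e3⟩ := mem_filter.mp he
    exact hreg e.1 e.2 ((hmemF _).mp e1) e2 e3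
  have hc2 : (A2.card : ℝ) ≤ K1 * T ^ (2 - 1 / 39300 : ℝ) := by
    have hinj : Set.InjOn (fun e : ℤ × ℤ => (e.1, -e.2)) (A2 : Set (ℤ × ℤ)) := by
      intro e _ e' _ h
      simp only [Prod.mk.injEq, neg_inj] at h
      exact Prod.ext h.1 h.2
    rw [← card_image_of_injOn hinj]
    apply hKK
    intro e he
    obtain ⟨t, ht, rfl⟩ := mem_image.mp he
    obtain ⟨e1, e2, e3⟩ := mem_filter.mp ht
    obtain ⟨f1, f2, f3⟩ := (hmemF _).mp e1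
    apply hreg
    · refine ⟨f1, ?_, ?_⟩
      · simp only [neg_sq]; exact f2
      · push_cast
        rw [neg_sq]; exact f3
    · exact e2
    · simp only; omega
  have hn4 : (Exc C θ (4 * Y)).ncard = F.card := Set.ncard_eq_toFinset_card _ hf4
  have hn1 : (Exc C θ Y).ncard = hf1.toFinset.card := Set.ncard_eq_toFinset_card _ hf1
  rw [hn4, hn1]
  have hle : F.card ≤ hf1.toFinset.card + A1.card + A2.card := by
    have g1 := card_le_card hcov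
    have g2 := card_union_le (hf1.toFinset ∪ A1) A2
    have g3 := card_union_le hf1.toFinset A1
    omega
  have hleR : (F.card : ℝ) ≤ hf1.toFinset.card + A1.card + A2.card := by exact_mod_cast hle
  have hK1b : K1 * T ^ (2 - 1 / 39300 : ℝ) ≤ K1 * Y ^ (1 / 3 - η) := by gcongr
  linarith

/-- **the count of the exceptions to Hall's conjecture, below the exponent 1/3** -/
theorem main2 (C : ℝ) : ∃ K : ℝ, ∀ X : ℝ, 1 ≤ X →
    (Exc C (1 / 2 + 1 / 1000000) X).Finite ∧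
      ((Exc C (1 / 2 + 1 / 1000000) X).ncard : ℝ) ≤ K * X ^ (1 / 3 - 1 / 1000000 : ℝ) := by
  obtain ⟨η, hη⟩ : ∃ η : ℝ, η = 1 / 1000000 := ⟨_, rfl⟩
  rw [← hη]
  obtain ⟨θ, hθ⟩ : ∃ θ : ℝ, θ = 1 / 2 + η := ⟨_, rfl⟩
  have h0 : 0 ≤ θ := by rw [hθ, hη]; norm_num
  have h1 : θ ≤ 1 := by rw [hθ, hη]; norm_num
  -- reduce to `C ≥ 1`
  suffices hmain : ∀ C : ℝ, 1 ≤ C → ∃ K : ℝ, ∀ X : ℝ, 1 ≤ X → (Exc C θ X).Finite ∧
      ((Exc C θ X).ncard : ℝ) ≤ K * X ^ (1 / 3 - η) by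
    obtain ⟨K, hK⟩ := hmain (max C 1) (le_max_right _ _)
    refine ⟨K, fun X hX => ?_⟩
    obtain ⟨k1, k2⟩ := hK X hX
    have hsub : Exc C θ X ⊆ Exc (max C 1) θ X := by
      rintro e ⟨e1, e2, e3⟩
      refine ⟨e1, e2, e3.trans ?_⟩
      have : 0 ≤ |(e.1 : ℝ)| ^ θ := by positivity
      have : C ≤ max C 1 := le_max_left _ _
      gcongr
    rw [← hθ]
    refine ⟨k1.subset hsub, le_trans ?_ k2⟩
    exact_mod_cast Set.ncard_le_ncard hsub k1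
  intro C hC
  obtain ⟨K2, hK2, hdy⟩ := dyadic2 C hC η hη
  rw [← hθ] at hdy
  obtain ⟨B, hB⟩ : ∃ B : ℝ, B = 2048 * C := ⟨_, rfl⟩
  obtain ⟨X0, hX0⟩ : ∃ X0 : ℝ, X0 = B ^ 314408 := ⟨_, rfl⟩
  have hX01 : 1 ≤ X0 := by rw [hX0]; exact one_le_pow₀ (by linarith)
  have hdy' : ∀ Y : ℝ, X0 ≤ Y → ((Exc C θ (4 * Y)).ncard : ℝ) ≤
      (Exc C θ Y).ncard + K2 * Y ^ (1 / 3 - η) := by
    intro Y hY
    exact hdy B hB Y (by rw [← hX0]; exact hY)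
  set N0 : ℕ := (Icc (-⌊X0⌋) ⌊X0⌋ ×ˢ Icc (-⌊X0 ^ 3 + C * X0⌋) ⌊X0 ^ 3 + C * X0⌋ :
    Finset (ℤ × ℤ)).card with hN0
  set K := (3 * K2 + N0) with hKdef
  have hK0 : 0 < K := by positivity
  refine ⟨K * (4 * X0), fun X hX => ⟨exc_fin hC h0 h1 hX, ?_⟩⟩
  obtain ⟨a, ha⟩ : ∃ a : ℝ, a = 1 / 3 - η := ⟨_, rfl⟩
  rw [← ha] at hdy' ⊢
  have ha0 : 1 / 4 ≤ a := by rw [ha, hη]; norm_num
  have ha1 : a ≤ 1 := by rw [ha, hη]; norm_num
  have h4a : (4 / 3 : ℝ) ≤ 4 ^ a := by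
    calc (4 / 3 : ℝ) ≤ √2 := by
          apply Real.le_sqrt_of_sq_le; norm_num
      _ = 4 ^ (1 / 4 : ℝ) := by
          rw [Real.sqrt_eq_rpow, show (4 : ℝ) = 2 ^ (2 : ℝ) by norm_num,
            ← Real.rpow_mul (by norm_num)]
          norm_num
      _ ≤ 4 ^ a := Real.rpow_le_rpow_of_exponent_le (by norm_num) ha0
  have hind : ∀ n : ℕ, ((Exc C θ (X0 * 4 ^ n)).ncard : ℝ) ≤ K * (X0 * 4 ^ n) ^ a := by
    intro n
    induction n with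
    | zero =>
      rw [pow_zero, mul_one]
      have h5 : (Exc C θ X0).ncard ≤ N0 := by
        have := Set.ncard_le_ncard (exc_sub hC h0 h1 hX01) (finite_toSet _)
        rwa [Set.ncard_coe_finset] at this
      have h6 : ((Exc C θ X0).ncard : ℝ) ≤ N0 := by exact_mod_cast h5
      have h7 : 1 ≤ X0 ^ a := Real.one_le_rpow hX01 (by linarith)
      have h8 : (N0 : ℝ) ≤ K := by rw [hKdef]; linarith
      nlinarith
    | succ n ih =>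
      have hYn : X0 ≤ X0 * 4 ^ n := by
        have : (1 : ℝ) ≤ 4 ^ n := one_le_pow₀ (by norm_num)
        nlinarith
      have hstep := hdy' (X0 * 4 ^ n) hYn
      have e1 : X0 * 4 ^ (n + 1) = 4 * (X0 * 4 ^ n) := by ring
      rw [e1, Real.mul_rpow (by norm_num) (by positivity)]
      have h5 : 0 < (X0 * 4 ^ n) ^ a := by positivity
      have h6 : 3 * K2 ≤ K := by rw [hKdef]; have : (0:ℝ) ≤ N0 := by positivity
                                 linarith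
      calc ((Exc C θ (4 * (X0 * 4 ^ n))).ncard : ℝ)
          ≤ (Exc C θ (X0 * 4 ^ n)).ncard + K2 * (X0 * 4 ^ n) ^ a := hstep
        _ ≤ K * (X0 * 4 ^ n) ^ a + K2 * (X0 * 4 ^ n) ^ a := by linarith
        _ ≤ K * (X0 * 4 ^ n) ^ a + (K / 3) * (X0 * 4 ^ n) ^ a := by
            have : K2 ≤ K / 3 := by linarith
            gcongr
        _ = K * ((4 / 3) * (X0 * 4 ^ n) ^ a) := by ring
        _ ≤ K * (4 ^ a * (X0 * 4 ^ n) ^ a) := by gcongr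
  obtain ⟨n, hn1, hn2⟩ := exists_nat_pow_near hX (by norm_num : (1:ℝ) < 4)
  have hXle : X ≤ X0 * 4 ^ (n + 1) := by
    have : (4:ℝ) ^ (n + 1) ≤ X0 * 4 ^ (n + 1) := by
      have : (0 : ℝ) < 4 ^ (n + 1) := by positivity
      nlinarith
    linarith
  have hsub : Exc C θ X ⊆ Exc C θ (X0 * 4 ^ (n + 1)) := by
    rintro e ⟨e1, e2, e3⟩
    exact ⟨e1.trans hXle, e2, e3⟩
  have hfin : (Exc C θ (X0 * 4 ^ (n + 1))).Finite := exc_fin hC h0 h1 (hX.trans hXle)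
  have hle : ((Exc C θ X).ncard : ℝ) ≤ (Exc C θ (X0 * 4 ^ (n + 1))).ncard := by
    exact_mod_cast Set.ncard_le_ncard hsub hfin
  refine hle.trans ((hind (n + 1)).trans ?_)
  have h9 : X0 * 4 ^ (n + 1) ≤ (4 * X0) * X := by
    rw [pow_succ]; nlinarith
  have h10 : (4 * X0) ^ a ≤ 4 * X0 := by
    calc (4 * X0) ^ a ≤ (4 * X0) ^ (1 : ℝ) :=
          Real.rpow_le_rpow_of_exponent_le (by linarith) ha1
      _ = 4 * X0 := Real.rpow_one _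
  calc K * (X0 * 4 ^ (n + 1)) ^ a ≤ K * ((4 * X0) * X) ^ a := by
        have : 0 ≤ a := by linarith
        gcongr
    _ = K * ((4 * X0) ^ a * X ^ a) := by rw [Real.mul_rpow (by positivity) (by positivity)]
    _ ≤ K * ((4 * X0) * X ^ a) := by gcongr
    _ = K * (4 * X0) * X ^ a := by ring

end Pool.Agent.Helper6.HC
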