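import Pool.Agent.Helper6.HC.Reduce

set_option autoImplicit false

namespace Pool.Agent.Helper6.HC

section alg
variable {R : Type*} [CommRing R]

def G0 (x y p q : R) : R := p ^ 4 - 6 * x * p ^ 2 * q ^ 2 + 8 * y * p * q ^ 3 - 3 * x ^ 2 * q ^ 4

def G1 (x y p q p' q' : R) : R :=
  p ^ 3 * p' - 3 * x * (p ^ 2 * q * q' + p * p' * q ^ 2) +
    2 * y * (p' * q ^ 3 + 3 * p * q ^ 2 * q') - 3 * x ^ 2 * q ^ 3 * q'

def G2 (x y p q p' q' : R) : R :=
  p ^ 2 * p' ^ 2 - x * (q ^ 2 * p' ^ 2 + q' ^ 2 * p ^ 2 + 4 * p * p' * q * q') +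
    4 * y * (p * q * q' ^ 2 + p' * q ^ 2 * q') - 3 * x ^ 2 * q ^ 2 * q' ^ 2

theorem G_rel (x y p q p' q' : R) :
    G0 x y p q * q' ^ 4 - 4 * G1 x y p q p' q' * q' ^ 3 * q + 6 * G2 x y p q p' q' * q' ^ 2 * q ^ 2
      - 4 * G1 x y p' q' p q * q' * q ^ 3 + G0 x y p' q' * q ^ 4 = (p * q' - p' * q) ^ 4 := by
  unfold G0 G1 G2; ring

theorem G_I (x y p q p' q' : R) :
    G0 x y p q * G0 x y p' q' - 4 * G1 x y p q p' q' * G1 x y p' q' p q +
      3 * G2 x y p q p' q' ^ 2 = 0 := by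
  unfold G0 G1 G2; ring

theorem G_J (x y p q p' q' : R) :
    G0 x y p q * G2 x y p q p' q' * G0 x y p' q' +
      2 * G1 x y p q p' q' * G2 x y p q p' q' * G1 x y p' q' p q - G2 x y p q p' q' ^ 3
      - G0 x y p q * G1 x y p' q' p q ^ 2 - G1 x y p q p' q' ^ 2 * G0 x y p' q' =
    4 * (x ^ 3 - y ^ 2) * (p * q' - p' * q) ^ 6 := by
  unfold G0 G1 G2; ring

theorem G_F (x y p q p' q' : R) :
    G0 x y p q * q' - G1 x y p q p' q' * q =
      (p ^ 3 - 3 * x * p * q ^ 2 + 2 * y * q ^ 3) * (p * q' - p' * q) := by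
  unfold G0 G1; ring

theorem G_E (x y p q p' q' : R) :
    G0 x y p q * q' ^ 2 - 2 * G1 x y p q p' q' * q' * q + G2 x y p q p' q' * q ^ 2 =
      (p ^ 2 - x * q ^ 2) * (p * q' - p' * q) ^ 2 := by
  unfold G0 G1 G2; ring

theorem G_P (x y p q : R) :
    G0 x y p q = 4 * p * (p ^ 3 - 3 * x * p * q ^ 2 + 2 * y * q ^ 3)
      - 3 * (p ^ 2 - x * q ^ 2) ^ 2 := by
  unfold G0; ring

end alg

/-- `x`, `y` are determined by `G0, G1, G2, q, q'` -/
theorem recover (x y p q p' q' x1 y1 p1 p1' : ℤ) (hd : p * q' - p' * q = 1)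
    (hd1 : p1 * q' - p1' * q = 1) (hq : q ≠ 0)
    (hf : p ^ 3 - 3 * x * p * q ^ 2 + 2 * y * q ^ 3 ≠ 0)
    (h0 : G0 x y p q = G0 x1 y1 p1 q) (h1 : G1 x y p q p' q' = G1 x1 y1 p1 q p1' q')
    (h2 : G2 x y p q p' q' = G2 x1 y1 p1 q p1' q') : x = x1 ∧ y = y1 := by
  have F := G_F x y p q p' q'
  have F1 := G_F x1 y1 p1 q p1' q'
  have E := G_E x y p q p' q'
  have E1 := G_E x1 y1 p1 q p1' q'
  have P := G_P x y p q
  have P1 := G_P x1 y1 p1 q
  rw [hd] at F E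
  rw [hd1] at F1 E1
  rw [h0, h1] at F
  rw [h0, h1, h2] at E
  have hff : p ^ 3 - 3 * x * p * q ^ 2 + 2 * y * q ^ 3 =
      p1 ^ 3 - 3 * x1 * p1 * q ^ 2 + 2 * y1 * q ^ 3 := by linear_combination F1 - F
  have hee : p ^ 2 - x * q ^ 2 = p1 ^ 2 - x1 * q ^ 2 := by linear_combination E1 - E
  rw [← hff, ← hee] at P1
  have hp : p = p1 := by
    have h : 4 * (p ^ 3 - 3 * x * p * q ^ 2 + 2 * y * q ^ 3) * (p - p1) = 0 := by
      linear_combination P1 - P + h0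
    rcases mul_eq_zero.mp h with h | h
    · exact absurd h (mul_ne_zero (by norm_num) hf)
    · omega
  subst hp
  have hx : x = x1 := by
    have h : q ^ 2 * (x - x1) = 0 := by linear_combination -hee
    rcases mul_eq_zero.mp h with h | h
    · exact absurd h (pow_ne_zero 2 hq)
    · omega
  subst hx
  refine ⟨rfl, ?_⟩
  have h : 2 * q ^ 3 * (y - y1) = 0 := by linear_combination hff
  rcases mul_eq_zero.mp h with h | h
  · exact absurd h (mul_ne_zero (by norm_num) (pow_ne_zero 3 hq))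
  · omega

/-- dividing out the common zero -/
theorem divide (q q' h1 h2 h3 h4 : ℤ) (hq : q ≠ 0) (hc : IsCoprime q q')
    (h : -4 * h1 * q' ^ 3 * q + 6 * h2 * q' ^ 2 * q ^ 2 - 4 * h3 * q' * q ^ 3 + h4 * q ^ 4 = 0) :
    ∃ r1 r2 r3 : ℤ, 4 * h1 = q * r1 ∧ 6 * h2 = q * r2 + q' * r1 ∧ 4 * h3 = q * r3 + q' * r2 ∧
      h4 = q' * r3 := by
  have e1 : -4 * h1 * q' ^ 3 + 6 * h2 * q' ^ 2 * q - 4 * h3 * q' * q ^ 2 + h4 * q ^ 3 = 0 := by
    have : q * (-4 * h1 * q' ^ 3 + 6 * h2 * q' ^ 2 * q - 4 * h3 * q' * q ^ 2 + h4 * q ^ 3) = 0 := by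
      linear_combination h
    exact (mul_eq_zero.mp this).resolve_left hq
  have d1 : q ∣ 4 * h1 := by
    have : q ∣ (4 * h1) * q' ^ 3 := ⟨6 * h2 * q' ^ 2 - 4 * h3 * q' * q + h4 * q ^ 2, by
      linear_combination -e1⟩
    exact (hc.pow_right (n := 3)).dvd_of_dvd_mul_right this
  obtain ⟨r1, hr1⟩ := d1
  have e2 : -r1 * q' ^ 3 + 6 * h2 * q' ^ 2 - 4 * h3 * q' * q + h4 * q ^ 2 = 0 := by
    have : q * (-r1 * q' ^ 3 + 6 * h2 * q' ^ 2 - 4 * h3 * q' * q + h4 * q ^ 2) = 0 := by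
      linear_combination e1 + q' ^ 3 * hr1
    exact (mul_eq_zero.mp this).resolve_left hq
  have d2 : q ∣ 6 * h2 - q' * r1 := by
    have : q ∣ (6 * h2 - q' * r1) * q' ^ 2 := ⟨4 * h3 * q' - h4 * q, by
      linear_combination e2⟩
    exact (hc.pow_right (n := 2)).dvd_of_dvd_mul_right this
  obtain ⟨r2, hr2⟩ := d2
  have e3 : r2 * q' ^ 2 - 4 * h3 * q' + h4 * q = 0 := by
    have : q * (r2 * q' ^ 2 - 4 * h3 * q' + h4 * q) = 0 := by
      linear_combination e2 - q' ^ 2 * hr2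
    exact (mul_eq_zero.mp this).resolve_left hq
  have d3 : q ∣ 4 * h3 - q' * r2 := by
    have : q ∣ (4 * h3 - q' * r2) * q' := ⟨h4, by linear_combination -e3⟩
    exact hc.dvd_of_dvd_mul_right this
  obtain ⟨r3, hr3⟩ := d3
  refine ⟨r1, r2, r3, hr1, by linear_combination hr2, by linear_combination hr3, ?_⟩
  have : q * (h4 - q' * r3) = 0 := by linear_combination e3 + q' * hr3
  have := (mul_eq_zero.mp this).resolve_left hq
  linarith

/-- the real estimate for the quotient -/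
theorem quot_bound (M al be r1 r2 r3 : ℝ) (hM : 0 ≤ M) (ha0 : 0 < al) (ha1 : al ≤ 1)
    (hb : |be| ≤ 2) (hmax : 1 ≤ |be| + 2 * al) (k1 : |al * r1| ≤ M) (k2 : |al * r2 + be * r1| ≤ M)
    (k3 : |al * r3 + be * r2| ≤ M) (k4 : |be * r3| ≤ M) : |r1| ≤ 14 * M ∧ |r2| ≤ 36 * M := by
  rcases le_or_gt (1 / 4) al with h | h
  · have a1 : |r1| ≤ 4 * M := by
      rw [abs_mul, abs_of_pos ha0] at k1
      have := abs_nonneg r1
      nlinarith
    have a2 : |be * r1| ≤ 8 * M := by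
      rw [abs_mul]
      calc |be| * |r1| ≤ 2 * (4 * M) := by gcongr
        _ = 8 * M := by ring
    have a3 : |al * r2| ≤ 9 * M := by
      have : al * r2 = (al * r2 + be * r1) - be * r1 := by ring
      rw [this]
      calc |(al * r2 + be * r1) - be * r1| ≤ |al * r2 + be * r1| + |be * r1| := abs_sub _ _
        _ ≤ M + 8 * M := by gcongr
        _ = 9 * M := by ring
    have a4 : |r2| ≤ 36 * M := by
      rw [abs_mul, abs_of_pos ha0] at a3
      have := abs_nonneg r2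
      nlinarith
    exact ⟨by linarith, a4⟩
  · have hb2 : 1 / 2 ≤ |be| := by linarith
    have a1 : |r3| ≤ 2 * M := by
      rw [abs_mul] at k4
      have := abs_nonneg r3
      nlinarith
    have a2 : |al * r3| ≤ 2 * M := by
      rw [abs_mul, abs_of_pos ha0]
      have := abs_nonneg r3
      nlinarith
    have a3 : |be * r2| ≤ 3 * M := by
      have : be * r2 = (al * r3 + be * r2) - al * r3 := by ring
      rw [this]
      calc |(al * r3 + be * r2) - al * r3| ≤ |al * r3 + be * r2| + |al * r3| := abs_sub _ _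
        _ ≤ M + 2 * M := by gcongr
        _ = 3 * M := by ring
    have a4 : |r2| ≤ 6 * M := by
      rw [abs_mul] at a3
      have := abs_nonneg r2
      nlinarith
    have a5 : |al * r2| ≤ 6 * M := by
      rw [abs_mul, abs_of_pos ha0]
      have := abs_nonneg r2
      nlinarith
    have a6 : |be * r1| ≤ 7 * M := by
      have : be * r1 = (al * r2 + be * r1) - al * r2 := by ring
      rw [this]
      calc |(al * r2 + be * r1) - al * r2| ≤ |al * r2 + be * r1| + |al * r2| := abs_sub _ _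
        _ ≤ M + 6 * M := by gcongr
        _ = 7 * M := by ring
    have a7 : |r1| ≤ 14 * M := by
      rw [abs_mul] at a6
      have := abs_nonneg r1
      nlinarith
    exact ⟨a7, by linarith⟩

/-- the polar form in the coordinates `u = P - s R`, `R` -/
noncomputable def pol (s k u1 R1 u2 R2 u3 R3 u4 R4 : ℝ) : ℝ :=
  u1 * u2 * u3 * u4 + s * (R1 * u2 * u3 * u4 + u1 * R2 * u3 * u4 + u1 * u2 * R3 * u4 +
    u1 * u2 * u3 * R4) + 2 * k * ((u1 + s * R1) * R2 * R3 * R4 + R1 * (u2 + s * R2) * R3 * R4 +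
    R1 * R2 * (u3 + s * R3) * R4 + R1 * R2 * R3 * (u4 + s * R4))

theorem abs4 {a b c d A B C D : ℝ} (h1 : |a| ≤ A) (h2 : |b| ≤ B) (h3 : |c| ≤ C) (h4 : |d| ≤ D) :
    |a * b * c * d| ≤ A * B * C * D := by
  rw [abs_mul, abs_mul, abs_mul]
  have := (abs_nonneg a).trans h1
  have := (abs_nonneg b).trans h2
  have := (abs_nonneg c).trans h3
  have := (abs_nonneg d).trans h4
  gcongr

theorem pol_bound (H Q s k u1 R1 u2 R2 u3 R3 u4 R4 a1 a2 a3 a4 : ℝ) (hH : 1 ≤ H) (hQ : 1 ≤ Q)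
    (hs0 : 0 < s) (hs : s ≤ 2 * H * Q ^ 2) (hk : |k| ≤ 1 / Q ^ 6)
    (b1 : |u1| ≤ a1 / Q) (c1 : |R1| ≤ a1 * Q) (b2 : |u2| ≤ a2 / Q) (c2 : |R2| ≤ a2 * Q)
    (b3 : |u3| ≤ a3 / Q) (c3 : |R3| ≤ a3 * Q) (b4 : |u4| ≤ a4 / Q) (c4 : |R4| ≤ a4 * Q) :
    |pol s k u1 R1 u2 R2 u3 R3 u4 R4| ≤ 33 * H * (a1 * a2 * a3 * a4) := by
  have hQ0 : 0 < Q := by linarith
  have hpos : ∀ {a R : ℝ}, |R| ≤ a * Q → 0 ≤ a := by
    intro a R h
    by_contra hc
    push Not at hc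
    have := abs_nonneg R
    nlinarith
  have p1 := hpos c1
  have p2 := hpos c2
  have p3 := hpos c3
  have p4 := hpos c4
  have hP : ∀ {a u R : ℝ}, 0 ≤ a → |u| ≤ a / Q → |R| ≤ a * Q → |u + s * R| ≤ 3 * H * Q ^ 3 * a := by
    intro a u R ha hu hR
    calc |u + s * R| ≤ |u| + |s * R| := abs_add_le _ _
      _ = |u| + s * |R| := by rw [abs_mul, abs_of_pos hs0]
      _ ≤ a / Q + (2 * H * Q ^ 2) * (a * Q) := by gcongr
      _ ≤ H * Q ^ 3 * a + (2 * H * Q ^ 2) * (a * Q) := by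
          gcongr
          rw [div_le_iff₀ hQ0]
          have : 1 ≤ H * Q ^ 3 * Q := by
            have : (1:ℝ) ≤ Q ^ 4 := one_le_pow₀ hQ
            nlinarith
          nlinarith
      _ = 3 * H * Q ^ 3 * a := by ring
  have P1 := hP p1 b1 c1
  have P2 := hP p2 b2 c2
  have P3 := hP p3 b3 c3
  have P4 := hP p4 b4 c4
  set A := a1 * a2 * a3 * a4 with hA
  have hA0 : 0 ≤ A := by positivity
  have t0 : |u1 * u2 * u3 * u4| ≤ H * A := by
    refine (abs4 b1 b2 b3 b4).trans ?_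
    have : a1 / Q * (a2 / Q) * (a3 / Q) * (a4 / Q) = A / Q ^ 4 := by rw [hA]; field_simp
    rw [this, div_le_iff₀ (by positivity)]
    have : (1:ℝ) ≤ H * Q ^ 4 := by
      have : (1:ℝ) ≤ Q ^ 4 := one_le_pow₀ hQ
      nlinarith
    nlinarith
  have m1 : ∀ {a b c d : ℝ}, a * Q * (b / Q) * (c / Q) * (d / Q) = a * b * c * d / Q ^ 2 := by
    intro a b c d; field_simp
  have m2 : ∀ {a b c d : ℝ}, a / Q * (b * Q) * (c / Q) * (d / Q) = a * b * c * d / Q ^ 2 := by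
    intro a b c d; field_simp
  have m3 : ∀ {a b c d : ℝ}, a / Q * (b / Q) * (c * Q) * (d / Q) = a * b * c * d / Q ^ 2 := by
    intro a b c d; field_simp
  have m4 : ∀ {a b c d : ℝ}, a / Q * (b / Q) * (c / Q) * (d * Q) = a * b * c * d / Q ^ 2 := by
    intro a b c d; field_simp
  have s1 : |R1 * u2 * u3 * u4| ≤ A / Q ^ 2 := (abs4 c1 b2 b3 b4).trans (le_of_eq m1)
  have s2 : |u1 * R2 * u3 * u4| ≤ A / Q ^ 2 := (abs4 b1 c2 b3 b4).trans (le_of_eq m2)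
  have s3 : |u1 * u2 * R3 * u4| ≤ A / Q ^ 2 := (abs4 b1 b2 c3 b4).trans (le_of_eq m3)
  have s4 : |u1 * u2 * u3 * R4| ≤ A / Q ^ 2 := (abs4 b1 b2 b3 c4).trans (le_of_eq m4)
  have t1 : |s * (R1 * u2 * u3 * u4 + u1 * R2 * u3 * u4 + u1 * u2 * R3 * u4 +
      u1 * u2 * u3 * R4)| ≤ 8 * H * A := by
    rw [abs_mul, abs_of_pos hs0]
    have : |R1 * u2 * u3 * u4 + u1 * R2 * u3 * u4 + u1 * u2 * R3 * u4 + u1 * u2 * u3 * R4| ≤
        4 * (A / Q ^ 2) := by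
      have h1 := abs_add_le (R1 * u2 * u3 * u4 + u1 * R2 * u3 * u4 + u1 * u2 * R3 * u4)
        (u1 * u2 * u3 * R4)
      have h2 := abs_add_le (R1 * u2 * u3 * u4 + u1 * R2 * u3 * u4) (u1 * u2 * R3 * u4)
      have h3 := abs_add_le (R1 * u2 * u3 * u4) (u1 * R2 * u3 * u4)
      linarith
    calc s * |R1 * u2 * u3 * u4 + u1 * R2 * u3 * u4 + u1 * u2 * R3 * u4 + u1 * u2 * u3 * R4|
        ≤ (2 * H * Q ^ 2) * (4 * (A / Q ^ 2)) := by gcongr
      _ = 8 * H * A := by field_simp; ring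
  have n1 : |(u1 + s * R1) * R2 * R3 * R4| ≤ 3 * H * A * Q ^ 6 :=
    (abs4 P1 c2 c3 c4).trans (le_of_eq (by rw [hA]; ring))
  have n2 : |R1 * (u2 + s * R2) * R3 * R4| ≤ 3 * H * A * Q ^ 6 :=
    (abs4 c1 P2 c3 c4).trans (le_of_eq (by rw [hA]; ring))
  have n3 : |R1 * R2 * (u3 + s * R3) * R4| ≤ 3 * H * A * Q ^ 6 :=
    (abs4 c1 c2 P3 c4).trans (le_of_eq (by rw [hA]; ring))
  have n4 : |R1 * R2 * R3 * (u4 + s * R4)| ≤ 3 * H * A * Q ^ 6 :=
    (abs4 c1 c2 c3 P4).trans (le_of_eq (by rw [hA]; ring))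
  have t2 : |2 * k * ((u1 + s * R1) * R2 * R3 * R4 + R1 * (u2 + s * R2) * R3 * R4 +
      R1 * R2 * (u3 + s * R3) * R4 + R1 * R2 * R3 * (u4 + s * R4))| ≤ 24 * H * A := by
    rw [abs_mul, abs_mul, abs_of_pos (by norm_num : (0:ℝ) < 2)]
    have : |(u1 + s * R1) * R2 * R3 * R4 + R1 * (u2 + s * R2) * R3 * R4 +
      R1 * R2 * (u3 + s * R3) * R4 + R1 * R2 * R3 * (u4 + s * R4)| ≤ 4 * (3 * H * A * Q ^ 6) := by
      have h1 := abs_add_le ((u1 + s * R1) * R2 * R3 * R4 + R1 * (u2 + s * R2) * R3 * R4 +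
        R1 * R2 * (u3 + s * R3) * R4) (R1 * R2 * R3 * (u4 + s * R4))
      have h2 := abs_add_le ((u1 + s * R1) * R2 * R3 * R4 + R1 * (u2 + s * R2) * R3 * R4)
        (R1 * R2 * (u3 + s * R3) * R4)
      have h3 := abs_add_le ((u1 + s * R1) * R2 * R3 * R4) (R1 * (u2 + s * R2) * R3 * R4)
      linarith
    calc 2 * |k| * |(u1 + s * R1) * R2 * R3 * R4 + R1 * (u2 + s * R2) * R3 * R4 +
          R1 * R2 * (u3 + s * R3) * R4 + R1 * R2 * R3 * (u4 + s * R4)|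
        ≤ 2 * (1 / Q ^ 6) * (4 * (3 * H * A * Q ^ 6)) := by gcongr
      _ = 24 * H * A := by field_simp; ring
  unfold pol
  have h1 := abs_add_le (u1 * u2 * u3 * u4 + s * (R1 * u2 * u3 * u4 + u1 * R2 * u3 * u4 +
    u1 * u2 * R3 * u4 + u1 * u2 * u3 * R4)) (2 * k * ((u1 + s * R1) * R2 * R3 * R4 +
    R1 * (u2 + s * R2) * R3 * R4 + R1 * R2 * (u3 + s * R3) * R4 + R1 * R2 * R3 * (u4 + s * R4)))
  have h2 := abs_add_le (u1 * u2 * u3 * u4) (s * (R1 * u2 * u3 * u4 + u1 * R2 * u3 * u4 +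
    u1 * u2 * R3 * u4 + u1 * u2 * u3 * R4))
  linarith

end Pool.Agent.Helper6.HC
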