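import Pool.Agent.Helper6.HC.BadCount

set_option autoImplicit false

open Finset

namespace Pool.Agent.Helper6.HC

theorem sep_step (Z : Finset ℤ) (g N : ℕ) (h : g + N < Z.card) :
    ∃ a ∈ Z, N < (Z.filter fun t => a + g ≤ t).card := by
  have hne : Z.Nonempty := card_pos.mp (by omega)
  refine ⟨Z.min' hne, Z.min'_mem hne, ?_⟩
  set a := Z.min' hne with ha
  have hsub : Z \ (Z.filter fun t => a + g ≤ t) ⊆ Ico a (a + g) := by
    intro t ht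
    rw [mem_sdiff, mem_filter] at ht
    obtain ⟨h1, h2⟩ := ht
    rw [mem_Ico]
    refine ⟨Z.min'_le t h1, ?_⟩
    by_contra hc
    exact h2 ⟨h1, by omega⟩
  have h1 := card_le_card hsub
  rw [Int.card_Ico] at h1
  have h2 := card_sdiff_add_card_eq_card (filter_subset (fun t => a + g ≤ t) Z)
  omega

theorem exists_four (Z : Finset ℤ) (g : ℕ) (h : 3 * g < Z.card) :
    ∃ z : Fin 4 → ℤ, (∀ i, z i ∈ Z) ∧ ∀ i j, i < j → z i + g ≤ z j := by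
  obtain ⟨a, ha, h1⟩ := sep_step Z g (2 * g) (by omega)
  obtain ⟨b, hb, h2⟩ := sep_step (Z.filter fun t => a + g ≤ t) g g (by omega)
  obtain ⟨c, hc, h3⟩ := sep_step ((Z.filter fun t => a + g ≤ t).filter fun t => b + g ≤ t) g 0
    (by omega)
  obtain ⟨d, hd⟩ := card_pos.mp h3
  simp only [mem_filter] at hb hc hd
  refine ⟨![a, b, c, d], ?_, ?_⟩
  · intro i
    fin_cases i
    · exact ha
    · exact hb.1
    · exact hc.1.1
    · exact hd.1.1.1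
  · intro i j hij
    fin_cases i <;> fin_cases j <;> simp at hij ⊢ <;> omega

theorem exists_near (Z : Finset ℤ) (g Th R : ℕ) (hTh : 1 ≤ Th)
    (hZ : ∀ t ∈ Z, -(R : ℤ) ≤ t ∧ t ≤ R) (h : (2 * R / Th + 1) * (3 * g) < Z.card) :
    ∃ z : Fin 4 → ℤ, (∀ i, z i ∈ Z) ∧ (∀ i j, i < j → z i + g ≤ z j) ∧ ∀ i j, z j ≤ z i + Th := by
  classical
  set f : ℤ → ℤ := fun t => (t + R) / Th with hf
  have hThz : (0 : ℤ) < Th := by exact_mod_cast hTh
  have hmaps : ∀ t ∈ Z, f t ∈ Icc (0 : ℤ) ((2 * R / Th : ℕ) : ℤ) := by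
    intro t ht
    obtain ⟨h1, h2⟩ := hZ t ht
    rw [mem_Icc]
    constructor
    · exact Int.ediv_nonneg (by omega) hThz.le
    · push_cast
      apply Int.ediv_le_ediv hThz
      omega
  have hcI : (Icc (0 : ℤ) ((2 * R / Th : ℕ) : ℤ)).card = 2 * R / Th + 1 := by
    generalize 2 * R / Th = n
    rw [Int.card_Icc]
    omega
  obtain ⟨y, -, hy⟩ := exists_lt_card_fiber_of_mul_lt_card_of_maps_to hmaps (n := 3 * g) (by
    rw [hcI]
    exact h)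
  obtain ⟨z, hz1, hz2⟩ := exists_four _ g hy
  refine ⟨z, fun i => (mem_filter.mp (hz1 i)).1, hz2, ?_⟩
  intro i j
  have h1 := (mem_filter.mp (hz1 i)).2
  have h2 := (mem_filter.mp (hz1 j)).2
  simp only [hf] at h1 h2
  have e1 := Int.emod_add_mul_ediv (z i + R) Th
  have e2 := Int.emod_add_mul_ediv (z j + R) Th
  have m1 := Int.emod_nonneg (z i + R) hThz.ne'
  have m2 := Int.emod_lt_of_pos (z j + R) hThz
  rw [h1] at e1
  rw [h2] at e2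
  linarith

section
variable {C C' H T Q l A : ℝ} {q q' : ℤ}

theorem dl_sub {e z n : ℤ × ℤ} {p p' p1 p1' p2 p2' : ℤ} (hq : q ≠ 0)
    (h : p * q' - p' * q = 1) (h1 : p1 * q' - p1' * q = 1) (h2 : p2 * q' - p2' * q = 1) :
    dl p p' p2 p2' (√(e.1:ℝ)) (√(n.1:ℝ)) = dl p p' p1 p1' (√(e.1:ℝ)) (√(z.1:ℝ)) -
      dl p2 p2' p1 p1' (√(n.1:ℝ)) (√(z.1:ℝ)) := by
  obtain ⟨a1, -⟩ := dl_u (s := √(e.1:ℝ)) (s1 := √(n.1:ℝ)) h h2
  obtain ⟨a2, -⟩ := dl_u (s := √(e.1:ℝ)) (s1 := √(z.1:ℝ)) h h1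
  obtain ⟨a3, -⟩ := dl_u (s := √(n.1:ℝ)) (s1 := √(z.1:ℝ)) h2 h1
  have hqR : (q : ℝ) ≠ 0 := by exact_mod_cast hq
  apply mul_right_cancel₀ hqR
  linear_combination a1 - a2 + a3

theorem dl_close {e n z : ℤ × ℤ} {p p' p1 p1' p2 p2' : ℤ} {r : ℝ}
    (h : |dl p p' p1 p1' (√(e.1:ℝ)) (√(z.1:ℝ)) - dl p2 p2' p1 p1' (√(n.1:ℝ)) (√(z.1:ℝ))| ≤ r) :
    ∃ k : ℤ, |√(e.1:ℝ) - √(n.1:ℝ) - k| ≤ r := by
  refine ⟨(p1 * p' - p1' * p) - (p1 * p2' - p1' * p2), ?_⟩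
  unfold dl at h
  push_cast at h ⊢
  refine le_trans (le_of_eq ?_) h
  congr 1
  ring

/-- a second row which is not bad has few solutions -/
theorem good_key (hp : Par C H T) (hp' : Par C' (H * (T / Q) ^ 2) Q) (hQT : Q ≤ T) (hl : 0 < l)
    (hl2 : 1 / 2 ≤ l ^ 2) (hA : 3 / 2 ≤ A) (hA2 : 2 * l ≤ A) (hq : q ≠ 0)
    (K : Finset (ℤ × ℤ)) (P P' : ℤ × ℤ → ℤ) (hK : ∀ e ∈ K, Mem H T Q l q q' e (P e) (P' e))
    (M0 : ℕ) (hM : ∀ e0 ∈ K, ∀ S' ⊆ K, (∀ e ∈ S', ∃ k : ℤ, |√(e.1:ℝ) - √(e0.1:ℝ) - k| ≤ 1 / T ^ 2) →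
      S'.card ≤ M0) (g G Th R : ℕ) (hg2 : 2 ≤ g) (hG2 : 2 ≤ G) (hTh : 1 ≤ Th)
    (hR : 4 * (T / Q) ^ 2 ≤ R)
    (hbad : ¬ Bad (1980 * (H * (T / Q) ^ 2 / Q) * A ^ 5) q q')
    (hpos : 36 * (16 * H / T ^ 4) * (2 * (4 * H * T ^ 2)) ^ 3 * (2 * Th / T ^ 2) ^ 3 +
      96 * (144 * H * T ^ 2 * A ^ 3 / Q ^ 3) ^ 3 * (72 * A ^ 3 / Q ^ 5) <
      9 * (4 * H * T ^ 2) ^ 4 * ((g / 2) / T ^ 2) ^ 6)
    (hfar : 24 * (288 * H * T ^ 2 * A ^ 3 / Q ^ 3) ^ 3 *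
      (9 * (2 * (4 * H * T ^ 2)) ^ 4 * (2 * Th / T ^ 2) ^ 6 +
      36 * (16 * H / T ^ 4) * (2 * (4 * H * T ^ 2)) ^ 3 * (2 * Th / T ^ 2) ^ 3 +
      96 * (144 * H * T ^ 2 * A ^ 3 / Q ^ 3) ^ 3 * (72 * A ^ 3 / Q ^ 5)) <
      9 * (4 * H * T ^ 2) ^ 4 * ((G / 2) / T ^ 2) ^ 6 -
      36 * (16 * H / T ^ 4) * (2 * (4 * H * T ^ 2)) ^ 3 * (8 / Q ^ 2) ^ 3 -
      96 * (144 * H * T ^ 2 * A ^ 3 / Q ^ 3) ^ 3 * (72 * A ^ 3 / Q ^ 5)) :
    K.card ≤ M0 * ((2 * R / Th + 1) * (3 * g) + 3 * G) := by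
  classical
  have hQ0 : 0 < Q := by linarith [hp'.hQ2]
  have hT0 : 0 < T := by linarith
  rcases K.eq_empty_or_nonempty with rfl | ⟨z, hz⟩
  · simp
  set δ : ℤ × ℤ → ℝ := fun e => dl (P e) (P' e) (P z) (P' z) (√(e.1:ℝ)) (√(z.1:ℝ)) with hδ
  set c : ℤ × ℤ → ℤ := fun e => ⌊T ^ 2 * δ e⌋ with hc
  have hT2 : 0 < T ^ 2 := by positivity
  have hδb : ∀ e ∈ K, |T ^ 2 * δ e| ≤ R := by
    intro e he
    have := dl_bound hQ0 hl (hK e he) (hK z hz)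
    rw [abs_mul, abs_of_pos hT2]
    calc T ^ 2 * |δ e| ≤ T ^ 2 * (4 / Q ^ 2) := by gcongr
      _ = 4 * (T / Q) ^ 2 := by field_simp
      _ ≤ R := hR
  have hcb : ∀ t ∈ K.image c, -(R : ℤ) ≤ t ∧ t ≤ R := by
    intro t ht
    obtain ⟨e, he, rfl⟩ := mem_image.mp ht
    have h1 := abs_le.mp (hδb e he)
    simp only [hc]
    constructor
    · apply Int.le_floor.mpr
      push_cast
      exact h1.1
    · have h2 : (⌊T ^ 2 * δ e⌋ : ℝ) ≤ R := (Int.floor_le _).trans h1.2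
      exact_mod_cast h2
  -- multiplicities
  have hmul : K.card ≤ M0 * (K.image c).card := by
    apply card_le_mul_card_image
    intro t ht
    obtain ⟨e0, he0, rfl⟩ := mem_image.mp ht
    apply hM e0 he0 _ (filter_subset _ _)
    intro e he
    obtain ⟨heK, hce⟩ := mem_filter.mp he
    apply dl_close (z := z) (p := P e) (p' := P' e) (p1 := P z) (p1' := P' z) (p2 := P e0)
      (p2' := P' e0)
    have h1 : |T ^ 2 * δ e - T ^ 2 * δ e0| < 1 := Int.abs_sub_lt_one_of_floor_eq_floor hce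
    rw [← mul_sub, abs_mul, abs_of_pos hT2] at h1
    rw [le_div_iff₀ hT2]
    have e1 : |δ e - δ e0| * T ^ 2 = T ^ 2 * |δ e - δ e0| := by ring
    exact (le_of_eq e1).trans h1.le
  -- the dichotomy
  have hZ : (K.image c).card ≤ (2 * R / Th + 1) * (3 * g) + 3 * G := by
    by_contra hcon
    push Not at hcon
    obtain ⟨zn, zn1, zn2, zn3⟩ := exists_near (K.image c) g Th R hTh hcb (by omega)
    obtain ⟨zf, zf1, zf2⟩ := exists_four (K.image c) G (by omega)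
    choose n hn1 hn2 using fun i => mem_image.mp (zn1 i)
    choose f hf1 hf2 using fun i => mem_image.mp (zf1 i)
    apply hbad
    have hdn : ∀ i, dl (P (n i)) (P' (n i)) (P (n 0)) (P' (n 0)) (√((n i).1:ℝ)) (√((n 0).1:ℝ)) =
        δ (n i) - δ (n 0) := by
      intro i
      exact dl_sub hq (hK _ (hn1 i)).red.det (hK z hz).red.det (hK _ (hn1 0)).red.det
    have hdf : ∀ i, dl (P (f i)) (P' (f i)) (P (n 0)) (P' (n 0)) (√((f i).1:ℝ)) (√((n 0).1:ℝ)) =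
        δ (f i) - δ (n 0) := by
      intro i
      exact dl_sub hq (hK _ (hf1 i)).red.det (hK z hz).red.det (hK _ (hn1 0)).red.det
    have key : ∀ (a b : ℤ × ℤ) (w : ℕ), 2 ≤ w → c a + w ≤ c b → ((w : ℝ) / 2) / T ^ 2 ≤ |δ a - δ b| := by
      intro a b w hw h
      have h1 : (c a : ℝ) + w ≤ c b := by exact_mod_cast h
      have h2 : T ^ 2 * δ a < c a + 1 := Int.lt_floor_add_one _
      have h3 : (c b : ℝ) ≤ T ^ 2 * δ b := Int.floor_le _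
      have hwR : (2 : ℝ) ≤ w := by exact_mod_cast hw
      have h4 : (w : ℝ) / 2 ≤ T ^ 2 * (δ b - δ a) := by nlinarith
      rw [div_le_iff₀ hT2, abs_sub_comm]
      have := le_abs_self (δ b - δ a)
      nlinarith
    have key2 : ∀ (a b : ℤ × ℤ), c b ≤ c a + Th → c a ≤ c b + Th → |δ a - δ b| ≤ 2 * Th / T ^ 2 := by
      intro a b h h'
      have h1 : (c b : ℝ) ≤ c a + Th := by exact_mod_cast h
      have h1' : (c a : ℝ) ≤ c b + Th := by exact_mod_cast h'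
      have h2 : T ^ 2 * δ a < c a + 1 := Int.lt_floor_add_one _
      have h3 : (c b : ℝ) ≤ T ^ 2 * δ b := Int.floor_le _
      have h2' : T ^ 2 * δ b < c b + 1 := Int.lt_floor_add_one _
      have h3' : (c a : ℝ) ≤ T ^ 2 * δ a := Int.floor_le _
      have hThR : (1 : ℝ) ≤ Th := by exact_mod_cast hTh
      rw [le_div_iff₀ hT2, ← abs_of_pos hT2, ← abs_mul, abs_le]
      constructor <;> nlinarith
    refine key_alt hp hp' hQT hl hl2 hA hA2 hq n f (fun i => P (n i)) (fun i => P' (n i))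
      (fun i => P (f i)) (fun i => P' (f i)) (fun i => hK _ (hn1 i)) (fun i => hK _ (hf1 i))
      (g := ((g : ℝ) / 2) / T ^ 2) (th := 2 * Th / T ^ 2) (g2 := ((G : ℝ) / 2) / T ^ 2)
      (th2 := 8 / Q ^ 2) (by positivity) (by positivity) ?_ ?_ ?_ ?_ hpos hfar
    · intro i j hij
      rw [hdn i, hdn j]
      have e : δ (n i) - δ (n 0) - (δ (n j) - δ (n 0)) = δ (n i) - δ (n j) := by ring
      rw [e]
      apply key _ _ _ hg2
      rw [hn2 i, hn2 j]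
      exact zn2 i j hij
    · intro i j hij
      rw [hdn i, hdn j]
      have e : δ (n i) - δ (n 0) - (δ (n j) - δ (n 0)) = δ (n i) - δ (n j) := by ring
      rw [e]
      apply key2
      · rw [hn2 i, hn2 j]; exact zn3 i j
      · rw [hn2 i, hn2 j]; exact zn3 j i
    · intro i j hij
      rw [hdf i, hdf j]
      have e : δ (f i) - δ (n 0) - (δ (f j) - δ (n 0)) = δ (f i) - δ (f j) := by ring
      rw [e]
      apply key _ _ _ hG2
      rw [hf2 i, hf2 j]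
      exact zf2 i j hij
    · intro i j hij
      rw [hdf i, hdf j]
      have b1 := dl_bound hQ0 hl (hK _ (hf1 i)) (hK _ hz)
      have b2 := dl_bound hQ0 hl (hK _ (hf1 j)) (hK _ hz)
      have e : δ (f i) - δ (n 0) - (δ (f j) - δ (n 0)) = δ (f i) - δ (f j) := by ring
      rw [e]
      refine (abs_sub _ _).trans ?_
      have : 8 / Q ^ 2 = 4 / Q ^ 2 + 4 / Q ^ 2 := by ring
      rw [this]
      exact add_le_add b1 b2
  exact hmul.trans (Nat.mul_le_mul_left _ hZ)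

end

end Pool.Agent.Helper6.HC
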