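import Pool.Agent.Helper6.HC.RealV
import Pool.Agent.Helper6.HC.Few

set_option autoImplicit false

open Finset

namespace Pool.Agent.Helper6.HC

theorem Reg.scale {C H T Q : ℝ} {x y : ℤ} (hp : Par C H T) (h : Reg H T x y) (hQ : 0 < Q)
    (hQT : Q ≤ T) : Reg (H * (T / Q) ^ 2) Q x y := by
  have e : H * (T / Q) ^ 2 * Q ^ 2 = H * T ^ 2 := by field_simp
  have hH := hp.hH
  have h1 : 1 ≤ T / Q := by rw [le_div_iff₀ hQ]; linarith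
  refine ⟨by rw [e]; exact h.s1, ?_, h.y0, h.ne, ?_⟩
  · have : 2 * (H * (T / Q) ^ 2) * Q ^ 2 = 2 * (H * T ^ 2) := by rw [← e]; ring
    rw [this]
    have := h.s2
    linarith
  · refine h.k.trans ?_
    have h2 : 1 ≤ (T / Q) ^ 2 := one_le_pow₀ h1
    have h3 : H ≤ H * (T / Q) ^ 2 := by nlinarith
    gcongr

/-- a solution with a reduced basis at scale `l` -/
structure Mem (H T Q l : ℝ) (q q' : ℤ) (e : ℤ × ℤ) (p p' : ℤ) : Prop where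
  reg : Reg H T e.1 e.2
  red : Red (√(e.1 : ℝ)) Q l p q p' q'

/-- the vector of a member of a class with respect to a base -/
noncomputable def cm (q q' : ℤ) (e : ℤ × ℤ) (p p' : ℤ) (z : ℤ × ℤ) (p1 p1' : ℤ) : Fin 4 → ℝ :=
  cvec (√(e.1:ℝ)) (e.2 - √(e.1:ℝ) ^ 3) (p - q * √(e.1:ℝ)) (p' - q' * √(e.1:ℝ)) q q'
        (dl p p' p1 p1' (√(e.1:ℝ)) (√(z.1:ℝ))) (p1 - q * √(z.1:ℝ)) (p1' - q' * √(z.1:ℝ))

noncomputable def tm (q q' : ℤ) (e : ℤ × ℤ) (p p' : ℤ) (z : ℤ × ℤ) (p1 p1' : ℤ) : Fin 4 → ℝ :=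
  tvec (e.2 - √(e.1:ℝ) ^ 3) (p - q * √(e.1:ℝ)) (p' - q' * √(e.1:ℝ)) q q'
        (dl p p' p1 p1' (√(e.1:ℝ)) (√(z.1:ℝ))) (p1 - q * √(z.1:ℝ)) (p1' - q' * √(z.1:ℝ))

section
variable {C C' H T Q l A : ℝ} {q q' : ℤ}

theorem dl_bound {e z : ℤ × ℤ} {p p' p1 p1' : ℤ} (hQ : 0 < Q) (hl : 0 < l)
    (h : Mem H T Q l q q' e p p') (h1 : Mem H T Q l q q' z p1 p1') :
    |dl p p' p1 p1' (√(e.1:ℝ)) (√(z.1:ℝ))| ≤ 4 / Q ^ 2 := by
  rw [dl_br h.red.det h1.red.det]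
  have a1 := abs_mul_le h.red.h1 h1.red.h3
  have a2 := abs_mul_le h1.red.h1 h.red.h3
  have e1 : 1 / (l * Q) * (2 * l / Q) = 2 / Q ^ 2 := by field_simp
  rw [e1] at a1 a2
  refine (abs_sub _ _).trans ?_
  have : 4 / Q ^ 2 = 2 / Q ^ 2 + 2 / Q ^ 2 := by ring
  linarith

theorem fam_of (hp : Par C H T) (hQ : 1 ≤ Q) (hQT : Q ≤ T) (hl : 0 < l) (hl2 : 1 / 2 ≤ l ^ 2)
    (hA : 3 / 2 ≤ A) (hA2 : 2 * l ≤ A) (e : Fin 4 → ℤ × ℤ) (P P' : Fin 4 → ℤ) (z : ℤ × ℤ)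
    (p1 p1' : ℤ) (he : ∀ i, Mem H T Q l q q' (e i) (P i) (P' i))
    (hz : Mem H T Q l q q' z p1 p1') :
    Fam (p1 - q * √(z.1:ℝ)) (p1' - q' * √(z.1:ℝ)) q q' (4 * H * T ^ 2) (16 * H / T ^ 4)
      (72 * A ^ 3 / Q ^ 5) (144 * H * T ^ 2 * A ^ 3 / Q ^ 3)
      (fun i => 4 * √((e i).1 : ℝ)) (fun i => 8 * ((e i).2 - √((e i).1:ℝ) ^ 3) * √((e i).1:ℝ))
      (fun i => dl (P i) (P' i) p1 p1' (√((e i).1:ℝ)) (√(z.1:ℝ)))
      (fun i => cm q q' (e i) (P i) (P' i) z p1 p1')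
      (fun i => tm q q' (e i) (P i) (P' i) z p1 p1') := by
  have hQ0 : 0 < Q := by linarith
  have hT0 : 0 < T := by linarith
  have hH := hp.hH
  have hH0 : 0 < H := by linarith
  have hA0 : 0 < A := by linarith
  have hfr1 := hz.red.fr hQ0 hl hl2 hA hA2
  have hdetR : (p1 : ℝ) * q' - p1' * q = 1 := by exact_mod_cast hz.red.det
  have hT6 : Q ^ 6 ≤ T ^ 6 := by gcongr
  have hk : ∀ i, |((e i).2 : ℝ) - √((e i).1:ℝ) ^ 3| ≤ 1 / T ^ 6 := fun i => (he i).reg.kap hp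
  have hm : ∀ i, |8 * (((e i).2 : ℝ) - √((e i).1:ℝ) ^ 3) * √((e i).1:ℝ)| ≤ 16 * H / T ^ 4 := by
    intro i
    have h1 := hk i
    have h2 := (he i).reg.s2
    have h3 := (he i).reg.spos hp
    rw [abs_mul, abs_mul, abs_of_pos (by norm_num : (0:ℝ) < 8), abs_of_pos h3]
    calc 8 * |((e i).2 : ℝ) - √((e i).1:ℝ) ^ 3| * √((e i).1:ℝ) ≤ 8 * (1 / T ^ 6) * (2 * H * T ^ 2) := by
          gcongr
      _ = 16 * H / T ^ 4 := by field_simp; ring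
  have hc : ∀ i k, cm q q' (e i) (P i) (P' i) z p1 p1' k =
      4 * √((e i).1 : ℝ) * cube ((p1 - q * √(z.1:ℝ)) -
        dl (P i) (P' i) p1 p1' (√((e i).1:ℝ)) (√(z.1:ℝ)) * q)
        ((p1' - q' * √(z.1:ℝ)) - dl (P i) (P' i) p1 p1' (√((e i).1:ℝ)) (√(z.1:ℝ)) * q') k +
      8 * ((e i).2 - √((e i).1:ℝ) ^ 3) * √((e i).1:ℝ) * cube q q' k +
      tm q q' (e i) (P i) (P' i) z p1 p1' k := by
    intro i k
    obtain ⟨h1, h2⟩ := dl_u (s := √((e i).1:ℝ)) (s1 := √(z.1:ℝ)) (he i).red.det hz.red.det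
    rw [← h1, ← h2]
    rfl
  have ht : ∀ i k, |tm q q' (e i) (P i) (P' i) z p1 p1' k| ≤ 72 * A ^ 3 / Q ^ 5 := by
    intro i k
    have hfr := (he i).red.fr hQ0 hl hl2 hA hA2
    refine (tvec_bound (hk i) hfr.b1 hfr.b2 hfr1.b1 hfr1.b2 hfr1.c1 hfr1.c2
      (dl_bound hQ0 hl (he i) hz) k).trans ?_
    have e1 : 24 * (1 / T ^ 6) * (A / Q) * (A * Q) ^ 2 + 12 * (4 / Q ^ 2) * (A / Q) ^ 3 =
        24 * A ^ 3 * (Q / T ^ 6) + 48 * A ^ 3 / Q ^ 5 := by field_simp; ring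
    rw [e1]
    have e2 : Q / T ^ 6 ≤ 1 / Q ^ 5 := by
      rw [div_le_div_iff₀ (by positivity) (by positivity)]
      calc Q * Q ^ 5 = Q ^ 6 := by ring
        _ ≤ 1 * T ^ 6 := by linarith
    have e3 : 24 * A ^ 3 * (Q / T ^ 6) ≤ 24 * A ^ 3 * (1 / Q ^ 5) := by gcongr
    have e4 : 72 * A ^ 3 / Q ^ 5 = 24 * A ^ 3 * (1 / Q ^ 5) + 48 * A ^ 3 / Q ^ 5 := by ring
    linarith
  have hE' : ∀ i k, |cm q q' (e i) (P i) (P' i) z p1 p1' k - tm q q' (e i) (P i) (P' i) z p1 p1' k|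
      ≤ 72 * H * T ^ 2 * A ^ 3 / Q ^ 3 := by
    intro i k
    have hfr := (he i).red.fr hQ0 hl hl2 hA hA2
    have e0 : cm q q' (e i) (P i) (P' i) z p1 p1' k - tm q q' (e i) (P i) (P' i) z p1 p1' k =
        4 * √((e i).1 : ℝ) * cube (P i - q * √((e i).1:ℝ)) (P' i - q' * √((e i).1:ℝ)) k +
      8 * ((e i).2 - √((e i).1:ℝ) ^ 3) * √((e i).1:ℝ) * cube q q' k := by
      unfold cm tm cvec
      ring
    rw [e0]
    have b1 := cube_bound hfr.b1 hfr.b2 k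
    have b2 := cube_bound hfr.c1 hfr.c2 k
    have h2 := (he i).reg.s2
    have h3 := (he i).reg.spos hp
    have b3 : |4 * √((e i).1 : ℝ)| ≤ 8 * H * T ^ 2 := by
      rw [abs_of_pos (by positivity)]; linarith
    refine (abs_add_le _ _).trans ?_
    have b4 := abs_mul_le b3 b1
    have b5 := abs_mul_le (hm i) b2
    have e1 : 8 * H * T ^ 2 * (3 * (A / Q) ^ 3) = 24 * H * T ^ 2 * A ^ 3 / Q ^ 3 := by field_simp; ring
    have e2 : 16 * H / T ^ 4 * (3 * (A * Q) ^ 3) ≤ 48 * H * T ^ 2 * A ^ 3 / Q ^ 3 := by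
      rw [div_mul_eq_mul_div, div_le_div_iff₀ (by positivity) (by positivity)]
      calc 16 * H * (3 * (A * Q) ^ 3) * Q ^ 3 = 48 * H * A ^ 3 * Q ^ 6 := by ring
        _ ≤ 48 * H * A ^ 3 * T ^ 6 := by gcongr
        _ = 48 * H * T ^ 2 * A ^ 3 * T ^ 4 := by ring
    have e3 : 72 * H * T ^ 2 * A ^ 3 / Q ^ 3 = 24 * H * T ^ 2 * A ^ 3 / Q ^ 3 +
        48 * H * T ^ 2 * A ^ 3 / Q ^ 3 := by ring
    linarith
  have hsmall : 72 * A ^ 3 / Q ^ 5 ≤ 72 * H * T ^ 2 * A ^ 3 / Q ^ 3 := by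
    rw [div_le_div_iff₀ (by positivity) (by positivity)]
    have h1 : 1 ≤ H * (T ^ 2 * Q ^ 2) := by
      have : 1 ≤ T := by linarith
      have : 1 ≤ T ^ 2 * Q ^ 2 := by
        have h2 : 1 ≤ T ^ 2 := one_le_pow₀ this
        have h3 : 1 ≤ Q ^ 2 := one_le_pow₀ hQ
        nlinarith
      nlinarith
    calc 72 * A ^ 3 * Q ^ 3 = 72 * A ^ 3 * Q ^ 3 * 1 := by ring
      _ ≤ 72 * A ^ 3 * Q ^ 3 * (H * (T ^ 2 * Q ^ 2)) := by gcongr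
      _ = 72 * H * T ^ 2 * A ^ 3 * Q ^ 5 := by ring
  have hdbl : 144 * H * T ^ 2 * A ^ 3 / Q ^ 3 = 72 * H * T ^ 2 * A ^ 3 / Q ^ 3 +
      72 * H * T ^ 2 * A ^ 3 / Q ^ 3 := by ring
  have hpos : 0 ≤ 72 * H * T ^ 2 * A ^ 3 / Q ^ 3 := by positivity
  refine ⟨?_, ?_, ?_, hm, hc, ht, ?_, ?_⟩
  · linear_combination hdetR
  · intro i
    have := (he i).reg.s1
    linarith
  · intro i
    have := (he i).reg.s2
    linarith
  · intro i k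
    have h1 := hE' i k
    have h2 := ht i k
    have e0 : cm q q' (e i) (P i) (P' i) z p1 p1' k =
      (cm q q' (e i) (P i) (P' i) z p1 p1' k - tm q q' (e i) (P i) (P' i) z p1 p1' k) +
      tm q q' (e i) (P i) (P' i) z p1 p1' k := by ring
    rw [e0]
    refine (abs_add_le _ _).trans ?_
    linarith
  · intro i k
    have h1 := hE' i k
    linarith

/-- a second row with five solutions in general position -/
def Bad (b : ℝ) (q q' : ℤ) : Prop :=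
  ∃ (R : Fin 4 → Fin 4 → ℤ) (φ : Fin 4 → ℤ), (∀ i k, |(R i k : ℝ)| ≤ b) ∧
    D4 (R 0) (R 1) (R 2) (R 3) ≠ 0 ∧
    (∀ i, 12 * (R i 0 * φ 0 + R i 1 * φ 1 + R i 2 * φ 2 + R i 3 * φ 3) +
      Hs (R i 0) (R i 1) (R i 2) (R i 3) q q' = 0) ∧
    q ^ 3 * φ 0 + 3 * q ^ 2 * q' * φ 1 + 3 * q * q' ^ 2 * φ 2 + q' ^ 3 * φ 3 = 1

theorem key_alt (hp : Par C H T) (hp' : Par C' (H * (T / Q) ^ 2) Q) (hQT : Q ≤ T) (hl : 0 < l)
    (hl2 : 1 / 2 ≤ l ^ 2) (hA : 3 / 2 ≤ A) (hA2 : 2 * l ≤ A) (hq : q ≠ 0)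
    (n f : Fin 4 → ℤ × ℤ) (P P' F F' : Fin 4 → ℤ)
    (hn : ∀ i, Mem H T Q l q q' (n i) (P i) (P' i)) (hf : ∀ i, Mem H T Q l q q' (f i) (F i) (F' i))
    {g th g2 th2 : ℝ} (hg : 0 ≤ g) (hg2 : 0 ≤ g2)
    (hnlow : ∀ i j, i < j → g ≤ |dl (P i) (P' i) (P 0) (P' 0) (√((n i).1:ℝ)) (√((n 0).1:ℝ)) -
      dl (P j) (P' j) (P 0) (P' 0) (√((n j).1:ℝ)) (√((n 0).1:ℝ))|)
    (hnup : ∀ i j, i < j → |dl (P i) (P' i) (P 0) (P' 0) (√((n i).1:ℝ)) (√((n 0).1:ℝ)) -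
      dl (P j) (P' j) (P 0) (P' 0) (√((n j).1:ℝ)) (√((n 0).1:ℝ))| ≤ th)
    (hflow : ∀ i j, i < j → g2 ≤ |dl (F i) (F' i) (P 0) (P' 0) (√((f i).1:ℝ)) (√((n 0).1:ℝ)) -
      dl (F j) (F' j) (P 0) (P' 0) (√((f j).1:ℝ)) (√((n 0).1:ℝ))|)
    (hfup : ∀ i j, i < j → |dl (F i) (F' i) (P 0) (P' 0) (√((f i).1:ℝ)) (√((n 0).1:ℝ)) -
      dl (F j) (F' j) (P 0) (P' 0) (√((f j).1:ℝ)) (√((n 0).1:ℝ))| ≤ th2)
    (hpos : 36 * (16 * H / T ^ 4) * (2 * (4 * H * T ^ 2)) ^ 3 * th ^ 3 +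
      96 * (144 * H * T ^ 2 * A ^ 3 / Q ^ 3) ^ 3 * (72 * A ^ 3 / Q ^ 5) <
      9 * (4 * H * T ^ 2) ^ 4 * g ^ 6)
    (hfar : 24 * (288 * H * T ^ 2 * A ^ 3 / Q ^ 3) ^ 3 * (9 * (2 * (4 * H * T ^ 2)) ^ 4 * th ^ 6 +
      36 * (16 * H / T ^ 4) * (2 * (4 * H * T ^ 2)) ^ 3 * th ^ 3 +
      96 * (144 * H * T ^ 2 * A ^ 3 / Q ^ 3) ^ 3 * (72 * A ^ 3 / Q ^ 5)) <
      9 * (4 * H * T ^ 2) ^ 4 * g2 ^ 6 -
      36 * (16 * H / T ^ 4) * (2 * (4 * H * T ^ 2)) ^ 3 * th2 ^ 3 -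
      96 * (144 * H * T ^ 2 * A ^ 3 / Q ^ 3) ^ 3 * (72 * A ^ 3 / Q ^ 5)) :
    Bad (1980 * (H * (T / Q) ^ 2 / Q) * A ^ 5) q q' := by
  classical
  have hQ2 := hp'.hQ2
  have hQ1 : 1 ≤ Q := by linarith
  have hQ0 : 0 < Q := by linarith
  have hT0 : 0 < T := by linarith
  have hH0 : 0 < H := by linarith [hp.hH]
  have hA0 : 0 < A := by linarith
  have hL : 0 < 4 * H * T ^ 2 := by positivity
  have Fn := fam_of hp hQ1 hQT hl hl2 hA hA2 n P P' (n 0) (P 0) (P' 0) hn (hn 0)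
  have Ff := fam_of hp hQ1 hQT hl hl2 hA hA2 f F F' (n 0) (P 0) (P' 0) hf (hn 0)
  have dn := Fn.det hL hg hnlow hnup
  have df := Ff.det hL hg2 hflow hfup
  obtain ⟨dn1, dn2⟩ := dn
  obtain ⟨-, df2⟩ := df
  -- integral vectors
  have hrel : ∀ (e : ℤ × ℤ) (p p' : ℤ), Mem H T Q l q q' e p p' → ∃ r : Fin 4 → ℤ,
      (∀ k, |(r k : ℝ)| ≤ 1980 * (H * (T / Q) ^ 2 / Q) * A ^ 5) ∧
      (12 * (r 0 * phi (n 0).1 (n 0).2 (P 0) q (P' 0) q' 0 +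
        r 1 * phi (n 0).1 (n 0).2 (P 0) q (P' 0) q' 1 +
        r 2 * phi (n 0).1 (n 0).2 (P 0) q (P' 0) q' 2 +
        r 3 * phi (n 0).1 (n 0).2 (P 0) q (P' 0) q' 3) + Hs (r 0) (r 1) (r 2) (r 3) q q' = 0) ∧
      ∀ k, (r k : ℝ) = cm q q' e p p' (n 0) (P 0) (P' 0) k -
        cvec (√((n 0).1:ℝ)) ((n 0).2 - √((n 0).1:ℝ) ^ 3) (P 0 - q * √((n 0).1:ℝ))
          (P' 0 - q' * √((n 0).1:ℝ)) q q' 0
        (P 0 - q * √((n 0).1:ℝ)) (P' 0 - q' * √((n 0).1:ℝ)) k := by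
    intro e p p' he
    obtain ⟨r0, r1, r2, r3, hR⟩ := exists_rel (x := e.1) (y := e.2) (x1 := (n 0).1) (y1 := (n 0).2)
      hq he.red.det (hn 0).red.det
    have hb := hR.bound hp' (he.reg.scale hp hQ0 hQT) ((hn 0).reg.scale hp hQ0 hQT) hA0
      (he.red.fr hQ0 hl hl2 hA hA2) ((hn 0).red.fr hQ0 hl hl2 hA hA2)
    have hre := hR.real hp he.reg (hn 0).reg hq he.red.det (hn 0).red.det
    refine ⟨![r0, r1, r2, r3], ?_, ?_, ?_⟩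
    · intro k
      obtain ⟨b0, b1, b2, b3⟩ := hb
      fin_cases k
      · simpa using b0
      · simpa using b1
      · simpa using b2
      · simpa using b3
    · simpa using hR.eqn
    · intro k
      exact hre k
  choose rn hn1 hn2 hn3 using fun i => hrel (n i) (P i) (P' i) (hn i)
  choose rf hf1 hf2 hf3 using fun i => hrel (f i) (F i) (F' i) (hf i)
  have hV : ∀ i k, (((fun i k => rn i k - rn 0 k) i k : ℤ) : ℝ) =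
      cm q q' (n i) (P i) (P' i) (n 0) (P 0) (P' 0) k -
      cm q q' (n 0) (P 0) (P' 0) (n 0) (P 0) (P' 0) k := by
    intro i k
    push_cast
    rw [hn3 i k, hn3 0 k]
    ring
  have hb2 : ∀ i k, |cm q q' (f i) (F i) (F' i) (n 0) (P 0) (P' 0) k -
      cm q q' (f 0) (F 0) (F' 0) (n 0) (P 0) (P' 0) k| ≤ 288 * H * T ^ 2 * A ^ 3 / Q ^ 3 := by
    intro i k
    have h1 := Ff.hE i k
    have h2 := Ff.hE 0 k
    refine (abs_sub _ _).trans ?_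
    have : 288 * H * T ^ 2 * A ^ 3 / Q ^ 3 = 144 * H * T ^ 2 * A ^ 3 / Q ^ 3 +
      144 * H * T ^ 2 * A ^ 3 / Q ^ 3 := by ring
    linarith
  have hnpos : 0 < |D4 (cm q q' (n 0) (P 0) (P' 0) (n 0) (P 0) (P' 0))
      (cm q q' (n 1) (P 1) (P' 1) (n 0) (P 0) (P' 0)) (cm q q' (n 2) (P 2) (P' 2) (n 0) (P 0) (P' 0))
      (cm q q' (n 3) (P 3) (P' 3) (n 0) (P 0) (P' 0))| := by linarith
  have hE0 : 0 ≤ 24 * (288 * H * T ^ 2 * A ^ 3 / Q ^ 3) ^ 3 := by positivity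
  obtain ⟨j, hj⟩ := exists_ne (fun i => cm q q' (n i) (P i) (P' i) (n 0) (P 0) (P' 0))
    (fun i => cm q q' (f i) (F i) (F' i) (n 0) (P 0) (P' 0)) _ hV _ hb2 (abs_pos.mp hnpos)
    (by
      refine lt_of_le_of_lt ?_ (lt_of_lt_of_le hfar df2)
      exact mul_le_mul_of_nonneg_left dn1 hE0)
  -- the base has the zero vector
  have hz0 : ∀ k, cm q q' (n 0) (P 0) (P' 0) (n 0) (P 0) (P' 0) k =
        cvec (√((n 0).1:ℝ)) ((n 0).2 - √((n 0).1:ℝ) ^ 3) (P 0 - q * √((n 0).1:ℝ))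
          (P' 0 - q' * √((n 0).1:ℝ)) q q' 0
        (P 0 - q * √((n 0).1:ℝ)) (P' 0 - q' * √((n 0).1:ℝ)) k := by
    intro k
    have : dl (P 0) (P' 0) (P 0) (P' 0) (√((n 0).1:ℝ)) (√((n 0).1:ℝ)) = 0 := by
      unfold dl
      have : (P 0 * P' 0 - P' 0 * P 0 : ℤ) = 0 := by ring
      rw [this]; simp
    unfold cm
    rw [this]
  refine ⟨![rn 1, rn 2, rn 3, rf j], phi (n 0).1 (n 0).2 (P 0) q (P' 0) q', ?_, ?_, ?_,
    phi_w (hn 0).red.det⟩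
  · intro i k
    fin_cases i
    · simpa using hn1 1 k
    · simpa using hn1 2 k
    · simpa using hn1 3 k
    · simpa using hf1 j k
  · intro h0
    apply hj
    have h1 : ((D4 (rn 1) (rn 2) (rn 3) (rf j) : ℤ) : ℝ) = 0 := by
      have : D4 (rn 1) (rn 2) (rn 3) (rf j) = 0 := by simpa using h0
      rw [this]; simp
    rw [D4_cast] at h1
    rw [← h1]
    have g1 : ∀ i, (fun k => cm q q' (n i) (P i) (P' i) (n 0) (P 0) (P' 0) k -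
        cm q q' (n 0) (P 0) (P' 0) (n 0) (P 0) (P' 0) k) = fun k => (rn i k : ℝ) := by
      intro i
      funext k
      rw [hz0 k, hn3 i k]
    have g2 : (fun k => cm q q' (f j) (F j) (F' j) (n 0) (P 0) (P' 0) k -
        cm q q' (n 0) (P 0) (P' 0) (n 0) (P 0) (P' 0) k) = fun k => (rf j k : ℝ) := by
      funext k
      rw [hz0 k, hf3 j k]
    rw [g1 1, g1 2, g1 3, g2]
  · intro i
    fin_cases i
    · simpa using hn2 1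
    · simpa using hn2 2
    · simpa using hn2 3
    · simpa using hf2 j

end

end Pool.Agent.Helper6.HC
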