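import Mathlib

set_option autoImplicit false

namespace Pool.Agent.Helper6.HC

theorem num_aux {H T β A : ℝ} (hH : 1 ≤ H) (hT : 0 < T) (hβ : 1 ≤ β) (hA : 0 ≤ A)
    (h1 : 20639121408 * A ^ 12 * β ^ 14 ≤ T ^ 4) :
    96 * (144 * H * T ^ 2 * A ^ 3 / (T / β) ^ 3) ^ 3 * (72 * A ^ 3 / (T / β) ^ 5) ≤ (H / T) ^ 4 := by
  have hb0 : 0 < β := by linarith
  have e : 96 * (144 * H * T ^ 2 * A ^ 3 / (T / β) ^ 3) ^ 3 * (72 * A ^ 3 / (T / β) ^ 5) =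
      H ^ 3 * (20639121408 * A ^ 12 * β ^ 14) / T ^ 8 := by
    field_simp
    ring
  rw [e, div_pow, div_le_div_iff₀ (by positivity) (by positivity)]
  calc H ^ 3 * (20639121408 * A ^ 12 * β ^ 14) * T ^ 4 ≤ H ^ 3 * T ^ 4 * T ^ 4 := by gcongr
    _ = H ^ 3 * 1 * T ^ 8 := by ring
    _ ≤ H ^ 3 * H * T ^ 8 := by gcongr
    _ = H ^ 4 * T ^ 8 := by ring

theorem num_pos {H T β A m : ℝ} (hH : 1 ≤ H) (hT : 0 < T) (hβ : 1 ≤ β) (hA : 0 ≤ A) (hm : 1 ≤ m)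
    (h1 : 20639121408 * A ^ 12 * β ^ 14 ≤ T ^ 4) :
    36 * (16 * H / T ^ 4) * (2 * (4 * H * T ^ 2)) ^ 3 * (2 * (42 * m ^ 2) / T ^ 2) ^ 3 +
      96 * (144 * H * T ^ 2 * A ^ 3 / (T / β) ^ 3) ^ 3 * (72 * A ^ 3 / (T / β) ^ 5) <
      9 * (4 * H * T ^ 2) ^ 4 * (((42 * m) / 2) / T ^ 2) ^ 6 := by
  have h2 := num_aux hH hT hβ hA h1
  have e1 : 36 * (16 * H / T ^ 4) * (2 * (4 * H * T ^ 2)) ^ 3 * (2 * (42 * m ^ 2) / T ^ 2) ^ 3 =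
      174795522048 * m ^ 6 * (H / T) ^ 4 := by
    field_simp
    ring
  have e2 : 9 * (4 * H * T ^ 2) ^ 4 * (((42 * m) / 2) / T ^ 2) ^ 6 =
      197605142784 * m ^ 6 * (H / T) ^ 4 := by
    field_simp
    ring
  rw [e1, e2]
  have h3 : 0 < (H / T) ^ 4 := by positivity
  have h4 : 1 ≤ m ^ 6 := one_le_pow₀ hm
  have h5 : (H / T) ^ 4 < 22809620736 * m ^ 6 * (H / T) ^ 4 := by nlinarith
  linarith

theorem num_far {C H T β A m G : ℝ} (hH : 1 ≤ H) (hT : 0 < T) (hHT : H ≤ C * T) (hβ : 1 ≤ β)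
    (hA : 1 ≤ A) (hm : 1 ≤ m) (hC : 1 ≤ C)
    (h1 : 20639121408 * A ^ 12 * β ^ 14 ≤ T ^ 4)
    (h2 : 10 ^ 25 * C ^ 3 * β ^ 9 * A ^ 9 * m ^ 12 ≤ G ^ 6) :
    24 * (288 * H * T ^ 2 * A ^ 3 / (T / β) ^ 3) ^ 3 *
      (9 * (2 * (4 * H * T ^ 2)) ^ 4 * (2 * (42 * m ^ 2) / T ^ 2) ^ 6 +
      36 * (16 * H / T ^ 4) * (2 * (4 * H * T ^ 2)) ^ 3 * (2 * (42 * m ^ 2) / T ^ 2) ^ 3 +
      96 * (144 * H * T ^ 2 * A ^ 3 / (T / β) ^ 3) ^ 3 * (72 * A ^ 3 / (T / β) ^ 5)) <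
      9 * (4 * H * T ^ 2) ^ 4 * ((G / 2) / T ^ 2) ^ 6 -
      36 * (16 * H / T ^ 4) * (2 * (4 * H * T ^ 2)) ^ 3 * (8 / (T / β) ^ 2) ^ 3 -
      96 * (144 * H * T ^ 2 * A ^ 3 / (T / β) ^ 3) ^ 3 * (72 * A ^ 3 / (T / β) ^ 5) := by
  have hA0 : 0 ≤ A := by linarith
  have hb0 : 0 < β := by linarith
  have k1 := num_aux hH hT hβ hA0 h1
  have e1 : 36 * (16 * H / T ^ 4) * (2 * (4 * H * T ^ 2)) ^ 3 * (2 * (42 * m ^ 2) / T ^ 2) ^ 3 =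
      174795522048 * m ^ 6 * (H / T) ^ 4 := by
    field_simp
    ring
  have e2 : 9 * (2 * (4 * H * T ^ 2)) ^ 4 * (2 * (42 * m ^ 2) / T ^ 2) ^ 6 =
      12950250637492224 * m ^ 12 * (H / T) ^ 4 := by
    field_simp
    ring
  have e3 : 24 * (288 * H * T ^ 2 * A ^ 3 / (T / β) ^ 3) ^ 3 = 573308928 * (H / T) ^ 3 * β ^ 9 * A ^ 9 := by
    field_simp
    ring
  have e4 : 9 * (4 * H * T ^ 2) ^ 4 * ((G / 2) / T ^ 2) ^ 6 = 36 * G ^ 6 * (H / T) ^ 4 := by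
    field_simp
    ring
  have e5 : 36 * (16 * H / T ^ 4) * (2 * (4 * H * T ^ 2)) ^ 3 * (8 / (T / β) ^ 2) ^ 3 =
      150994944 * β ^ 6 * (H / T) ^ 4 := by
    field_simp
    ring
  rw [e1, e2, e3, e4, e5]
  set N := 96 * (144 * H * T ^ 2 * A ^ 3 / (T / β) ^ 3) ^ 3 * (72 * A ^ 3 / (T / β) ^ 5) with hN
  set w := (H / T) ^ 4 with hw
  have hw0 : 0 < w := by positivity
  have hm6 : 1 ≤ m ^ 6 := one_le_pow₀ hm
  have hm12 : m ^ 6 ≤ m ^ 12 := pow_le_pow_right₀ hm (by norm_num)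
  have hh : (H / T) ^ 3 ≤ C ^ 3 := by
    have : H / T ≤ C := by rw [div_le_iff₀ hT]; exact hHT
    gcongr
  have hbr : 12950250637492224 * m ^ 12 * w + 174795522048 * m ^ 6 * w + N ≤
      13000000000000000 * m ^ 12 * w := by
    have : 174795522048 * m ^ 6 * w ≤ 174795522048 * m ^ 12 * w := by gcongr
    have : w ≤ 1 * m ^ 12 * w := by nlinarith
    nlinarith
  have hN0 : 0 ≤ N := by
    have : 0 < H := by linarith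
    positivity
  have hbr0 : 0 ≤ 12950250637492224 * m ^ 12 * w + 174795522048 * m ^ 6 * w + N := by positivity
  have hP : (1 : ℝ) ≤ C ^ 3 * β ^ 9 * A ^ 9 * m ^ 12 := by
    have a1 : 1 ≤ C ^ 3 := one_le_pow₀ hC
    have a2 : 1 ≤ β ^ 9 := one_le_pow₀ hβ
    have a3 : 1 ≤ A ^ 9 := one_le_pow₀ hA
    have a4 : 1 ≤ m ^ 12 := one_le_pow₀ hm
    have a5 : 1 ≤ C ^ 3 * β ^ 9 := by nlinarith
    have a6 : 1 ≤ C ^ 3 * β ^ 9 * A ^ 9 := by nlinarith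
    nlinarith
  have hβ6 : β ^ 6 ≤ C ^ 3 * β ^ 9 * A ^ 9 * m ^ 12 := by
    have a0 : β ^ 6 ≤ β ^ 9 := pow_le_pow_right₀ hβ (by norm_num)
    have a1 : 1 ≤ C ^ 3 := one_le_pow₀ hC
    have a3 : 1 ≤ A ^ 9 := one_le_pow₀ hA
    have a4 : 1 ≤ m ^ 12 := one_le_pow₀ hm
    have a5 : 0 < β ^ 9 := by positivity
    calc β ^ 6 ≤ 1 * β ^ 9 * 1 * 1 := by linarith
      _ ≤ C ^ 3 * β ^ 9 * A ^ 9 * m ^ 12 := by gcongr
  set P := C ^ 3 * β ^ 9 * A ^ 9 * m ^ 12 with hPd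
  have hG : 10 ^ 25 * P ≤ G ^ 6 := by
    rw [hPd]; linarith
  have hL : 573308928 * (H / T) ^ 3 * β ^ 9 * A ^ 9 *
      (12950250637492224 * m ^ 12 * w + 174795522048 * m ^ 6 * w + N) ≤ 75 * 10 ^ 23 * P * w := by
    calc 573308928 * (H / T) ^ 3 * β ^ 9 * A ^ 9 *
        (12950250637492224 * m ^ 12 * w + 174795522048 * m ^ 6 * w + N) ≤
        573308928 * C ^ 3 * β ^ 9 * A ^ 9 * (13000000000000000 * m ^ 12 * w) := by gcongr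
      _ = (573308928 * 13000000000000000) * P * w := by rw [hPd]; ring
      _ ≤ 75 * 10 ^ 23 * P * w := by
          have : 0 < P * w := by positivity
          nlinarith
  have hR : 75 * 10 ^ 23 * P * w < 36 * G ^ 6 * w - 150994944 * β ^ 6 * w - N := by
    have r1 : 36 * (10 ^ 25 * P) * w ≤ 36 * G ^ 6 * w := by gcongr
    have r2 : 150994944 * β ^ 6 * w ≤ 150994944 * P * w := by gcongr
    have r3 : w ≤ P * w := by nlinarith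
    have r4 : 0 < P * w := by positivity
    nlinarith
  linarith

end Pool.Agent.Helper6.HC
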