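import Pool.Agent.Helper6.HC.Bounds

set_option autoImplicit false

namespace Pool.Agent.Helper6.HC

theorem pair_lemma {C H Q : ℝ} {x y x1 y1 : ℤ} (hp : Par C H Q) (hr : Reg H Q x y)
    (hr1 : Reg H Q x1 y1) {l : ℝ} (hl : 0 < l) (hl2 : 1 / 2 ≤ l ^ 2) {p q p' q' p1 p1' : ℤ}
    (hq : 0 < q) (hd : Red (√(x : ℝ)) Q l p q p' q') (hd1 : Red (√(x1 : ℝ)) Q l p1 q p1' q')
    (h0 : G0 x y p q = G0 x1 y1 p1 q) :
    ∃ r1 r2 : ℤ, |(r1 : ℝ)| ≤ 44352 * C ∧ |(r2 : ℝ)| ≤ 76032 * C * l ∧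
      4 * (G1 x y p q p' q' - G1 x1 y1 p1 q p1' q') = q * r1 ∧
      6 * (G2 x y p q p' q' - G2 x1 y1 p1 q p1' q') = q * r2 + q' * r1 := by
  have hQ : 0 < Q := by linarith [hp.hQ2]
  have hH : 0 < H := by linarith [hp.hH]
  have hqR : (0 : ℝ) < q := by exact_mod_cast hq
  have rel := G_rel x y p q p' q'
  have rel1 := G_rel x1 y1 p1 q p1' q'
  rw [hd.det] at rel
  rw [hd1.det] at rel1
  have hcop : IsCoprime q q' := ⟨-p', p, by linear_combination hd.det⟩
  have b1 := G1_bound hp hr hl hd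
  have b1' := G1_bound hp hr1 hl hd1
  have b2 := G2_bound hp hr hl hd
  have b2' := G2_bound hp hr1 hl hd1
  have b3 := G3_bound hp hr hl hd
  have b3' := G3_bound hp hr1 hl hd1
  have b4 := G4_bound hp hr hd
  have b4' := G4_bound hp hr1 hd1
  obtain ⟨r1, r2, r3, e1, e2, e3, e4⟩ := divide q q' (G1 x y p q p' q' - G1 x1 y1 p1 q p1' q')
    (G2 x y p q p' q' - G2 x1 y1 p1 q p1' q') (G1 x y p' q' p q - G1 x1 y1 p1' q' p1 q)
    (G0 x y p' q' - G0 x1 y1 p1' q') hq.ne' hcop (by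
      rw [h0] at rel
      linear_combination rel - rel1)
  set g1 := G1 x y p q p' q'
  set g1' := G1 x1 y1 p1 q p1' q'
  set g2 := G2 x y p q p' q'
  set g2' := G2 x1 y1 p1 q p1' q'
  set g3 := G1 x y p' q' p q
  set g3' := G1 x1 y1 p1' q' p1 q
  set g4 := G0 x y p' q'
  set g4' := G0 x1 y1 p1' q'
  have e1R : 4 * ((g1 : ℝ) - g1') = q * r1 := by exact_mod_cast e1
  have e2R : 6 * ((g2 : ℝ) - g2') = q * r2 + q' * r1 := by exact_mod_cast e2
  have e3R : 4 * ((g3 : ℝ) - g3') = q * r3 + q' * r2 := by exact_mod_cast e3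
  have e4R : (g4 : ℝ) - g4' = q' * r3 := by exact_mod_cast e4
  have hq2 := hd.h2
  rw [abs_of_pos hqR] at hq2
  have ha0 : 0 < (q : ℝ) * l / Q := by positivity
  have ha1 : (q : ℝ) * l / Q ≤ 1 := by
    rw [div_le_one hQ]
    rw [le_div_iff₀ hl] at hq2
    exact hq2
  have hb : |(q' : ℝ) / (l * Q)| ≤ 2 := by
    rw [abs_div, abs_of_pos (by positivity : (0:ℝ) < l * Q), div_le_iff₀ (by positivity)]
    have := hd.h4
    linarith
  have hmax := max_cond hp hl hd hq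
  have hsub : ∀ {a b c : ℝ}, |a| ≤ c → |b| ≤ c → |a - b| ≤ 2 * c := by
    intro a b c h1 h2
    have := abs_sub a b
    linarith
  have k1 : |(q * l / Q) * (r1 * Q * l / H)| ≤ 2112 := by
    have : (q * l / Q) * (r1 * Q * l / H) = 4 * ((g1 : ℝ) - g1') * (l ^ 2 / H) := by
      rw [e1R]; field_simp
    rw [this, abs_mul, abs_mul, abs_of_pos (by positivity : 0 < l ^ 2 / H), abs_of_pos (by norm_num : (0:ℝ) < 4)]
    calc 4 * |(g1 : ℝ) - g1'| * (l ^ 2 / H) ≤ 4 * (2 * (66 * H / l ^ 2)) * (l ^ 2 / H) := by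
          gcongr
          exact hsub b1 b1'
      _ = 528 := by field_simp; norm_num
      _ ≤ 2112 := by norm_num
  have k2 : |(q * l / Q) * (r2 * Q / (H * l)) + (q' / (l * Q)) * (r1 * Q * l / H)| ≤ 2112 := by
    have : (q * l / Q) * (r2 * Q / (H * l)) + (q' / (l * Q)) * (r1 * Q * l / H) =
        6 * ((g2 : ℝ) - g2') * (1 / H) := by
      rw [e2R]; field_simp
    rw [this, abs_mul, abs_mul, abs_of_pos (by positivity : 0 < 1 / H), abs_of_pos (by norm_num : (0:ℝ) < 6)]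
    calc 6 * |(g2 : ℝ) - g2'| * (1 / H) ≤ 6 * (2 * (132 * H)) * (1 / H) := by
          gcongr
          exact hsub b2 b2'
      _ = 1584 := by field_simp; norm_num
      _ ≤ 2112 := by norm_num
  have k3 : |(q * l / Q) * (r3 * Q / (H * l ^ 3)) + (q' / (l * Q)) * (r2 * Q / (H * l))| ≤ 2112 := by
    have : (q * l / Q) * (r3 * Q / (H * l ^ 3)) + (q' / (l * Q)) * (r2 * Q / (H * l)) =
        4 * ((g3 : ℝ) - g3') * (1 / (H * l ^ 2)) := by
      rw [e3R]; field_simp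
    rw [this, abs_mul, abs_mul, abs_of_pos (by positivity : 0 < 1 / (H * l ^ 2)),
      abs_of_pos (by norm_num : (0:ℝ) < 4)]
    calc 4 * |(g3 : ℝ) - g3'| * (1 / (H * l ^ 2)) ≤
          4 * (2 * (264 * H * l ^ 2)) * (1 / (H * l ^ 2)) := by
          gcongr
          exact hsub b3 b3'
      _ = 2112 := by field_simp; norm_num
      _ ≤ 2112 := by norm_num
  have k4 : |(q' / (l * Q)) * (r3 * Q / (H * l ^ 3))| ≤ 2112 := by
    have : (q' / (l * Q)) * (r3 * Q / (H * l ^ 3)) = ((g4 : ℝ) - g4') * (1 / (H * l ^ 4)) := by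
      rw [e4R]; field_simp
    rw [this, abs_mul, abs_of_pos (by positivity : 0 < 1 / (H * l ^ 4))]
    calc |(g4 : ℝ) - g4'| * (1 / (H * l ^ 4)) ≤
          (2 * (528 * H * l ^ 4)) * (1 / (H * l ^ 4)) := by
          gcongr
          exact hsub b4 b4'
      _ = 1056 := by field_simp; norm_num
      _ ≤ 2112 := by norm_num
  obtain ⟨B1, B2⟩ := quot_bound 2112 (q * l / Q) (q' / (l * Q)) (r1 * Q * l / H)
    (r2 * Q / (H * l)) (r3 * Q / (H * l ^ 3)) (by norm_num) ha0 ha1 hb hmax k1 k2 k3 k4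
  have hHQ := hp.hHQ
  have hC := hp.hC
  refine ⟨r1, r2, ?_, ?_, e1, e2⟩
  · have h1 : |(r1 : ℝ)| * (Q * l / H) ≤ 14 * 2112 := by
      have : (r1 : ℝ) * Q * l / H = r1 * (Q * l / H) := by ring
      rw [this, abs_mul, abs_of_pos (by positivity : 0 < Q * l / H)] at B1
      exact B1
    have h2 : 1 / (C * (3 / 2)) ≤ Q * l / H := by
      rw [div_le_div_iff₀ (by positivity) hH]
      have h3 := inv_l hl hl2
      rw [div_le_iff₀ hl] at h3
      have h4 : 0 < C * Q := by positivity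
      nlinarith
    have h3 : |(r1 : ℝ)| * (1 / (C * (3 / 2))) ≤ 14 * 2112 := by
      refine le_trans ?_ h1
      gcongr
    rw [mul_one_div, div_le_iff₀ (by positivity)] at h3
    linarith
  · have h1 : |(r2 : ℝ)| * (Q / (H * l)) ≤ 36 * 2112 := by
      have : (r2 : ℝ) * Q / (H * l) = r2 * (Q / (H * l)) := by ring
      rw [this, abs_mul, abs_of_pos (by positivity : 0 < Q / (H * l))] at B2
      exact B2
    have h2 : 1 / (C * l) ≤ Q / (H * l) := by
      rw [div_le_div_iff₀ (by positivity) (by positivity)]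
      nlinarith
    have h3 : |(r2 : ℝ)| * (1 / (C * l)) ≤ 36 * 2112 := by
      refine le_trans ?_ h1
      gcongr
    rw [mul_one_div, div_le_iff₀ (by positivity)] at h3
    linarith

end Pool.Agent.Helper6.HC
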