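import Pool.Agent.Helper6.HC.Count
import Pool.Agent.Helper6.HC.Num

set_option autoImplicit false

open Finset

namespace Pool.Agent.Helper6.HC

/-- the parameters in terms of `u` -/
structure Prm (C H T u : ℝ) : Prop where
  hpar : Par C H T
  hu : 1024 ≤ u
  hC : C ≤ u
  hT : u ^ 39300 ≤ T

section
variable {C H T u : ℝ}

theorem Prm.u1 (h : Prm C H T u) : 1 ≤ u := by linarith [h.hu]

theorem Prm.pT (h : Prm C H T u) {k : ℕ} (hk : k ≤ 39300) : u ^ k ≤ T :=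
  (pow_le_pow_right₀ h.u1 hk).trans h.hT

theorem Prm.HT (h : Prm C H T u) : H ≤ u * T := by
  have h1 := h.hpar.hHQ
  have h2 : 0 < T := by linarith [h.hpar.hQ2]
  have := h.hC
  nlinarith

theorem Prm.HTT (h : Prm C H T u) : H * T ≤ u * T ^ 2 := by
  have h1 := h.HT
  have h2 : 0 < T := by linarith [h.hpar.hQ2]
  nlinarith

theorem lam_le_pow (k n j : ℕ) (h : j ≤ (2 * k) * n) : lam j ≤ ((2 : ℝ) ^ n) ^ k := by
  refine (lam_mono h).trans ?_
  unfold lam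
  rw [← Real.sqrt_sq (by positivity : (0:ℝ) ≤ ((2 : ℝ) ^ n) ^ k)]
  apply Real.sqrt_le_sqrt
  have e : (2 : ℝ) ^ (2 * k * n) = (((2 : ℝ) ^ n) ^ k) ^ 2 := by
    rw [← pow_mul, ← pow_mul]; congr 1; ring
  rw [e]
  have : 0 < (((2 : ℝ) ^ n) ^ k) ^ 2 := by positivity
  linarith

theorem lam_sq_pow (k n : ℕ) : lam (k * n) ^ 2 = ((2 : ℝ) ^ n) ^ k / 2 := by
  rw [lam_sq, ← pow_mul, mul_comm n k]

/-- solutions with an unbalanced basis at the fine scale -/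
theorem aunb (n : ℕ) (hu : u = 2 ^ n) (h : Prm C H T u) (V : Sys T) (D J : ℕ)
    (hD : ∀ k : ℕ, 1 ≤ k → (k : ℝ) ≤ 792 * (H * T) ^ 4 → k.divisors.card ≤ D)
    (S : Finset (ℤ × ℤ)) (hS : ∀ e ∈ S, Reg H T e.1 e.2)
    (hJ : ∀ e ∈ S, G0 e.1 e.2 (V.p e.1) (V.q e.1) ≠ 0 → V.j e.1 < J) (hJ1 : 1 ≤ J)
    (hj : ∀ e ∈ S, 10 * n ≤ V.j e.1) :
    (S.card : ℝ) ≤ 3 * 10 ^ 14 * (T ^ 2 * J * D / u ^ 2) := by
  classical
  have hp := h.hpar
  have hT0 : 0 < T := by linarith [hp.hQ2]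
  have hu1 := h.u1
  have hu0 : 0 < u := by linarith
  have hH0 : 0 < H := by linarith [hp.hH]
  have hC0 : 0 < C := by linarith [hp.hC]
  have hHT := h.HT
  have hHTT := h.HTT
  have hJR : (1 : ℝ) ≤ J := by exact_mod_cast hJ1
  have hD0 : (0 : ℝ) ≤ D := by positivity
  have hl2 : lam (10 * n) ^ 2 = u ^ 10 / 2 := by rw [lam_sq_pow, ← hu]
  have hl0 : 0 < lam (10 * n) := lam_pos _
  have hl1 : u ^ 5 / 2 ≤ lam (10 * n) := by
    have : (u ^ 5 / 2) ^ 2 ≤ lam (10 * n) ^ 2 := by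
      rw [hl2]
      have : 0 < u ^ 10 := by positivity
      have e : (u ^ 5 / 2) ^ 2 = u ^ 10 / 4 := by ring
      rw [e]; linarith
    exact le_of_sq_le_sq (by simpa using this) hl0.le
  set X := T ^ 2 * J * D / u ^ 2 with hX
  have hX1 : T ^ 2 * D / u ^ 2 ≤ X := by
    rw [hX]
    apply div_le_div_of_nonneg_right _ (by positivity)
    have : 0 ≤ T ^ 2 * D := by positivity
    nlinarith
  have hX0 : 0 ≤ X := by positivity
  have hdec : ∀ k : ℕ, 2 ≤ k → T ^ 2 * D / u ^ k ≤ X := by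
    intro k hk
    refine le_trans ?_ hX1
    apply div_le_div_of_nonneg_left (by positivity) (by positivity)
    exact pow_le_pow_right₀ hu1 hk
  set S0 := S.filter (fun e => G0 e.1 e.2 (V.p e.1) (V.q e.1) = 0) with hS0
  set S1 := S.filter (fun e => G0 e.1 e.2 (V.p e.1) (V.q e.1) * (V.q' e.1) ^ 4 = 1) with hS1
  set S2 : ℕ → Finset (ℤ × ℤ) := fun j => S.filter (fun e => V.j e.1 = j ∧
    G0 e.1 e.2 (V.p e.1) (V.q e.1) ≠ 0 ∧
    G0 e.1 e.2 (V.p e.1) (V.q e.1) * (V.q' e.1) ^ 4 ≠ 1) with hS2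
  have hcover : S ⊆ (S0 ∪ S1) ∪ (range J).biUnion S2 := by
    intro e he
    rw [mem_union, mem_union]
    by_cases h0 : G0 e.1 e.2 (V.p e.1) (V.q e.1) = 0
    · left; left
      exact mem_filter.mpr ⟨he, h0⟩
    · by_cases h1 : G0 e.1 e.2 (V.p e.1) (V.q e.1) * (V.q' e.1) ^ 4 = 1
      · left; right
        exact mem_filter.mpr ⟨he, h1⟩
      · right
        rw [mem_biUnion]
        exact ⟨V.j e.1, mem_range.mpr (hJ e he h0), mem_filter.mpr ⟨he, rfl, h0, h1⟩⟩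
  have c0 : (S0.card : ℝ) ≤ 10 * (H * T) / lam (10 * n) * D :=
    case0u hp V D hD S0 (fun e he => hS e (mem_filter.mp he).1) (fun e he => (mem_filter.mp he).2)
      (10 * n) (fun e he => hj e (mem_filter.mp he).1)
  have c1 : (S1.card : ℝ) ≤ (2 * (132 * H / lam (10 * n) ^ 2 + 1) * (265 * H)) * D :=
    case1u hp V D hD S1 (fun e he => hS e (mem_filter.mp he).1) (fun e he => (mem_filter.mp he).2)
      (10 * n) (fun e he => hj e (mem_filter.mp he).1)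
  have c2 : ∀ j, ((S2 j).card : ℝ) ≤ 2 * 10 ^ 14 * (T ^ 2 * D / u ^ 7) := by
    intro j
    rcases (S2 j).eq_empty_or_nonempty with he | ⟨e0, he0⟩
    · rw [he]
      simp only [card_empty, Nat.cast_zero]
      positivity
    have hjj : 10 * n ≤ j := by
      have h1 := (mem_filter.mp he0).1
      have h2 := (mem_filter.mp he0).2.1
      rw [← h2]
      exact hj e0 h1
    have hlj : u ^ 10 / 2 ≤ lam j ^ 2 := by
      rw [← hl2]
      have := lam_mono hjj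
      gcongr
    refine (case2u hp V D hD j (S2 j) (fun e he => hS e (mem_filter.mp he).1)
      (fun e he => (mem_filter.mp he).2.1) (fun e he => (mem_filter.mp he).2.2.1)
      (fun e he => (mem_filter.mp he).2.2.2)).trans ?_
    have h1 : 1 / lam j ^ 2 ≤ 2 / u ^ 10 := by
      rw [div_le_div_iff₀ (by have := lam_pos j; positivity) (by positivity)]
      linarith
    calc (10 : ℝ) ^ 14 * C ^ 2 * (H * T) * D * (1 / lam j ^ 2) ≤
          (10 : ℝ) ^ 14 * u ^ 2 * (u * T ^ 2) * D * (2 / u ^ 10) := by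
            have := h.hC
            gcongr
      _ = 2 * 10 ^ 14 * (T ^ 2 * D / u ^ 7) := by field_simp
  have b0 : (S0.card : ℝ) ≤ 20 * X := by
    refine c0.trans ?_
    calc 10 * (H * T) / lam (10 * n) * D ≤ 10 * (u * T ^ 2) / (u ^ 5 / 2) * D := by gcongr
      _ = 20 * (T ^ 2 * D / u ^ 4) := by field_simp; ring
      _ ≤ 20 * X := by
        have := hdec 4 (by norm_num)
        linarith
  have b1 : (S1.card : ℝ) ≤ 140450 * X := by
    refine c1.trans ?_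
    rw [hl2]
    have hTu : u ^ 3 ≤ T := h.pT (by norm_num)
    have e1 : 132 * H / (u ^ 10 / 2) = 264 * H / u ^ 10 := by field_simp; ring
    rw [e1]
    calc (2 * (264 * H / u ^ 10 + 1) * (265 * H)) * D ≤
          (2 * (264 * (u * T) / u ^ 10 + 1) * (265 * (u * T))) * D := by gcongr
      _ = 139920 * (T ^ 2 * D / u ^ 8) + 530 * (T * D * u ^ 3 / u ^ 2) := by field_simp; ring
      _ ≤ 139920 * (T ^ 2 * D / u ^ 8) + 530 * (T * D * T / u ^ 2) := by gcongr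
      _ = 139920 * (T ^ 2 * D / u ^ 8) + 530 * (T ^ 2 * D / u ^ 2) := by ring
      _ ≤ 140450 * X := by
        have := hdec 8 (by norm_num)
        linarith
  have b2 : (((range J).biUnion S2).card : ℝ) ≤ 2 * 10 ^ 14 * X := by
    calc (((range J).biUnion S2).card : ℝ) ≤ ∑ j ∈ range J, ((S2 j).card : ℝ) := by
          exact_mod_cast card_biUnion_le
      _ ≤ ∑ _j ∈ range J, (2 * 10 ^ 14 * (T ^ 2 * D / u ^ 7)) := sum_le_sum (fun j _ => c2 j)
      _ = 2 * 10 ^ 14 * (T ^ 2 * J * D / u ^ 7) := by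
          rw [sum_const, card_range, nsmul_eq_mul]; ring
      _ ≤ 2 * 10 ^ 14 * X := by
          rw [hX]
          have : u ^ 2 ≤ u ^ 7 := pow_le_pow_right₀ hu1 (by norm_num)
          gcongr
  have h1 : (S.card : ℝ) ≤ S0.card + S1.card + ((range J).biUnion S2).card := by
    have h2 := card_le_card hcover
    have h3 := card_union_le (S0 ∪ S1) ((range J).biUnion S2)
    have h4 := card_union_le S0 S1
    have : S.card ≤ S0.card + S1.card + ((range J).biUnion S2).card := by omega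
    exact_mod_cast this
  nlinarith

/-- multiplicities for balanced solutions -/
theorem mult_bal (n : ℕ) (hu : u = 2 ^ n) (h : Prm C H T u) (V : Sys T)
    (S : Finset (ℤ × ℤ)) (hS : ∀ e ∈ S, Reg H T e.1 e.2) (hj : ∀ e ∈ S, V.j e.1 < 10 * n) :
    ∀ e0 ∈ S, ∀ S' ⊆ S, (∀ e ∈ S', ∃ k : ℤ, |√(e.1:ℝ) - √(e0.1:ℝ) - k| ≤ 1 / T ^ 2) →
      S'.card ≤ 2 ^ 66 * 2 ^ (78 * n) := by
  intro e0 he0 S' hS' hcl
  have hp := h.hpar
  have hT0 : 0 < T := by linarith [hp.hQ2]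
  have hu1 := h.u1
  have hu0 : 0 < u := by linarith
  have hH0 : 0 < H := by linarith [hp.hH]
  have hlam : lam (V.j e0.1) ≤ u ^ 5 := by
    rw [hu]
    exact lam_le_pow 5 n _ (by have := hj e0 he0; omega)
  have h5 : 1 ≤ u ^ 5 := one_le_pow₀ hu1
  have hfr : Fr (√(e0.1 : ℝ)) T (2 * u ^ 5) (V.p e0.1) (V.q e0.1) (V.p' e0.1) (V.q' e0.1) :=
    (V.red e0.1).fr hT0 (lam_pos _) (lam_sq_ge _) (by linarith) (by linarith)
  have hTu : u ^ 6 ≤ T := h.pT (by norm_num)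
  have hmul := mult hp (by positivity : 0 < 2 * u ^ 5) (by
    have : u ^ 6 = u * u ^ 5 := by ring
    have := h.hu
    nlinarith) (V.qpos hp e0.1) hfr S' (fun e he => hS e (hS' he)) hcl
  have hHT : H / T ≤ u := by
    rw [div_le_iff₀ hT0]; exact h.HT
  have hb : 2 * (1980 * (H / T) * (2 * (2 * u ^ 5)) ^ 5) + 1 ≤ 2 ^ 22 * u ^ 26 := by
    calc 2 * (1980 * (H / T) * (2 * (2 * u ^ 5)) ^ 5) + 1 ≤
          2 * (1980 * u * (2 * (2 * u ^ 5)) ^ 5) + 1 := by gcongr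
      _ = 4055040 * u ^ 26 + 1 := by ring
      _ ≤ 2 ^ 22 * u ^ 26 := by
        have : 1 ≤ u ^ 26 := one_le_pow₀ hu1
        norm_num
        linarith
  have hfin : (S'.card : ℝ) ≤ ((2 ^ 66 * 2 ^ (78 * n) : ℕ) : ℝ) := by
    refine hmul.trans ?_
    calc (2 * (1980 * (H / T) * (2 * (2 * u ^ 5)) ^ 5) + 1) ^ 3 ≤ (2 ^ 22 * u ^ 26) ^ 3 := by
          gcongr
      _ = 2 ^ 66 * u ^ 78 := by ring
      _ = ((2 ^ 66 * 2 ^ (78 * n) : ℕ) : ℝ) := by
          rw [Nat.cast_mul, Nat.cast_pow, Nat.cast_pow, hu, ← pow_mul, mul_comm n 78]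
          norm_num
  exact_mod_cast hfin

/-- the count of the balanced solutions of a given index at the coarse scale -/
theorem bal_index (n : ℕ) (hu : u = 2 ^ n) (h : Prm C H T u) (V : Sys T) (β Q : ℝ)
    (hβ : β = u ^ 620) (hQ : Q = T / β) (U : Sys Q)
    (j : ℕ) (hjn : j ≤ 80 * n)
    (S : Finset (ℤ × ℤ)) (hS : ∀ e ∈ S, Reg H T e.1 e.2) (hV : ∀ e ∈ S, V.j e.1 < 10 * n)
    (hU : ∀ e ∈ S, U.j e.1 = j) :
    (S.card : ℝ) ≤ (2 * (2 ^ 41) ^ 8) * (T ^ 2 / u ^ 4) := by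
  have hp := h.hpar
  have hT0 : 0 < T := by linarith [hp.hQ2]
  have hu1 := h.u1
  have hu0 : 0 < u := by linarith
  have hH1 := hp.hH
  have hH0 : 0 < H := by linarith [hp.hH]
  have hC1 := hp.hC
  have hβ1 : 1 ≤ β := by rw [hβ]; exact one_le_pow₀ hu1
  have hβ0 : 0 < β := by linarith
  have hQ0 : 0 < Q := by rw [hQ]; positivity
  have hTQ : T / Q = β := by rw [hQ]; field_simp
  have hQT : Q ≤ T := by rw [hQ]; exact div_le_self hT0.le hβ1
  have hQbig : u ^ 3000 ≤ Q := by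
    rw [hQ, le_div_iff₀ hβ0, hβ, ← pow_add]
    exact h.pT (by norm_num)
  have hQ2 : 2 ≤ Q := by
    have : u ≤ u ^ 3000 := by
      calc u = u ^ 1 := (pow_one u).symm
        _ ≤ u ^ 3000 := pow_le_pow_right₀ hu1 (by norm_num)
    linarith [h.hu]
  have hp' : Par (C * β ^ 3) (H * (T / Q) ^ 2) Q := by
    rw [hTQ]
    have hb3 : 1 ≤ β ^ 3 := one_le_pow₀ hβ1
    have hb2 : 1 ≤ β ^ 2 := one_le_pow₀ hβ1
    refine ⟨by nlinarith, by nlinarith, ?_, hQ2, ?_⟩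
    · have e : C * β ^ 3 * Q = C * T * β ^ 2 := by rw [hQ]; field_simp
      rw [e]
      have := hp.hHQ
      gcongr
    · have h1 : C * β ^ 3 ≤ u ^ 1861 := by
        calc C * β ^ 3 ≤ u * β ^ 3 := by have := h.hC; gcongr
          _ = u ^ 1861 := by rw [hβ]; ring
      have h2 : (u ^ 3000) ^ 3 ≤ Q ^ 3 := by gcongr
      have h3 : u ^ 1862 ≤ (u ^ 3000) ^ 3 := by
        rw [← pow_mul]
        exact pow_le_pow_right₀ hu1 (by norm_num)
      have h4 : 1024 * u ^ 1861 ≤ u ^ 1862 := by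
        calc 1024 * u ^ 1861 ≤ u * u ^ 1861 := by have := h.hu; gcongr
          _ = u ^ 1862 := by ring
      have : 0 < u ^ 1861 := by positivity
      linarith
  set A := 2 * u ^ 40 with hA
  have h40 : 1 ≤ u ^ 40 := one_le_pow₀ hu1
  have hA1 : 3 / 2 ≤ A := by rw [hA]; linarith
  have hA2 : 2 * lam j ≤ A := by
    have : lam j ≤ u ^ 40 := by
      rw [hu]
      exact lam_le_pow 40 n j (by omega)
    rw [hA]; linarith
  have hAQ : 4 * A ≤ 3 * Q := by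
    have h1 : u ^ 41 ≤ Q := (pow_le_pow_right₀ hu1 (by norm_num : 41 ≤ 3000)).trans hQbig
    have h2 : u ^ 41 = u * u ^ 40 := by ring
    have := h.hu
    rw [hA]
    nlinarith
  have c : ∀ k : ℕ, (((2 : ℕ) ^ (k * n) : ℕ) : ℝ) = u ^ k := by
    intro k
    push_cast
    rw [hu, ← pow_mul, mul_comm n k]
  have hg : ((42 * 2 ^ (82 * n) : ℕ) : ℝ) = 42 * u ^ 82 := by
    rw [Nat.cast_mul, c]; norm_num
  have hTh : ((42 * 2 ^ (164 * n) : ℕ) : ℝ) = 42 * (u ^ 82) ^ 2 := by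
    rw [Nat.cast_mul, c, ← pow_mul]; norm_num
  have hG : ((2 ^ (1158 * n) : ℕ) : ℝ) = u ^ 1158 := c 1158
  have hR : ((4 * 2 ^ (1240 * n) : ℕ) : ℝ) = 4 * u ^ 1240 := by
    rw [Nat.cast_mul, c]; norm_num
  have hsm : 20639121408 * A ^ 12 * β ^ 14 ≤ T ^ 4 := by
    have e : 20639121408 * A ^ 12 * β ^ 14 = 84537841287168 * u ^ 9160 := by
      rw [hA, hβ]; ring
    rw [e]
    have h1 : (u ^ 3000) ^ 4 ≤ T ^ 4 := by
      have := h.pT (k := 3000) (by norm_num)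
      gcongr
    have h2 : 84537841287168 * u ^ 9160 ≤ (u ^ 3000) ^ 4 := by
      calc 84537841287168 * u ^ 9160 ≤ 1024 ^ 10 * u ^ 9160 := by
            have : 0 < u ^ 9160 := by positivity
            norm_num
            linarith
        _ ≤ u ^ 10 * u ^ 9160 := by
            have := h.hu
            gcongr
        _ = u ^ 9170 := by ring
        _ ≤ u ^ 12000 := pow_le_pow_right₀ hu1 (by norm_num)
        _ = (u ^ 3000) ^ 4 := by ring
    linarith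
  have hm1 : 1 ≤ u ^ 82 := one_le_pow₀ hu1
  have hpos := num_pos (m := u ^ 82) hH1 hT0 hβ1 (by linarith : 0 ≤ A) hm1 hsm
  have hfar := num_far (C := C) (G := u ^ 1158) (m := u ^ 82) hH1 hT0 hp.hHQ hβ1
    (by linarith : 1 ≤ A) hm1 hC1 hsm (by
      calc 10 ^ 25 * C ^ 3 * β ^ 9 * A ^ 9 * (u ^ 82) ^ 12 ≤
            10 ^ 25 * u ^ 3 * β ^ 9 * A ^ 9 * (u ^ 82) ^ 12 := by
              have := h.hC
              gcongr
        _ = (512 * 10 ^ 25) * u ^ 6927 := by rw [hA, hβ]; ring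
        _ ≤ 1024 ^ 21 * u ^ 6927 := by
            have : 0 < u ^ 6927 := by positivity
            norm_num
            linarith
        _ ≤ u ^ 21 * u ^ 6927 := by
            have := h.hu
            gcongr
        _ = (u ^ 1158) ^ 6 := by ring)
  rw [← hQ] at hpos hfar
  have hnat : 1 ≤ 2 ^ (82 * n) := Nat.one_le_two_pow
  have hnat2 : 1 ≤ 2 ^ (164 * n) := Nat.one_le_two_pow
  have hG2 : 2 ≤ 2 ^ (1158 * n) := by
    have : (2 : ℝ) ≤ ((2 ^ (1158 * n) : ℕ) : ℝ) := by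
      rw [hG]
      calc (2 : ℝ) ≤ u ^ 1 := by rw [pow_one]; linarith [h.hu]
        _ ≤ u ^ 1158 := pow_le_pow_right₀ hu1 (by norm_num)
    exact_mod_cast this
  have hmain := bal_count (C := C) (C' := C * β ^ 3) (A := A) hp hp' hQT U j hA1 hA2 hAQ S hS hU
    (2 ^ 66 * 2 ^ (78 * n)) (mult_bal n hu h V S hS hV) (42 * 2 ^ (82 * n)) (2 ^ (1158 * n))
    (42 * 2 ^ (164 * n)) (4 * 2 ^ (1240 * n)) (by omega) hG2 (by omega)
    (by rw [hTQ, hR, hβ]; rw [← pow_mul]) (by rw [hg, hTh]; exact hpos)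
    (by rw [hG, hTh]; exact hfar)
  refine hmain.trans ?_
  -- the main term
  have hM0 : (((2 : ℕ) ^ 66 * 2 ^ (78 * n) : ℕ) : ℝ) = 2 ^ 66 * u ^ 78 := by
    rw [Nat.cast_mul, c]; norm_num
  have hdiv : ((2 * (4 * 2 ^ (1240 * n)) / (42 * 2 ^ (164 * n)) + 1 : ℕ) : ℝ) ≤ u ^ 1076 := by
    have h1 : ((2 * (4 * 2 ^ (1240 * n)) / (42 * 2 ^ (164 * n)) : ℕ) : ℝ) ≤
        ((2 * (4 * 2 ^ (1240 * n)) : ℕ) : ℝ) / ((42 * 2 ^ (164 * n) : ℕ) : ℝ) := Nat.cast_div_le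
    rw [Nat.cast_add, Nat.cast_one]
    have h2 : ((2 * (4 * 2 ^ (1240 * n)) : ℕ) : ℝ) / ((42 * 2 ^ (164 * n) : ℕ) : ℝ) =
        4 / 21 * u ^ 1076 := by
      rw [Nat.cast_mul, hR, hTh]
      push_cast
      field_simp
      norm_num
    rw [h2] at h1
    have h3 : (2 : ℝ) ≤ u ^ 1076 := by
      calc (2 : ℝ) ≤ u ^ 1 := by rw [pow_one]; linarith [h.hu]
        _ ≤ u ^ 1076 := pow_le_pow_right₀ hu1 (by norm_num)
    linarith
  have hterm1 : (5 * Q ^ 2) * (((2 : ℕ) ^ 66 * 2 ^ (78 * n) : ℕ) *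
      ((2 * (4 * 2 ^ (1240 * n)) / (42 * 2 ^ (164 * n)) + 1 : ℕ) * (3 * ((42 * 2 ^ (82 * n) : ℕ) : ℝ)) +
        3 * ((2 ^ (1158 * n) : ℕ) : ℝ))) ≤ 2 ^ 76 * (T ^ 2 / u ^ 4) := by
    rw [hM0, hg, hG]
    calc (5 * Q ^ 2) * (2 ^ 66 * u ^ 78 *
        ((2 * (4 * 2 ^ (1240 * n)) / (42 * 2 ^ (164 * n)) + 1 : ℕ) * (3 * (42 * u ^ 82)) +
        3 * u ^ 1158)) ≤ (5 * Q ^ 2) * (2 ^ 66 * u ^ 78 * (u ^ 1076 * (3 * (42 * u ^ 82)) +
        3 * u ^ 1158)) := by gcongr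
      _ = (5 * 129 * 2 ^ 66) * (T ^ 2 / u ^ 4) := by
          rw [hQ, hβ]
          field_simp
          ring
      _ ≤ 2 ^ 76 * (T ^ 2 / u ^ 4) := by
          have : 0 < T ^ 2 / u ^ 4 := by positivity
          norm_num
          linarith
  have hb : 2 * (1980 * (H * (T / Q) ^ 2 / Q) * A ^ 5) + 1 ≤ 2 ^ 17 * u ^ 2061 := by
    rw [hTQ]
    have h1 : H * β ^ 2 / Q ≤ u * β ^ 3 := by
      rw [div_le_iff₀ hQ0, hQ]
      have h2 := h.HT
      calc H * β ^ 2 ≤ (u * T) * β ^ 2 := by gcongr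
        _ = u * β ^ 3 * (T / β) := by field_simp
    calc 2 * (1980 * (H * β ^ 2 / Q) * A ^ 5) + 1 ≤ 2 * (1980 * (u * β ^ 3) * A ^ 5) + 1 := by gcongr
      _ = 126720 * u ^ 2061 + 1 := by rw [hA, hβ]; ring
      _ ≤ 2 ^ 17 * u ^ 2061 := by
          have : 1 ≤ u ^ 2061 := one_le_pow₀ hu1
          norm_num
          linarith
  have hAQT : 6 * (2 * (A * Q) + 1) ≤ 2 ^ 5 * u ^ 40 * T := by
    have h1 : A * Q ≤ 2 * u ^ 40 * T := by rw [hA]; gcongr
    have h2 : 1 ≤ u ^ 40 * T := by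
      have : 1 ≤ T := by linarith [hp.hQ2]
      nlinarith
    nlinarith
  have hpos2 : 0 ≤ 2 * (1980 * (H * (T / Q) ^ 2 / Q) * A ^ 5) + 1 := by positivity
  have hterm2 : ((2 * (1980 * (H * (T / Q) ^ 2 / Q) * A ^ 5) + 1) ^ 16 * (6 * (2 * (A * Q) + 1))) *
        (2 * (1980 * (H * (T / Q) ^ 2 / Q) * A ^ 5) + 1) ^ 3 ≤ (2 ^ 41) ^ 8 * (T ^ 2 / u ^ 4) := by
    calc _ ≤ ((2 ^ 17 * u ^ 2061) ^ 16 * (2 ^ 5 * u ^ 40 * T)) * (2 ^ 17 * u ^ 2061) ^ 3 := by
          have : 0 ≤ 6 * (2 * (A * Q) + 1) := by positivity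
          gcongr
      _ = (2 ^ 41) ^ 8 * (u ^ 39203 * T / u ^ 4) := by
          field_simp
      _ ≤ (2 ^ 41) ^ 8 * (T * T / u ^ 4) := by
          have := h.pT (k := 39203) (by norm_num)
          gcongr
      _ = (2 ^ 41) ^ 8 * (T ^ 2 / u ^ 4) := by ring
  have hX : 0 < T ^ 2 / u ^ 4 := by positivity
  have h9 : (2 : ℝ) ^ 76 + (2 ^ 41) ^ 8 ≤ 2 * (2 ^ 41) ^ 8 := by norm_num
  have := add_le_add hterm1 hterm2
  refine this.trans ?_
  rw [← add_mul]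
  gcongr

/-- **the count on a piece** -/
theorem piece2 (n : ℕ) (hu : u = 2 ^ n) (h : Prm C H T u) (D J : ℕ)
    (hD : ∀ k : ℕ, 1 ≤ k → (k : ℝ) ≤ 792 * (H * T) ^ 4 → k.divisors.card ≤ D)
    (hJ : ∀ (V : Sys T) (x y : ℤ), Reg H T x y → G0 x y (V.p x) (V.q x) ≠ 0 → V.j x < J)
    (hJ1 : 1 ≤ J) (hD1 : 1 ≤ D)
    (S : Finset (ℤ × ℤ)) (hS : ∀ e ∈ S, Reg H T e.1 e.2) :
    (S.card : ℝ) ≤ (2 ^ 85) ^ 4 * (T ^ 2 * J * D / u ^ 2) := by
  classical
  have hp := h.hpar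
  have hT0 : 0 < T := by linarith [hp.hQ2]
  have hu1 := h.u1
  have hu0 : 0 < u := by linarith
  obtain ⟨V⟩ := exists_sys T hT0
  obtain ⟨U⟩ := exists_sys (T / u ^ 620) (by positivity)
  have hJR : (1 : ℝ) ≤ J := by exact_mod_cast hJ1
  have hDR : (1 : ℝ) ≤ D := by exact_mod_cast hD1
  set X := T ^ 2 * J * D / u ^ 2 with hX
  have hX1 : T ^ 2 / u ^ 2 ≤ X := by
    rw [hX]
    apply div_le_div_of_nonneg_right _ (by positivity)
    have : 0 < T ^ 2 := by positivity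
    have : 1 ≤ (J : ℝ) * D := by nlinarith
    nlinarith
  have hX0 : 0 < X := by positivity
  set SA := S.filter (fun e => 10 * n ≤ V.j e.1) with hSA
  set SB := S.filter (fun e => V.j e.1 < 10 * n ∧ 80 * n ≤ U.j e.1) with hSB
  set SC : ℕ → Finset (ℤ × ℤ) := fun j => S.filter (fun e => V.j e.1 < 10 * n ∧ U.j e.1 = j) with hSC
  have hcover : S ⊆ (SA ∪ SB) ∪ (range (80 * n)).biUnion SC := by
    intro e he
    rw [mem_union, mem_union]
    by_cases h0 : 10 * n ≤ V.j e.1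
    · left; left
      exact mem_filter.mpr ⟨he, h0⟩
    · by_cases h1 : 80 * n ≤ U.j e.1
      · left; right
        exact mem_filter.mpr ⟨he, by omega, h1⟩
      · right
        rw [mem_biUnion]
        exact ⟨U.j e.1, mem_range.mpr (by omega), mem_filter.mpr ⟨he, by omega, rfl⟩⟩
  have a1 : (SA.card : ℝ) ≤ 3 * 10 ^ 14 * X :=
    aunb n hu h V D J hD SA (fun e he => hS e (mem_filter.mp he).1)
      (fun e he h0 => hJ V e.1 e.2 (hS e (mem_filter.mp he).1) h0) hJ1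
      (fun e he => (mem_filter.mp he).2)
  have hHQ : Par (C * (u ^ 620) ^ 3) (H * (T / (T / u ^ 620)) ^ 2) (T / u ^ 620) := by
    have hβ1 : 1 ≤ u ^ 620 := one_le_pow₀ hu1
    have e1 : T / (T / u ^ 620) = u ^ 620 := by field_simp
    rw [e1]
    have hQbig : u ^ 3000 ≤ T / u ^ 620 := by
      rw [le_div_iff₀ (by positivity), ← pow_add]
      exact h.pT (by norm_num)
    have hC1 := hp.hC
    have hH1 := hp.hH
    have hb3 : 1 ≤ (u ^ 620) ^ 3 := one_le_pow₀ hβ1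
    have hb2 : 1 ≤ (u ^ 620) ^ 2 := one_le_pow₀ hβ1
    refine ⟨by nlinarith, by nlinarith, ?_, ?_, ?_⟩
    · have e : C * (u ^ 620) ^ 3 * (T / u ^ 620) = C * T * (u ^ 620) ^ 2 := by field_simp
      rw [e]
      have := hp.hHQ
      gcongr
    · have : u ≤ u ^ 3000 := by
        calc u = u ^ 1 := (pow_one u).symm
          _ ≤ u ^ 3000 := pow_le_pow_right₀ hu1 (by norm_num)
      linarith [h.hu]
    · have h1 : C * (u ^ 620) ^ 3 ≤ u ^ 1861 := by
        calc C * (u ^ 620) ^ 3 ≤ u * (u ^ 620) ^ 3 := by have := h.hC; gcongr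
          _ = u ^ 1861 := by ring
      have h2 : (u ^ 3000) ^ 3 ≤ (T / u ^ 620) ^ 3 := by gcongr
      have h3 : u ^ 1862 ≤ (u ^ 3000) ^ 3 := by
        rw [← pow_mul]
        exact pow_le_pow_right₀ hu1 (by norm_num)
      have h4 : 1024 * u ^ 1861 ≤ u ^ 1862 := by
        calc 1024 * u ^ 1861 ≤ u * u ^ 1861 := by have := h.hu; gcongr
          _ = u ^ 1862 := by ring
      have : 0 < u ^ 1861 := by positivity
      linarith
  have a2 : (SB.card : ℝ) ≤ 2 ^ 69 * X := by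
    have h1 := qunb_count (T := T) hHQ (div_le_self hT0.le (one_le_pow₀ hu1)) U (80 * n) SB
      (fun e he => (mem_filter.mp he).2.2) (((2 ^ 66 * 2 ^ (78 * n) : ℕ) : ℝ)) (by positivity) (by
        intro e0 he0 S' hS' hcl
        have := mult_bal n hu h V SB (fun e he => hS e (mem_filter.mp he).1)
          (fun e he => (mem_filter.mp he).2.1) e0 he0 S' hS' hcl
        exact_mod_cast this)
    refine h1.trans ?_
    rw [lam_sq_pow, ← hu]
    have e1 : (((2 : ℕ) ^ 66 * 2 ^ (78 * n) : ℕ) : ℝ) = 2 ^ 66 * u ^ 78 := by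
      rw [Nat.cast_mul, Nat.cast_pow, Nat.cast_pow, hu, ← pow_mul, mul_comm n 78]
      norm_num
    rw [e1]
    calc 4 * T ^ 2 / (u ^ 80 / 2) * (2 ^ 66 * u ^ 78) = 2 ^ 69 * (T ^ 2 / u ^ 2) := by
          field_simp
          ring
      _ ≤ 2 ^ 69 * X := by gcongr
  have a3 : ∀ j ∈ range (80 * n), ((SC j).card : ℝ) ≤ (2 * (2 ^ 41) ^ 8) * (T ^ 2 / u ^ 4) := by
    intro j hj
    exact bal_index n hu h V (u ^ 620) (T / u ^ 620) rfl rfl U j (mem_range.mp hj).le (SC j) (fun e he => hS e (mem_filter.mp he).1)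
      (fun e he => (mem_filter.mp he).2.1) (fun e he => (mem_filter.mp he).2.2)
  have hnu : (n : ℝ) ≤ u := by
    rw [hu]
    have : n ≤ 2 ^ n := Nat.lt_two_pow_self.le
    exact_mod_cast this
  have a4 : (((range (80 * n)).biUnion SC).card : ℝ) ≤ (2 ^ 42) ^ 8 * X := by
    calc (((range (80 * n)).biUnion SC).card : ℝ) ≤ ∑ j ∈ range (80 * n), ((SC j).card : ℝ) := by
          exact_mod_cast card_biUnion_le
      _ ≤ ∑ _j ∈ range (80 * n), ((2 * (2 ^ 41) ^ 8) * (T ^ 2 / u ^ 4)) := sum_le_sum a3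
      _ = 80 * n * ((2 * (2 ^ 41) ^ 8) * (T ^ 2 / u ^ 4)) := by
          rw [sum_const, card_range, nsmul_eq_mul]; push_cast; ring
      _ ≤ 80 * u * ((2 * (2 ^ 41) ^ 8) * (T ^ 2 / u ^ 4)) := by gcongr
      _ = 80 * (2 * (2 ^ 41) ^ 8) * (T ^ 2 / u ^ 3) := by field_simp
      _ ≤ 80 * (2 * (2 ^ 41) ^ 8) * (T ^ 2 / u ^ 2) := by
          have : u ^ 2 ≤ u ^ 3 := pow_le_pow_right₀ hu1 (by norm_num)
          gcongr
      _ ≤ (2 ^ 42) ^ 8 * X := by
          have : (80 : ℝ) * (2 * (2 ^ 41) ^ 8) ≤ (2 ^ 42) ^ 8 := by norm_num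
          gcongr
  have h1 : (S.card : ℝ) ≤ SA.card + SB.card + ((range (80 * n)).biUnion SC).card := by
    have h2 := card_le_card hcover
    have h3 := card_union_le (SA ∪ SB) ((range (80 * n)).biUnion SC)
    have h4 := card_union_le SA SB
    have : S.card ≤ SA.card + SB.card + ((range (80 * n)).biUnion SC).card := by omega
    exact_mod_cast this
  have h5 : (3 : ℝ) * 10 ^ 14 + 2 ^ 69 + (2 ^ 42) ^ 8 ≤ (2 ^ 85) ^ 4 := by norm_num
  calc (S.card : ℝ) ≤ 3 * 10 ^ 14 * X + 2 ^ 69 * X + (2 ^ 42) ^ 8 * X := by linarith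
    _ = (3 * 10 ^ 14 + 2 ^ 69 + (2 ^ 42) ^ 8) * X := by ring
    _ ≤ (2 ^ 85) ^ 4 * X := by gcongr

end

end Pool.Agent.Helper6.HC
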