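import Pool.Agent.Helper6.HC.Piece2
import Pool.Agent.Helper6.HC.PropL

set_option autoImplicit false

open Finset

namespace Pool.Agent.Helper6.HC

/-- the count on a piece, with a power saving -/
theorem piece3 : ∃ K : ℝ, 0 < K ∧ ∀ C H T : ℝ, Par C H T → 2048 ≤ T ^ (1 / 39300 : ℝ) →
    2 * C ≤ T ^ (1 / 39300 : ℝ) → ∀ S : Finset (ℤ × ℤ), (∀ e ∈ S, Reg H T e.1 e.2) →
      (S.card : ℝ) ≤ K * T ^ (2 - 1 / 39300 : ℝ) := by
  obtain ⟨d, hd⟩ : ∃ d : ℝ, d = 1 / 589500 := ⟨_, rfl⟩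
  have hd0 : 0 < d := by rw [hd]; norm_num
  obtain ⟨K0, hK0, hK⟩ := Pool.Agent.Helper6.HCDiv.divisor_bound d hd0
  obtain ⟨a, ha⟩ : ∃ a : ℝ, a = K0 * 792 ^ d := ⟨_, rfl⟩
  obtain ⟨b, hb⟩ : ∃ b : ℝ, b = 132 ^ d / d := ⟨_, rfl⟩
  have ha0 : 0 < a := by rw [ha]; positivity
  have hb0 : 0 < b := by rw [hb]; positivity
  refine ⟨(2 ^ 85) ^ 4 * (4 * ((a + 1) * (b + 1))), by positivity, ?_⟩
  intro C H T hp hw hCw S hS
  have hH := hp.hH
  have hT2 := hp.hQ2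
  have hT0 : 0 < T := by linarith
  have hT1 : 1 ≤ T := by linarith
  obtain ⟨w, hwd⟩ : ∃ w : ℝ, w = T ^ (1 / 39300 : ℝ) := ⟨_, rfl⟩
  rw [← hwd] at hw hCw
  have hw0 : 0 < w := by linarith
  have hwT : w ^ 39300 = T := by
    rw [hwd, ← Real.rpow_natCast, ← Real.rpow_mul hT0.le]
    norm_num
  obtain ⟨n, hn1, hn2⟩ := exists_nat_pow_near (by linarith : 1 ≤ w) (by norm_num : (1:ℝ) < 2)
  obtain ⟨u, hu⟩ : ∃ u : ℝ, u = 2 ^ n := ⟨_, rfl⟩
  rw [← hu] at hn1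
  rw [pow_succ, ← hu] at hn2
  have hu0 : 0 < u := by rw [hu]; positivity
  have hprm : Prm C H T u := by
    refine ⟨hp, by linarith, by linarith, ?_⟩
    rw [← hwT]
    gcongr
  have huT : u ≤ T := by
    have := hprm.pT (k := 1) (by norm_num)
    rwa [pow_one] at this
  set Z := H * T with hZd
  have hZ2 : 2 ≤ Z := by nlinarith
  have hZ0 : 0 < Z := by linarith
  have hZ3 : Z ≤ T ^ 3 := by
    calc Z ≤ u * T ^ 2 := hprm.HTT
      _ ≤ T * T ^ 2 := by gcongr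
      _ = T ^ 3 := by ring
  have hZd3 : Z ^ d ≤ T ^ (3 * d) := by
    calc Z ^ d ≤ (T ^ 3) ^ d := Real.rpow_le_rpow hZ0.le hZ3 hd0.le
      _ = T ^ (3 * d) := by
        rw [← Real.rpow_natCast T 3, ← Real.rpow_mul hT0.le]
        norm_num
  have hZd12 : (Z ^ 4) ^ d ≤ T ^ (12 * d) := by
    calc (Z ^ 4) ^ d ≤ ((T ^ 3) ^ 4) ^ d :=
          Real.rpow_le_rpow (by positivity) (by gcongr) hd0.le
      _ = (T ^ 12) ^ d := by rw [← pow_mul]
      _ = T ^ (12 * d) := by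
        rw [← Real.rpow_natCast T 12, ← Real.rpow_mul hT0.le]
        norm_num
  set D : ℕ := ⌊K0 * (792 * Z ^ 4) ^ d⌋₊ + 1 with hDdef
  have hD : ∀ n : ℕ, 1 ≤ n → (n : ℝ) ≤ 792 * (H * T) ^ 4 → n.divisors.card ≤ D := by
    intro n hn hn2
    refine le_trans ?_ (Nat.le_succ _)
    apply Nat.le_floor
    refine (hK n hn).trans ?_
    gcongr
  have hDle : (D : ℝ) ≤ (a + 1) * T ^ (12 * d) := by
    rw [hDdef, Nat.cast_add, Nat.cast_one]
    have h1 := Nat.floor_le (by positivity : 0 ≤ K0 * (792 * Z ^ 4) ^ d)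
    have h2 : K0 * (792 * Z ^ 4) ^ d ≤ a * T ^ (12 * d) := by
      rw [Real.mul_rpow (by norm_num) (by positivity), ← mul_assoc, ← ha]
      gcongr
    have h3 : 1 ≤ T ^ (12 * d) := Real.one_le_rpow hT1 (by positivity)
    rw [add_mul]
    linarith
  set J : ℕ := ⌊(132 * Z) ^ d / d⌋₊ + 1 with hJdef
  have hJle : (J : ℝ) ≤ (b + 1) * T ^ (3 * d) := by
    rw [hJdef, Nat.cast_add, Nat.cast_one]
    have h1 := Nat.floor_le (by positivity : 0 ≤ (132 * Z) ^ d / d)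
    have h2 : (132 * Z) ^ d / d ≤ b * T ^ (3 * d) := by
      rw [Real.mul_rpow (by norm_num) hZ0.le]
      calc 132 ^ d * Z ^ d / d = b * Z ^ d := by rw [hb]; ring
        _ ≤ b * T ^ (3 * d) := by gcongr
    have h3 : 1 ≤ T ^ (3 * d) := Real.one_le_rpow hT1 (by positivity)
    rw [add_mul]
    linarith
  have hmain := piece2 n hu hprm D J hD (by
    intro V x y hr h0
    have h9 : V.j x ≤ ⌊(132 * Z) ^ d / d⌋₊ := Nat.le_floor (j_bound hp V d hd0 hr h0)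
    omega) (by omega) (by omega) S hS
  refine hmain.trans ?_
  have hJD : (J : ℝ) * D ≤ ((a + 1) * (b + 1)) * w := by
    calc (J : ℝ) * D ≤ ((b + 1) * T ^ (3 * d)) * ((a + 1) * T ^ (12 * d)) := by
          gcongr
      _ = ((a + 1) * (b + 1)) * (T ^ (3 * d) * T ^ (12 * d)) := by ring
      _ = ((a + 1) * (b + 1)) * w := by
          rw [← Real.rpow_add hT0, hwd]
          congr 2
          rw [hd]; norm_num
  have hu2 : 1 / u ^ 2 ≤ 4 / w ^ 2 := by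
    rw [div_le_div_iff₀ (by positivity) (by positivity)]
    nlinarith
  have hTw : T ^ 2 / w = T ^ (2 - 1 / 39300 : ℝ) := by
    rw [Real.rpow_sub hT0, ← hwd]
    norm_num
  rw [← hTw]
  obtain ⟨KK, hKK⟩ : ∃ KK : ℝ, KK = (a + 1) * (b + 1) := ⟨_, rfl⟩
  have hKK0 : 0 < KK := by rw [hKK]; positivity
  rw [← hKK] at hJD
  rw [← hKK]
  calc (2 ^ 85) ^ 4 * (T ^ 2 * J * D / u ^ 2) = (2 ^ 85) ^ 4 * (T ^ 2 * (J * D) * (1 / u ^ 2)) := by
        ring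
    _ ≤ (2 ^ 85) ^ 4 * (T ^ 2 * (KK * w) * (4 / w ^ 2)) := by gcongr
    _ = (2 ^ 85) ^ 4 * (4 * KK) * (T ^ 2 / w) := by
        field_simp

end Pool.Agent.Helper6.HC
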