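import Pool.Agent.Helper6.HC.Diff
import Pool.Agent.Helper6.HC.Core

set_option autoImplicit false

open Finset

namespace Pool.Agent.Helper6.HC

/-- the small part of the vector of a solution -/
def tvec (k u u' q q' δ v v' : ℝ) : Fin 4 → ℝ :=
  ![8 * k * (u * q ^ 2) - δ * (u ^ 3 + u ^ 2 * v + u * v ^ 2 + v ^ 3),
    8 * k * (2 * u * q * q' + u' * q ^ 2) - δ * (3 * u ^ 2 * u' + (2 * u * u' * v + u ^ 2 * v') +
      (u' * v ^ 2 + 2 * u * v * v') + 3 * v ^ 2 * v'),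
    8 * k * (u * q' ^ 2 + 2 * u' * q * q') - δ * (3 * u * u' ^ 2 + (u' ^ 2 * v + 2 * u * u' * v') +
      (u * v' ^ 2 + 2 * u' * v * v') + 3 * v * v' ^ 2),
    8 * k * (u' * q' ^ 2) - δ * (u' ^ 3 + u' ^ 2 * v' + u' * v' ^ 2 + v' ^ 3)]

/-- the vector of a solution -/
def cvec (s k u u' q q' δ v v' : ℝ) : Fin 4 → ℝ := fun i =>
  4 * s * cube u u' i + 8 * k * s * cube q q' i + tvec k u u' q q' δ v v' i

theorem real_rel (s k s1 k1 u1 u1' q q' δ r0 r1 r2 r3 : ℝ) (hq : q ≠ 0)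
    (e0 : G0 (s ^ 2) (s ^ 3 + k) ((u1 - δ * q) + q * s) q -
      G0 (s1 ^ 2) (s1 ^ 3 + k1) (u1 + q * s1) q = q * r0)
    (e1 : 4 * (G1 (s ^ 2) (s ^ 3 + k) ((u1 - δ * q) + q * s) q ((u1' - δ * q') + q' * s) q' -
      G1 (s1 ^ 2) (s1 ^ 3 + k1) (u1 + q * s1) q (u1' + q' * s1) q') = q * r1 + q' * r0)
    (e2 : 6 * (G2 (s ^ 2) (s ^ 3 + k) ((u1 - δ * q) + q * s) q ((u1' - δ * q') + q' * s) q' -
      G2 (s1 ^ 2) (s1 ^ 3 + k1) (u1 + q * s1) q (u1' + q' * s1) q') = q * r2 + q' * r1)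
    (e3 : 4 * (G1 (s ^ 2) (s ^ 3 + k) ((u1' - δ * q') + q' * s) q' ((u1 - δ * q) + q * s) q -
      G1 (s1 ^ 2) (s1 ^ 3 + k1) (u1' + q' * s1) q' (u1 + q * s1) q) = q * r3 + q' * r2) :
    ∀ i, (![r0, r1, r2, r3] : Fin 4 → ℝ) i =
      cvec s k (u1 - δ * q) (u1' - δ * q') q q' δ u1 u1' i - cvec s1 k1 u1 u1' q q' 0 u1 u1' i := by
  have f0 : r0 = cvec s k (u1 - δ * q) (u1' - δ * q') q q' δ u1 u1' 0 -
      cvec s1 k1 u1 u1' q q' 0 u1 u1' 0 := by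
    apply mul_left_cancel₀ hq
    rw [← e0]
    simp only [G0, cvec, tvec, cube, Matrix.cons_val_zero]
    ring
  have f1 : r1 = cvec s k (u1 - δ * q) (u1' - δ * q') q q' δ u1 u1' 1 -
      cvec s1 k1 u1 u1' q q' 0 u1 u1' 1 := by
    apply mul_left_cancel₀ hq
    have : q * r1 = 4 * (G1 (s ^ 2) (s ^ 3 + k) ((u1 - δ * q) + q * s) q ((u1' - δ * q') + q' * s) q' -
      G1 (s1 ^ 2) (s1 ^ 3 + k1) (u1 + q * s1) q (u1' + q' * s1) q') - q' * r0 := by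
      rw [e1]; ring
    rw [this, f0]
    simp only [G1, cvec, tvec, cube, Matrix.cons_val_zero, Matrix.cons_val_one]
    ring
  have f2 : r2 = cvec s k (u1 - δ * q) (u1' - δ * q') q q' δ u1 u1' 2 -
      cvec s1 k1 u1 u1' q q' 0 u1 u1' 2 := by
    apply mul_left_cancel₀ hq
    have : q * r2 = 6 * (G2 (s ^ 2) (s ^ 3 + k) ((u1 - δ * q) + q * s) q ((u1' - δ * q') + q' * s) q' -
      G2 (s1 ^ 2) (s1 ^ 3 + k1) (u1 + q * s1) q (u1' + q' * s1) q') - q' * r1 := by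
      rw [e2]; ring
    rw [this, f1]
    simp only [G2, cvec, tvec, cube, Matrix.cons_val_one, Matrix.cons_val]
    ring
  have f3 : r3 = cvec s k (u1 - δ * q) (u1' - δ * q') q q' δ u1 u1' 3 -
      cvec s1 k1 u1 u1' q q' 0 u1 u1' 3 := by
    apply mul_left_cancel₀ hq
    have : q * r3 = 4 * (G1 (s ^ 2) (s ^ 3 + k) ((u1' - δ * q') + q' * s) q' ((u1 - δ * q) + q * s) q -
      G1 (s1 ^ 2) (s1 ^ 3 + k1) (u1' + q' * s1) q' (u1 + q * s1) q) - q' * r2 := by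
      rw [e3]; ring
    rw [this, f2]
    simp only [G1, cvec, tvec, cube, Matrix.cons_val]
    ring
  intro i
  fin_cases i
  · simpa using f0
  · simpa using f1
  · simpa using f2
  · simpa using f3

/-- the distance modulo one of two solutions -/
noncomputable def dl (p p' p1 p1' : ℤ) (s s1 : ℝ) : ℝ := s - s1 - (p1 * p' - p1' * p : ℤ)

theorem dl_u {p q p' q' p1 p1' : ℤ} {s s1 : ℝ} (hd : p * q' - p' * q = 1)
    (hd1 : p1 * q' - p1' * q = 1) :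
    (p : ℝ) - q * s = (p1 - q * s1) - dl p p' p1 p1' s s1 * q ∧
    (p' : ℝ) - q' * s = (p1' - q' * s1) - dl p p' p1 p1' s s1 * q' := by
  have hdR : (p : ℝ) * q' - p' * q = 1 := by exact_mod_cast hd
  have hd1R : (p1 : ℝ) * q' - p1' * q = 1 := by exact_mod_cast hd1
  unfold dl
  push_cast
  constructor
  · linear_combination (-(p : ℝ)) * hd1R + p1 * hdR
  · linear_combination (-(p' : ℝ)) * hd1R + p1' * hdR

theorem dl_br {p q p' q' p1 p1' : ℤ} {s s1 : ℝ} (hd : p * q' - p' * q = 1)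
    (hd1 : p1 * q' - p1' * q = 1) :
    dl p p' p1 p1' s s1 = (p - q * s) * (p1' - q' * s1) - (p1 - q * s1) * (p' - q' * s) := by
  have hdR : (p : ℝ) * q' - p' * q = 1 := by exact_mod_cast hd
  have hd1R : (p1 : ℝ) * q' - p1' * q = 1 := by exact_mod_cast hd1
  unfold dl
  push_cast
  linear_combination s1 * hdR - s * hd1R

section
variable {C H Q A : ℝ} {x y x1 y1 p q p' q' p1 p1' r0 r1 r2 r3 : ℤ}

theorem Rel.real (hR : Rel x y p p' x1 y1 p1 p1' q q' r0 r1 r2 r3) (hp : Par C H Q)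
    (hr : Reg H Q x y) (hr1 : Reg H Q x1 y1) (hq : q ≠ 0)
    (hd : p * q' - p' * q = 1) (hd1 : p1 * q' - p1' * q = 1) :
    ∀ i, (((![r0, r1, r2, r3] : Fin 4 → ℤ) i : ℤ) : ℝ) =
      cvec (√(x:ℝ)) (y - √(x:ℝ) ^ 3) (p - q * √(x:ℝ)) (p' - q' * √(x:ℝ)) q q'
        (dl p p' p1 p1' (√(x:ℝ)) (√(x1:ℝ))) (p1 - q * √(x1:ℝ)) (p1' - q' * √(x1:ℝ)) i -
      cvec (√(x1:ℝ)) (y1 - √(x1:ℝ) ^ 3) (p1 - q * √(x1:ℝ)) (p1' - q' * √(x1:ℝ)) q q' 0
        (p1 - q * √(x1:ℝ)) (p1' - q' * √(x1:ℝ)) i := by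
  obtain ⟨hx, hy⟩ := xy_eq hp hr
  obtain ⟨hx1, hy1⟩ := xy_eq hp hr1
  obtain ⟨hu, hu'⟩ := dl_u (s := √(x:ℝ)) (s1 := √(x1:ℝ)) hd hd1
  have hqR : (q : ℝ) ≠ 0 := by exact_mod_cast hq
  set s := √(x : ℝ) with hs
  set s1 := √(x1 : ℝ) with hs1
  set δ := dl p p' p1 p1' s s1 with hδ
  have k := real_rel s (y - s ^ 3) s1 (y1 - s1 ^ 3) (p1 - q * s1) (p1' - q' * s1) q q' δ r0 r1 r2 r3
    hqR
  have hpe : ((p1 : ℝ) - q * s1 - δ * q) + q * s = p := by rw [← hu]; ring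
  have hpe' : ((p1' : ℝ) - q' * s1 - δ * q') + q' * s = p' := by rw [← hu']; ring
  have hpe1 : ((p1 : ℝ) - q * s1) + q * s1 = p1 := by ring
  have hpe1' : ((p1' : ℝ) - q' * s1) + q' * s1 = p1' := by ring
  rw [hpe, hpe', hpe1, hpe1', ← hx, ← hy, ← hx1, ← hy1] at k
  have E0 := hR.e0
  have E1 := hR.e1
  have E2 := hR.e2
  have E3 := hR.e3
  have E0R : ((G0 x y p q : ℤ) : ℝ) - ((G0 x1 y1 p1 q : ℤ) : ℝ) = q * r0 := by exact_mod_cast E0
  have E1R : 4 * (((G1 x y p q p' q' : ℤ) : ℝ) - ((G1 x1 y1 p1 q p1' q' : ℤ) : ℝ)) =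
      q * r1 + q' * r0 := by exact_mod_cast E1
  have E2R : 6 * (((G2 x y p q p' q' : ℤ) : ℝ) - ((G2 x1 y1 p1 q p1' q' : ℤ) : ℝ)) =
      q * r2 + q' * r1 := by exact_mod_cast E2
  have E3R : 4 * (((G1 x y p' q' p q : ℤ) : ℝ) - ((G1 x1 y1 p1' q' p1 q : ℤ) : ℝ)) =
      q * r3 + q' * r2 := by exact_mod_cast E3
  rw [G0_cast, G0_cast] at E0R
  rw [G1_cast, G1_cast] at E1R E3R
  rw [G2_cast, G2_cast] at E2R
  have k2 := k E0R E1R E2R E3R
  intro i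
  rw [hu, hu']
  have e : (((![r0, r1, r2, r3] : Fin 4 → ℤ) i : ℤ) : ℝ) = (![(r0:ℝ), r1, r2, r3] : Fin 4 → ℝ) i := by
    fin_cases i <;> simp
  rw [e]
  exact k2 i

end

/-- bounds for the vectors -/
theorem tvec_bound {k u u' q q' δ v v' κ a b d : ℝ} (hκ : |k| ≤ κ) (hu : |u| ≤ a) (hu' : |u'| ≤ a)
    (hv : |v| ≤ a) (hv' : |v'| ≤ a) (hq : |q| ≤ b) (hq' : |q'| ≤ b) (hδ : |δ| ≤ d) (i : Fin 4) :
    |tvec k u u' q q' δ v v' i| ≤ 24 * κ * a * b ^ 2 + 12 * d * a ^ 3 := by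
  have m3 : ∀ {x y z X Y Z : ℝ}, |x| ≤ X → |y| ≤ Y → |z| ≤ Z → |x * y * z| ≤ X * Y * Z :=
    fun h1 h2 h3 => abs_mul_le (abs_mul_le h1 h2) h3
  have ha0 : 0 ≤ a := (abs_nonneg _).trans hu
  have hb0 : 0 ≤ b := (abs_nonneg _).trans hq
  have c1 : ∀ {x y z : ℝ}, |x| ≤ a → |y| ≤ b → |z| ≤ b → |x * y * z| ≤ a * b ^ 2 := by
    intro x y z h1 h2 h3
    refine (m3 h1 h2 h3).trans (le_of_eq (by ring))
  have c2 : ∀ {x y z : ℝ}, |x| ≤ a → |y| ≤ a → |z| ≤ a → |x * y * z| ≤ a ^ 3 := by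
    intro x y z h1 h2 h3
    refine (m3 h1 h2 h3).trans (le_of_eq (by ring))
  have gen : ∀ {X Y : ℝ}, |X| ≤ 3 * (a * b ^ 2) → |Y| ≤ 12 * a ^ 3 →
      |8 * k * X - δ * Y| ≤ 24 * κ * a * b ^ 2 + 12 * d * a ^ 3 := by
    intro X Y h1 h2
    have h3 := abs_mul_le hκ h1
    have h4 := abs_mul_le hδ h2
    calc |8 * k * X - δ * Y| ≤ |8 * k * X| + |δ * Y| := abs_sub _ _
      _ = 8 * |k * X| + |δ * Y| := by
          rw [mul_assoc, abs_mul 8, abs_of_pos (by norm_num : (0:ℝ) < 8)]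
      _ ≤ 8 * (κ * (3 * (a * b ^ 2))) + d * (12 * a ^ 3) := by linarith
      _ = 24 * κ * a * b ^ 2 + 12 * d * a ^ 3 := by ring
  have t1 : |u * q * q| ≤ a * b ^ 2 := c1 hu hq hq
  have t2 : |u * q * q'| ≤ a * b ^ 2 := c1 hu hq hq'
  have t3 : |u' * q * q| ≤ a * b ^ 2 := c1 hu' hq hq
  have t4 : |u * q' * q'| ≤ a * b ^ 2 := c1 hu hq' hq'
  have t5 : |u' * q * q'| ≤ a * b ^ 2 := c1 hu' hq hq'
  have t6 : |u' * q' * q'| ≤ a * b ^ 2 := c1 hu' hq' hq'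
  have hab : 0 ≤ a * b ^ 2 := by positivity
  have ha3 : 0 ≤ a ^ 3 := by positivity
  fin_cases i
  · simp only [tvec, Fin.zero_eta, Matrix.cons_val_zero]
    refine gen ?_ ?_
    · have e : u * q ^ 2 = u * q * q := by ring
      rw [e]; linarith
    · have w1 := abs_le.mp (c2 hu hu hu)
      have w2 := abs_le.mp (c2 hu hu hv)
      have w3 := abs_le.mp (c2 hu hv hv)
      have w4 := abs_le.mp (c2 hv hv hv)
      rw [abs_le]
      constructor <;> nlinarith [w1.1, w1.2, w2.1, w2.2, w3.1, w3.2, w4.1, w4.2]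
  · simp only [tvec, Fin.mk_one, Matrix.cons_val_one, Matrix.cons_val_zero]
    refine gen ?_ ?_
    · have a1 := abs_le.mp t2
      have a2 := abs_le.mp t3
      rw [abs_le]
      constructor <;> nlinarith [a1.1, a1.2, a2.1, a2.2]
    · have w1 := abs_le.mp (c2 hu hu hu')
      have w2 := abs_le.mp (c2 hu hu' hv)
      have w3 := abs_le.mp (c2 hu hu hv')
      have w4 := abs_le.mp (c2 hu' hv hv)
      have w5 := abs_le.mp (c2 hu hv hv')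
      have w6 := abs_le.mp (c2 hv hv hv')
      rw [abs_le]
      constructor <;> nlinarith [w1.1, w1.2, w2.1, w2.2, w3.1, w3.2, w4.1, w4.2, w5.1, w5.2, w6.1, w6.2]
  · simp only [tvec, Fin.reduceFinMk, Matrix.cons_val]
    refine gen ?_ ?_
    · have a1 := abs_le.mp t4
      have a2 := abs_le.mp t5
      rw [abs_le]
      constructor <;> nlinarith [a1.1, a1.2, a2.1, a2.2]
    · have w1 := abs_le.mp (c2 hu hu' hu')
      have w2 := abs_le.mp (c2 hu' hu' hv)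
      have w3 := abs_le.mp (c2 hu hu' hv')
      have w4 := abs_le.mp (c2 hu hv' hv')
      have w5 := abs_le.mp (c2 hu' hv hv')
      have w6 := abs_le.mp (c2 hv hv' hv')
      rw [abs_le]
      constructor <;> nlinarith [w1.1, w1.2, w2.1, w2.2, w3.1, w3.2, w4.1, w4.2, w5.1, w5.2, w6.1, w6.2]
  · simp only [tvec, Fin.reduceFinMk, Matrix.cons_val]
    refine gen ?_ ?_
    · have e : u' * q' ^ 2 = u' * q' * q' := by ring
      rw [e]; linarith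
    · have w1 := abs_le.mp (c2 hu' hu' hu')
      have w2 := abs_le.mp (c2 hu' hu' hv')
      have w3 := abs_le.mp (c2 hu' hv' hv')
      have w4 := abs_le.mp (c2 hv' hv' hv')
      rw [abs_le]
      constructor <;> nlinarith [w1.1, w1.2, w2.1, w2.2, w3.1, w3.2, w4.1, w4.2]

theorem cube_bound {u v a : ℝ} (hu : |u| ≤ a) (hv : |v| ≤ a) (i : Fin 4) :
    |cube u v i| ≤ 3 * a ^ 3 := by
  have m3 : ∀ {x y z : ℝ}, |x| ≤ a → |y| ≤ a → |z| ≤ a → |x * y * z| ≤ a ^ 3 := by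
    intro x y z h1 h2 h3
    exact (abs_mul_le (abs_mul_le h1 h2) h3).trans (le_of_eq (by ring))
  have ha0 : 0 ≤ a := (abs_nonneg _).trans hu
  have ha3 : 0 ≤ a ^ 3 := by positivity
  have w1 := abs_le.mp (m3 hu hu hu)
  have w2 := abs_le.mp (m3 hu hu hv)
  have w3 := abs_le.mp (m3 hu hv hv)
  have w4 := abs_le.mp (m3 hv hv hv)
  fin_cases i
  · simp only [cube, Fin.zero_eta, Matrix.cons_val_zero]
    rw [abs_le]; constructor <;> nlinarith [w1.1, w1.2]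
  · simp only [cube, Fin.mk_one, Matrix.cons_val_one, Matrix.cons_val_zero]
    rw [abs_le]; constructor <;> nlinarith [w2.1, w2.2]
  · simp only [cube, Fin.reduceFinMk, Matrix.cons_val]
    rw [abs_le]; constructor <;> nlinarith [w3.1, w3.2]
  · simp only [cube, Fin.reduceFinMk, Matrix.cons_val]
    rw [abs_le]; constructor <;> nlinarith [w4.1, w4.2]

end Pool.Agent.Helper6.HC
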